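import Mathlib

/-!
# Every symplectic matrix is a product of two Cayley transforms
-/

set_option autoImplicit false
set_option maxHeartbeats 800000

namespace MT

variable {K : Type*} [Field K] {n : ℕ}

open Matrix

/-- coefficients of the equation `(M₀ + X M₁) v = 0` -/
theorem pencil_coeff (M₀ M₁ : Matrix (Fin n) (Fin n) K) (v : Fin n → Polynomial K)
    (hv : (M₀.map (Polynomial.C (R := K)) + (Polynomial.X : Polynomial K) •
      M₁.map (Polynomial.C (R := K))) *ᵥ v = 0) :
    (M₀ *ᵥ (fun i => (v i).coeff 0) = 0) ∧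
    ∀ k : ℕ, M₀ *ᵥ (fun i => (v i).coeff (k + 1)) + M₁ *ᵥ (fun i => (v i).coeff k) = 0 := by
  have key : ∀ k : ℕ, ∀ i, ∑ j, M₀ i j * (v j).coeff k +
      ∑ j, M₁ i j * ((Polynomial.X * v j).coeff k) = 0 := by
    intro k i
    have h1 := congrFun hv i
    have h2 : (∑ j, (Polynomial.C (M₀ i j) * v j + Polynomial.C (M₁ i j) * (Polynomial.X * v j))) =
        (0 : Polynomial K) := by
      rw [← Pi.zero_apply (M := fun _ => Polynomial K) i, ← h1]
      simp only [Matrix.mulVec, dotProduct, Matrix.add_apply, Matrix.smul_apply, Matrix.map_apply,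
        smul_eq_mul]
      refine Finset.sum_congr rfl fun j _ => ?_
      ring
    have h3 := congrArg (fun p : Polynomial K => p.coeff k) h2
    simp only [Polynomial.finsetSum_coeff, Polynomial.coeff_add, Polynomial.coeff_C_mul,
      Polynomial.coeff_zero, Finset.sum_add_distrib] at h3
    exact h3
  constructor
  · funext i
    have h1 := key 0 i
    simp only [Polynomial.coeff_X_mul_zero, mul_zero, Finset.sum_const_zero, add_zero] at h1
    exact h1
  · intro k
    funext i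
    have h1 := key (k + 1) i
    simp only [Polynomial.coeff_X_mul] at h1
    exact h1

/-- if the pencil `M₀ + t M₁` is singular, the first order obstruction vanishes somewhere -/
theorem pencil_singular (M₀ M₁ : Matrix (Fin n) (Fin n) K)
    (hdet : (M₀.map (Polynomial.C (R := K)) + (Polynomial.X : Polynomial K) •
      M₁.map (Polynomial.C (R := K))).det = 0) :
    ∃ x y : Fin n → K, x ≠ 0 ∧ M₀ *ᵥ x = 0 ∧ M₀ *ᵥ y + M₁ *ᵥ x = 0 := by
  obtain ⟨v, hv0, hv⟩ := Matrix.exists_mulVec_eq_zero_iff.mpr hdet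
  obtain ⟨h0, hk⟩ := pencil_coeff M₀ M₁ v hv
  have hex : ∃ k : ℕ, (fun i => (v i).coeff k) ≠ 0 := by
    by_contra hcon
    push Not at hcon
    apply hv0
    funext i
    ext k
    exact congrFun (hcon k) i
  classical
  refine ⟨fun i => (v i).coeff (Nat.find hex), fun i => (v i).coeff (Nat.find hex + 1),
    Nat.find_spec hex, ?_, hk _⟩
  rcases hf : Nat.find hex with _ | k
  · exact h0
  · have h1 := hk k
    have h2 : (fun i => (v i).coeff k) = 0 := by
      by_contra hne
      exact Nat.find_min hex (m := k) (by omega) hne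
    rw [h2, Matrix.mulVec_zero, add_zero] at h1
    exact h1

/-- a symmetric matrix which is nondegenerate on a subspace -/
theorem exists_symm_nondeg (E : Submodule K (Fin n → K)) :
    ∃ B : Matrix (Fin n) (Fin n) K, Bᵀ = B ∧
      ∀ x ∈ E, (∀ e ∈ E, e ⬝ᵥ (B *ᵥ x) = 0) → x = 0 := by
  classical
  obtain ⟨π, hπ⟩ := LinearMap.exists_leftInverse_of_injective E.subtype (Submodule.ker_subtype E)
  let b := Module.finBasis K E
  let q : (Fin n → K) →ₗ[K] (Fin (Module.finrank K E) → K) := b.equivFun.toLinearMap ∘ₗ π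
  let Q : Matrix (Fin (Module.finrank K E)) (Fin n) K := LinearMap.toMatrix' q
  have hQ : ∀ x, Q *ᵥ x = q x := fun x => LinearMap.toMatrix'_mulVec q x
  have hqE : ∀ x (hx : x ∈ E), q x = b.equivFun ⟨x, hx⟩ := by
    intro x hx
    have h1 : π x = ⟨x, hx⟩ := by
      have := LinearMap.congr_fun hπ ⟨x, hx⟩
      exact this
    change b.equivFun (π x) = _
    rw [h1]
  refine ⟨Qᵀ * Q, by rw [Matrix.transpose_mul, Matrix.transpose_transpose], ?_⟩
  intro x hx h
  have h2 : ∀ e ∈ E, q e ⬝ᵥ q x = 0 := by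
    intro e he
    have h3 := h e he
    rw [← Matrix.mulVec_mulVec, Matrix.dotProduct_mulVec, Matrix.vecMul_transpose, hQ, hQ] at h3
    exact h3
  have h4 : q x = 0 := by
    funext i
    let e : E := b.equivFun.symm (Pi.single i 1)
    have h5 := h2 e e.2
    rw [hqE e e.2] at h5
    have h6 : b.equivFun ⟨(e : Fin n → K), e.2⟩ = Pi.single i 1 := by
      change b.equivFun (b.equivFun.symm (Pi.single i 1)) = _
      exact LinearEquiv.apply_symm_apply _ _
    rw [h6, single_one_dotProduct] at h5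
    exact h5
  rw [hqE x hx] at h4
  have h7 : (⟨x, hx⟩ : E) = 0 := by
    rw [← LinearEquiv.map_eq_zero_iff b.equivFun]
    exact h4
  exact congrArg Subtype.val h7

/-- polynomial matrices which are invertible at some point -/
theorem exists_eval_ne [Infinite K] (p : Polynomial K) (hp : p ≠ 0) : ∃ t : K, p.eval t ≠ 0 := by
  by_contra hcon
  push Not at hcon
  apply hp
  apply Polynomial.funext
  intro t
  rw [hcon t, Polynomial.eval_zero]

theorem eval_det_pencil (M₀ M₁ : Matrix (Fin n) (Fin n) K) (t : K) :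
    ((M₀.map (Polynomial.C (R := K)) + (Polynomial.X : Polynomial K) •
      M₁.map (Polynomial.C (R := K))).det).eval t = (M₀ + t • M₁).det := by
  have h1 := RingHom.map_det (Polynomial.evalRingHom t) (M₀.map (Polynomial.C (R := K)) +
    (Polynomial.X : Polynomial K) • M₁.map (Polynomial.C (R := K)))
  rw [Polynomial.coe_evalRingHom] at h1
  rw [h1]
  congr 1
  ext i j
  simp
  ring

theorem isometry_mul {ψ g h : Matrix (Fin n) (Fin n) K} (hg : gᵀ * ψ * g = ψ)
    (hh : hᵀ * ψ * h = ψ) : (g * h)ᵀ * ψ * (g * h) = ψ := by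
  calc (g * h)ᵀ * ψ * (g * h) = hᵀ * (gᵀ * ψ * g) * h := by
        rw [Matrix.transpose_mul]; simp only [Matrix.mul_assoc]
    _ = ψ := by rw [hg, hh]

/-- the Cayley transform of an infinitesimal isometry is an isometry -/
theorem cayley_isometry {ψ P N : Matrix (Fin n) (Fin n) K} (hP : Pᵀ * ψ = ψ * N)
    (hN : Nᵀ * ψ = ψ * P) (hPN : P * N = N * P) (hu : IsUnit N.det) :
    (P * N⁻¹)ᵀ * ψ * (P * N⁻¹) = ψ := by
  have hNN : N * N⁻¹ = 1 := Matrix.mul_nonsing_inv _ hu
  have e1 : (N⁻¹)ᵀ * Nᵀ = 1 := by rw [← Matrix.transpose_mul, hNN, Matrix.transpose_one]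
  calc (P * N⁻¹)ᵀ * ψ * (P * N⁻¹) = (N⁻¹)ᵀ * (Pᵀ * ψ) * P * N⁻¹ := by
        rw [Matrix.transpose_mul]; simp only [Matrix.mul_assoc]
    _ = (N⁻¹)ᵀ * ψ * (N * P) * N⁻¹ := by rw [hP]; simp only [Matrix.mul_assoc]
    _ = (N⁻¹)ᵀ * (ψ * P) * (N * N⁻¹) := by rw [← hPN]; simp only [Matrix.mul_assoc]
    _ = (N⁻¹)ᵀ * Nᵀ * ψ := by rw [hNN, ← hN, Matrix.mul_one]; simp only [Matrix.mul_assoc]
    _ = ψ := by rw [e1, Matrix.one_mul]

/-- GSP: every isometry of an alternating form is a product of two isometries without the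
eigenvalue `-1` -/
theorem symplectic_factor [CharZero K] (ψ : Matrix (Fin n) (Fin n) K) (hψ : IsUnit ψ.det)
    (hs : ψᵀ = -ψ) (g : Matrix (Fin n) (Fin n) K) (hg : gᵀ * ψ * g = ψ) :
    ∃ s r : Matrix (Fin n) (Fin n) K, sᵀ * ψ * s = ψ ∧ rᵀ * ψ * r = ψ ∧ (1 + s).det ≠ 0 ∧
      (1 + r).det ≠ 0 ∧ s * r = g := by
  have hinf : Infinite K := inferInstance
  let E : Submodule K (Fin n → K) := LinearMap.ker (1 + g).mulVecLin
  obtain ⟨B, hBt, hB⟩ := exists_symm_nondeg E
  set A := ψ⁻¹ * B with hA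
  have hψi : ψ * ψ⁻¹ = 1 := Matrix.mul_nonsing_inv _ hψ
  have hψi' : ψ⁻¹ * ψ = 1 := Matrix.nonsing_inv_mul _ hψ
  have hψA : ψ * A = B := by rw [hA, ← Matrix.mul_assoc, hψi, Matrix.one_mul]
  have hAψ : Aᵀ * ψ = -B := by
    have h1 : (ψ * A)ᵀ = B := by rw [hψA, hBt]
    rw [Matrix.transpose_mul, hs, Matrix.mul_neg] at h1
    rw [← h1, neg_neg]
  have hpen : ((1 + g).map (Polynomial.C (R := K)) + (Polynomial.X : Polynomial K) •
      (A * (1 - g)).map (Polynomial.C (R := K))).det ≠ 0 := by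
    intro hdet
    obtain ⟨x, y, hx0, hx, hxy⟩ := pencil_singular _ _ hdet
    apply hx0
    have hxE : x ∈ E := by
      rw [LinearMap.mem_ker, Matrix.mulVecLin_apply]
      exact hx
    refine hB x hxE ?_
    intro e he
    rw [LinearMap.mem_ker, Matrix.mulVecLin_apply] at he
    -- `eᵀ ψ (1 + g) = 0`
    have hge : g *ᵥ e = -e := by
      rw [Matrix.add_mulVec, Matrix.one_mulVec] at he
      exact eq_neg_of_add_eq_zero_right he
    have hgx : g *ᵥ x = -x := by
      rw [Matrix.add_mulVec, Matrix.one_mulVec] at hx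
      exact eq_neg_of_add_eq_zero_right hx
    have h1 : e ᵥ* (ψ * (1 + g)) = 0 := by
      have h2 : (g *ᵥ e) ᵥ* (ψ * g) = e ᵥ* ψ := by
        rw [← Matrix.vecMul_transpose, Matrix.vecMul_vecMul, ← Matrix.mul_assoc, hg]
      rw [hge, Matrix.neg_vecMul] at h2
      rw [Matrix.mul_add, Matrix.mul_one, Matrix.vecMul_add, ← h2, neg_add_cancel]
    have h3 := congrArg (fun z => e ⬝ᵥ (ψ *ᵥ z)) hxy
    simp only [Matrix.mulVec_add, dotProduct_add, Matrix.mulVec_zero, dotProduct_zero] at h3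
    have h4 : e ⬝ᵥ (ψ *ᵥ ((1 + g) *ᵥ y)) = 0 := by
      rw [Matrix.mulVec_mulVec, Matrix.dotProduct_mulVec, h1, zero_dotProduct]
    have h5 : (A * (1 - g)) *ᵥ x = (2 : K) • (A *ᵥ x) := by
      rw [← Matrix.mulVec_mulVec, Matrix.sub_mulVec, Matrix.one_mulVec, hgx, sub_neg_eq_add,
        ← two_smul K x, Matrix.mulVec_smul]
    have h6 : e ⬝ᵥ (ψ *ᵥ ((A * (1 - g)) *ᵥ x)) = 2 * (e ⬝ᵥ (B *ᵥ x)) := by
      rw [h5, Matrix.mulVec_smul, dotProduct_smul, smul_eq_mul, Matrix.mulVec_mulVec, hψA]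
    rw [h4, h6, zero_add] at h3
    exact (mul_eq_zero.mp h3).resolve_left two_ne_zero
  have hone : ∀ M : Matrix (Fin n) (Fin n) K,
      ((1 : Matrix (Fin n) (Fin n) K).map (Polynomial.C (R := K)) +
      (Polynomial.X : Polynomial K) • M.map (Polynomial.C (R := K))).det ≠ 0 := by
    intro M h0
    have h1 := eval_det_pencil (1 : Matrix (Fin n) (Fin n) K) M 0
    rw [h0, Polynomial.eval_zero, zero_smul, add_zero, Matrix.det_one] at h1
    exact zero_ne_one h1
  obtain ⟨t, ht⟩ := exists_eval_ne _ (mul_ne_zero hpen (mul_ne_zero (hone A) (hone (-A))))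
  rw [Polynomial.eval_mul, Polynomial.eval_mul, eval_det_pencil, eval_det_pencil,
    eval_det_pencil] at ht
  have ht1 := left_ne_zero_of_mul ht
  have ht2 := left_ne_zero_of_mul (right_ne_zero_of_mul ht)
  have ht3 := right_ne_zero_of_mul (right_ne_zero_of_mul ht)
  set P : Matrix (Fin n) (Fin n) K := 1 + t • A with hP
  set N : Matrix (Fin n) (Fin n) K := 1 + t • (-A) with hN
  have hPu : IsUnit P.det := isUnit_iff_ne_zero.mpr ht2
  have hNu : IsUnit N.det := isUnit_iff_ne_zero.mpr ht3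
  have hPP : P * P⁻¹ = 1 := Matrix.mul_nonsing_inv _ hPu
  have hNN : N * N⁻¹ = 1 := Matrix.mul_nonsing_inv _ hNu
  have hNN' : N⁻¹ * N = 1 := Matrix.nonsing_inv_mul _ hNu
  have hPN : P * N = N * P := by
    rw [hP, hN]
    simp only [Matrix.mul_add, Matrix.add_mul, Matrix.one_mul, Matrix.mul_one, Matrix.smul_mul,
      Matrix.mul_smul, smul_neg, Matrix.mul_neg, Matrix.neg_mul, smul_add]
    abel
  have hPψ : Pᵀ * ψ = ψ * N := by
    rw [hP, hN, Matrix.transpose_add, Matrix.transpose_one, Matrix.transpose_smul, Matrix.add_mul,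
      Matrix.one_mul, Matrix.smul_mul, hAψ, Matrix.mul_add, Matrix.mul_one, Matrix.mul_smul,
      Matrix.mul_neg, hψA]
  have hNψ : Nᵀ * ψ = ψ * P := by
    rw [hP, hN, Matrix.transpose_add, Matrix.transpose_one, Matrix.transpose_smul, Matrix.add_mul,
      Matrix.one_mul, Matrix.smul_mul, Matrix.transpose_neg, Matrix.neg_mul, hAψ, Matrix.mul_add,
      Matrix.mul_one, Matrix.mul_smul, hψA, neg_neg]
  refine ⟨P * N⁻¹, N * P⁻¹ * g, cayley_isometry hPψ hNψ hPN hNu,
    isometry_mul (cayley_isometry hNψ hPψ hPN.symm hPu) hg, ?_, ?_, ?_⟩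
  · intro h0
    have h1 : (1 + P * N⁻¹) * N = (2 : K) • (1 : Matrix (Fin n) (Fin n) K) := by
      rw [Matrix.add_mul, Matrix.one_mul, Matrix.mul_assoc, hNN', Matrix.mul_one, hP, hN, smul_neg,
        two_smul]
      abel
    have h2 := congrArg Matrix.det h1
    rw [Matrix.det_mul, h0, zero_mul, Matrix.det_smul, Matrix.det_one, mul_one] at h2
    exact pow_ne_zero _ two_ne_zero h2.symm
  · intro h0
    apply ht1
    have h1 : P * (1 + N * P⁻¹ * g) = 1 + g + t • (A * (1 - g)) := by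
      have h2 : P * (N * P⁻¹ * g) = N * g := by
        calc P * (N * P⁻¹ * g) = (P * N) * P⁻¹ * g := by simp only [Matrix.mul_assoc]
          _ = N * (P * P⁻¹) * g := by rw [hPN]; simp only [Matrix.mul_assoc]
          _ = N * g := by rw [hPP, Matrix.mul_one]
      rw [Matrix.mul_add, Matrix.mul_one, h2, hP, hN, Matrix.add_mul, Matrix.one_mul,
        Matrix.smul_mul, Matrix.neg_mul, Matrix.mul_sub, Matrix.mul_one, smul_neg, smul_sub]
      abel
    rw [← h1, Matrix.det_mul, h0, mul_zero]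
  · calc P * N⁻¹ * (N * P⁻¹ * g) = P * (N⁻¹ * N) * P⁻¹ * g := by simp only [Matrix.mul_assoc]
      _ = g := by rw [hNN', Matrix.mul_one, hPP, Matrix.one_mul]

end MT
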