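import Pool.Agent.Helper84.MT.Ode

/-!
# The Cayley transform and the isometry group of a bilinear form
-/

set_option autoImplicit false
set_option maxHeartbeats 800000

open MvPolynomial

namespace MT

variable {K₀ : Type*} [Field K₀] {n : ℕ}

/-- decomposition of an infinitesimal isometry in the standard generators -/
theorem infinitesimal_decomp {R : Type*} [CommRing R] [Algebra K₀ R] (h2 : (2 : K₀) ≠ 0)
    (ε : K₀) (hε : ε * ε = 1) (ψ : Matrix (Fin n) (Fin n) K₀) (hψ : IsUnit ψ.det)
    (hs : ψ.transpose = ε • ψ) (Y : Matrix (Fin n) (Fin n) R)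
    (hY : Y.transpose * ψ.map (algebraMap K₀ R) + ψ.map (algebraMap K₀ R) * Y = 0) :
    Y = ∑ a : Fin n × Fin n, (algebraMap K₀ R (2⁻¹) * (ψ.map (algebraMap K₀ R) * Y) a.1 a.2) •
      ((ψ⁻¹ * (Matrix.single a.1 a.2 1 - ε • Matrix.single a.2 a.1 1)).map (algebraMap K₀ R)) := by
  set φ := algebraMap K₀ R with hφ
  set S : Matrix (Fin n) (Fin n) R := ψ.map φ * Y with hS
  have hsym : S.transpose = -(φ ε • S) := by
    have h1 : S.transpose = Y.transpose * (ψ.map φ).transpose := by
      rw [hS, Matrix.transpose_mul]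
    have h3 : (ψ.map φ).transpose = φ ε • ψ.map φ := by
      rw [← Matrix.transpose_map, hs]
      ext i j
      simp
    rw [h1, h3, Matrix.mul_smul, eq_neg_of_add_eq_zero_left hY, smul_neg, hS]
  have hY2 : Y = (ψ⁻¹).map φ * S := by
    have h4 : (ψ⁻¹).map φ * ψ.map φ = 1 := by
      rw [← Matrix.map_mul, Matrix.nonsing_inv_mul _ hψ, Matrix.map_one φ (map_zero φ) (map_one φ)]
    rw [hS, ← Matrix.mul_assoc, h4, Matrix.one_mul]
  have hdec : S = ∑ a : Fin n × Fin n, (φ (2⁻¹) * S a.1 a.2) •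
      ((Matrix.single a.1 a.2 (1 : K₀) - ε • Matrix.single a.2 a.1 1).map φ) := by
    ext i j
    rw [Matrix.sum_apply]
    simp only [Matrix.smul_apply, Matrix.map_apply, Matrix.sub_apply, map_sub, smul_eq_mul,
      map_mul, mul_sub, Finset.sum_sub_distrib]
    have e1 : ∑ x : Fin n × Fin n, φ (2⁻¹) * S x.1 x.2 * φ (Matrix.single x.1 x.2 (1 : K₀) i j) =
        φ (2⁻¹) * S i j := by
      rw [Finset.sum_eq_single (i, j)]
      · simp
      · rintro ⟨a, b⟩ _ hab
        have : Matrix.single a b (1 : K₀) i j = 0 := by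
          rw [Matrix.single_apply, if_neg]
          rintro ⟨rfl, rfl⟩
          exact hab rfl
        simp only [this, map_zero, mul_zero]
      · intro h; exact absurd (Finset.mem_univ _) h
    have e2 : ∑ x : Fin n × Fin n, φ (2⁻¹) * S x.1 x.2 *
        (φ ε * φ (Matrix.single x.2 x.1 (1 : K₀) i j)) = φ (2⁻¹) * S j i * φ ε := by
      rw [Finset.sum_eq_single (j, i)]
      · simp
      · rintro ⟨a, b⟩ _ hab
        have : Matrix.single b a (1 : K₀) i j = 0 := by
          rw [Matrix.single_apply, if_neg]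
          rintro ⟨rfl, rfl⟩
          exact hab rfl
        simp only [this, map_zero, mul_zero]
      · intro h; exact absurd (Finset.mem_univ _) h
    rw [e1, e2]
    have h5 : S j i = -(φ ε * S i j) := by
      have := congrFun (congrFun hsym i) j
      simpa using this
    have h6 : φ (2⁻¹) * 2 = 1 := by
      have : (2 : R) = φ 2 := by rw [map_ofNat]
      rw [this, ← map_mul, inv_mul_cancel₀ h2, map_one]
    have h7 : φ ε * φ ε = 1 := by rw [← map_mul, hε, map_one]
    rw [h5]
    linear_combination (-(S i j)) * h6 + (-(φ 2⁻¹) * S i j) * h7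
  conv_lhs => rw [hY2, hdec]
  rw [Matrix.mul_sum]
  refine Finset.sum_congr rfl fun a _ => ?_
  rw [Matrix.mul_smul, ← Matrix.map_mul]

/-- the generators are infinitesimal isometries -/
theorem generator_mem (ε : K₀) (hε : ε * ε = 1) (ψ : Matrix (Fin n) (Fin n) K₀)
    (hψ : IsUnit ψ.det) (hs : ψ.transpose = ε • ψ) (i j : Fin n) :
    (ψ⁻¹ * (Matrix.single i j 1 - ε • Matrix.single j i 1)).transpose * ψ +
      ψ * (ψ⁻¹ * (Matrix.single i j 1 - ε • Matrix.single j i 1)) = 0 := by
  set E : Matrix (Fin n) (Fin n) K₀ := Matrix.single i j 1 - ε • Matrix.single j i 1 with hE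
  have h1 : ψ * (ψ⁻¹ * E) = E := by
    rw [← Matrix.mul_assoc, Matrix.mul_nonsing_inv _ hψ, Matrix.one_mul]
  have hEt : E.transpose = -(ε • E) := by
    rw [hE, Matrix.transpose_sub, Matrix.transpose_smul, Matrix.transpose_single,
      Matrix.transpose_single, smul_sub, smul_smul, hε, one_smul]
    abel
  have h2 : (ψ⁻¹ * E).transpose * ψ = ε • E.transpose := by
    have h3 : (ψ⁻¹ * E).transpose * ψ.transpose = E.transpose := by
      rw [← Matrix.transpose_mul, h1]
    rw [hs, Matrix.mul_smul] at h3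
    rw [← h3, smul_smul, hε, one_smul]
  rw [h1, h2, hEt, smul_neg, smul_smul, hε, one_smul, neg_add_cancel]

/-- derivative of a product of matrices of power series -/
theorem map_derivative_mul {K : Type*} [Field K] (c d : Matrix (Fin n) (Fin n) (PowerSeries K)) :
    (c * d).map (PowerSeries.derivative K) =
      c.map (PowerSeries.derivative K) * d + c * d.map (PowerSeries.derivative K) := by
  ext1 i j
  simp only [Matrix.map_apply, Matrix.add_apply, Matrix.mul_apply, map_sum, Derivation.leibniz,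
    smul_eq_mul]
  rw [← Finset.sum_add_distrib]
  refine Finset.sum_congr rfl fun k _ => ?_
  ring

/-- evaluation commutes with ring homomorphisms -/
theorem ev_map {R R' : Type*} [CommRing R] [CommRing R'] [Algebra K₀ R] [Algebra K₀ R']
    (φ : R →+* R') (hφ : ∀ a : K₀, φ (algebraMap K₀ R a) = algebraMap K₀ R' a)
    (g : Matrix (Fin n) (Fin n) R) (f : MvPolynomial (Fin n × Fin n) K₀) :
    φ (ev g f) = ev (g.map φ) f := by
  induction f using MvPolynomial.induction_on with
  | C a => rw [ev_C, ev_C, hφ]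
  | add p q hp hq => rw [map_add, map_add, map_add, hp, hq]
  | mul_X p ij hp => rw [map_mul, map_mul, map_mul, hp, ev_X, ev_X, Matrix.map_apply]

section Cayley

variable {K : Type*} [Field K] [CharZero K] [Algebra K₀ K]

/-- the vanishing ideal along the curve `(1 - tA) (1 + tA)⁻¹` -/
theorem cayley_curve (h2 : (2 : K₀) ≠ 0) (ε : K₀) (hε : ε * ε = 1)
    (ψ : Matrix (Fin n) (Fin n) K₀) (hψ : IsUnit ψ.det) (hs : ψ.transpose = ε • ψ)
    (I : Set (MvPolynomial (Fin n × Fin n) K₀))
    (h1 : ∀ f ∈ I, ev (1 : Matrix (Fin n) (Fin n) K) f = 0)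
    (hL : ∀ M : Matrix (Fin n) (Fin n) K₀, M.transpose * ψ + ψ * M = 0 → ∀ f ∈ I, ldv M f ∈ I)
    (A : Matrix (Fin n) (Fin n) K)
    (hA : A.transpose * ψ.map (algebraMap K₀ K) + ψ.map (algebraMap K₀ K) * A = 0)
    (c : Matrix (Fin n) (Fin n) (PowerSeries K))
    (hc : c * (1 + (PowerSeries.X : PowerSeries K) • A.map (PowerSeries.C (R := K))) =
      1 - (PowerSeries.X : PowerSeries K) • A.map (PowerSeries.C (R := K))) :
    ∀ f ∈ I, ev c f = 0 := by
  set A' : Matrix (Fin n) (Fin n) (PowerSeries K) := A.map (PowerSeries.C (R := K)) with hA'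
  set P : Matrix (Fin n) (Fin n) (PowerSeries K) := 1 + (PowerSeries.X : PowerSeries K) • A' with hP
  set N : Matrix (Fin n) (Fin n) (PowerSeries K) := 1 - (PowerSeries.X : PowerSeries K) • A' with hN
  have hPc : P.map (PowerSeries.constantCoeff (R := K)) = 1 := by
    ext i j
    simp only [hP, hA', Matrix.map_apply, Matrix.add_apply, Matrix.smul_apply, smul_eq_mul, map_add,
      map_mul, PowerSeries.constantCoeff_X, zero_mul, add_zero]
    rw [Matrix.one_apply, Matrix.one_apply]
    split_ifs <;> simp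
  have hNc : N.map (PowerSeries.constantCoeff (R := K)) = 1 := by
    ext i j
    simp only [hN, hA', Matrix.map_apply, Matrix.sub_apply, Matrix.smul_apply, smul_eq_mul, map_sub,
      map_mul, PowerSeries.constantCoeff_X, zero_mul, sub_zero]
    rw [Matrix.one_apply, Matrix.one_apply]
    split_ifs <;> simp
  have hunit : ∀ Q : Matrix (Fin n) (Fin n) (PowerSeries K),
      Q.map (PowerSeries.constantCoeff (R := K)) = 1 → IsUnit Q.det := by
    intro Q hQ
    rw [PowerSeries.isUnit_iff_constantCoeff]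
    have : PowerSeries.constantCoeff (R := K) Q.det = 1 := by
      rw [RingHom.map_det, RingHom.mapMatrix_apply, hQ, Matrix.det_one]
    rw [this]
    exact isUnit_one
  have hPu := hunit P hPc
  have hNu := hunit N hNc
  have hAP : A' * P = P * A' := by
    rw [hP]; simp [Matrix.mul_add, Matrix.add_mul]
  have hAN : A' * N = N * A' := by
    rw [hN]; simp [Matrix.mul_sub, Matrix.sub_mul]
  have hPN : P * N = N * P := by
    rw [hP, hN]
    simp only [Matrix.mul_sub, Matrix.sub_mul, Matrix.mul_add, Matrix.add_mul, Matrix.one_mul,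
      Matrix.mul_one, Matrix.smul_mul, Matrix.mul_smul, smul_add, smul_sub]
    abel
  -- derivative
  have hdP : P.map (PowerSeries.derivative K) = A' := by
    ext1 i j
    simp only [hP, hA', Matrix.map_apply, Matrix.add_apply, Matrix.smul_apply, smul_eq_mul, map_add,
      Derivation.leibniz, PowerSeries.derivative_X, PowerSeries.derivative_C, mul_zero, zero_add,
      mul_one]
    rw [Matrix.one_apply]
    split_ifs <;> simp
  have hdN : N.map (PowerSeries.derivative K) = -A' := by
    ext1 i j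
    simp only [hN, hA', Matrix.map_apply, Matrix.sub_apply, Matrix.smul_apply, smul_eq_mul, map_sub,
      Derivation.leibniz, PowerSeries.derivative_X, PowerSeries.derivative_C, mul_zero, zero_add,
      mul_one, Matrix.neg_apply]
    rw [Matrix.one_apply]
    split_ifs <;> simp
  have hd : (c * P).map (PowerSeries.derivative K) = N.map (PowerSeries.derivative K) := by rw [hc]
  rw [map_derivative_mul, hdP, hdN] at hd
  -- the tangent direction
  set Y : Matrix (Fin n) (Fin n) (PowerSeries K) := (-2 : PowerSeries K) • (A' * (P⁻¹ * N⁻¹)) with hY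
  have hPP : P * P⁻¹ = 1 := Matrix.mul_nonsing_inv _ hPu
  have hPP' : P⁻¹ * P = 1 := Matrix.nonsing_inv_mul _ hPu
  have hNN : N * N⁻¹ = 1 := Matrix.mul_nonsing_inv _ hNu
  have hNN' : N⁻¹ * N = 1 := Matrix.nonsing_inv_mul _ hNu
  have hcN : c = N * P⁻¹ := by
    rw [← hc, Matrix.mul_assoc, hPP, Matrix.mul_one]
  have hAPi : A' * P⁻¹ = P⁻¹ * A' := by
    calc A' * P⁻¹ = P⁻¹ * P * (A' * P⁻¹) := by rw [hPP', Matrix.one_mul]
      _ = P⁻¹ * (P * A') * P⁻¹ := by simp only [Matrix.mul_assoc]
      _ = P⁻¹ * (A' * P) * P⁻¹ := by rw [hAP]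
      _ = P⁻¹ * A' * (P * P⁻¹) := by simp only [Matrix.mul_assoc]
      _ = P⁻¹ * A' := by rw [hPP, Matrix.mul_one]
  have hNPi : N * P⁻¹ = P⁻¹ * N := by
    calc N * P⁻¹ = P⁻¹ * P * (N * P⁻¹) := by rw [hPP', Matrix.one_mul]
      _ = P⁻¹ * (P * N) * P⁻¹ := by simp only [Matrix.mul_assoc]
      _ = P⁻¹ * (N * P) * P⁻¹ := by rw [hPN]
      _ = P⁻¹ * N * (P * P⁻¹) := by simp only [Matrix.mul_assoc]
      _ = P⁻¹ * N := by rw [hPP, Matrix.mul_one]
  have hANi : A' * N⁻¹ = N⁻¹ * A' := by
    calc A' * N⁻¹ = N⁻¹ * N * (A' * N⁻¹) := by rw [hNN', Matrix.one_mul]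
      _ = N⁻¹ * (N * A') * N⁻¹ := by simp only [Matrix.mul_assoc]
      _ = N⁻¹ * (A' * N) * N⁻¹ := by rw [hAN]
      _ = N⁻¹ * A' * (N * N⁻¹) := by simp only [Matrix.mul_assoc]
      _ = N⁻¹ * A' := by rw [hNN, Matrix.mul_one]
  have hPNi : P⁻¹ * N⁻¹ = N⁻¹ * P⁻¹ := by
    rw [← Matrix.mul_inv_rev, ← Matrix.mul_inv_rev, hPN]
  -- `c + 1 = 2 P⁻¹`
  have hc1 : c + 1 = (2 : PowerSeries K) • P⁻¹ := by
    have : (c + 1) * P = (2 : PowerSeries K) • (1 : Matrix (Fin n) (Fin n) (PowerSeries K)) := by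
      rw [Matrix.add_mul, Matrix.one_mul, hc, hN, hP]
      rw [two_smul]
      abel
    calc c + 1 = (c + 1) * P * P⁻¹ := by rw [Matrix.mul_assoc, hPP, Matrix.mul_one]
      _ = _ := by rw [this, Matrix.smul_mul, Matrix.one_mul]
  have hcd : c.map (PowerSeries.derivative K) = c * Y := by
    have e1 : c.map (PowerSeries.derivative K) * P = -((c + 1) * A') := by
      rw [Matrix.add_mul, Matrix.one_mul]
      rw [eq_neg_iff_add_eq_zero]
      rw [show c.map (PowerSeries.derivative K) * P + (c * A' + A') =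
        (c.map (PowerSeries.derivative K) * P + c * A') + A' by abel, hd]
      abel
    have e2 : c.map (PowerSeries.derivative K) = -((c + 1) * A') * P⁻¹ := by
      rw [← e1, Matrix.mul_assoc, hPP, Matrix.mul_one]
    rw [e2, hc1, hcN, hY]
    rw [Matrix.smul_mul, Matrix.mul_smul]
    have e3 : N * P⁻¹ * (A' * (P⁻¹ * N⁻¹)) = P⁻¹ * A' * P⁻¹ := by
      calc N * P⁻¹ * (A' * (P⁻¹ * N⁻¹)) = N * (P⁻¹ * (A' * (P⁻¹ * N⁻¹))) := by
            rw [Matrix.mul_assoc]
        _ = N * (P⁻¹ * (A' * (N⁻¹ * P⁻¹))) := by rw [hPNi]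
        _ = N * (P⁻¹ * (A' * N⁻¹)) * P⁻¹ := by simp only [Matrix.mul_assoc]
        _ = N * (P⁻¹ * (N⁻¹ * A')) * P⁻¹ := by rw [hANi]
        _ = N * (P⁻¹ * N⁻¹) * A' * P⁻¹ := by simp only [Matrix.mul_assoc]
        _ = N * (N⁻¹ * P⁻¹) * A' * P⁻¹ := by rw [hPNi]
        _ = N * N⁻¹ * (P⁻¹ * A' * P⁻¹) := by simp only [Matrix.mul_assoc]
        _ = P⁻¹ * A' * P⁻¹ := by rw [hNN, Matrix.one_mul]
    rw [e3]
    simp only [neg_smul, Matrix.neg_mul, Matrix.smul_mul]
  -- `Y` is an infinitesimal isometry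
  set ψ' : Matrix (Fin n) (Fin n) (PowerSeries K) := ψ.map (algebraMap K₀ (PowerSeries K)) with hψ'
  have hψ'' : ψ' = (ψ.map (algebraMap K₀ K)).map (PowerSeries.C (R := K)) := by
    rw [hψ']
    ext1 i j
    simp only [Matrix.map_apply]
    rw [IsScalarTower.algebraMap_apply K₀ K (PowerSeries K)]
    rfl
  have hA2 : A'.transpose * ψ' + ψ' * A' = 0 := by
    have : (A.transpose * ψ.map (algebraMap K₀ K) + ψ.map (algebraMap K₀ K) * A).map
      (PowerSeries.C (R := K)) = (0 : Matrix (Fin n) (Fin n) K).map (PowerSeries.C (R := K)) := by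
      rw [hA]
    rw [Matrix.map_add _ (map_add _), Matrix.map_mul, Matrix.map_mul, ← hψ'', Matrix.transpose_map,
      ← hA', Matrix.map_zero _ (map_zero _)] at this
    exact this
  have hA3 : A'.transpose * ψ' = -(ψ' * A') := eq_neg_of_add_eq_zero_left hA2
  have hPψ : P.transpose * ψ' = ψ' * N := by
    rw [hP, hN, Matrix.transpose_add, Matrix.transpose_one, Matrix.transpose_smul, Matrix.add_mul,
      Matrix.one_mul, Matrix.smul_mul, hA3, Matrix.mul_sub, Matrix.mul_one, Matrix.mul_smul]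
    rw [smul_neg, sub_eq_add_neg]
  have hNψ : N.transpose * ψ' = ψ' * P := by
    rw [hP, hN, Matrix.transpose_sub, Matrix.transpose_one, Matrix.transpose_smul, Matrix.sub_mul,
      Matrix.one_mul, Matrix.smul_mul, hA3, Matrix.mul_add, Matrix.mul_one, Matrix.mul_smul]
    rw [smul_neg, sub_neg_eq_add]
  have hPψi : P⁻¹.transpose * ψ' = ψ' * N⁻¹ := by
    have e : P⁻¹.transpose * P.transpose = 1 := by
      rw [← Matrix.transpose_mul, hPP, Matrix.transpose_one]
    calc P⁻¹.transpose * ψ' = P⁻¹.transpose * (ψ' * N) * N⁻¹ := by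
          rw [Matrix.mul_assoc, Matrix.mul_assoc, hNN, Matrix.mul_one]
      _ = P⁻¹.transpose * (P.transpose * ψ') * N⁻¹ := by rw [hPψ]
      _ = P⁻¹.transpose * P.transpose * ψ' * N⁻¹ := by simp only [Matrix.mul_assoc]
      _ = ψ' * N⁻¹ := by rw [e, Matrix.one_mul]
  have hNψi : N⁻¹.transpose * ψ' = ψ' * P⁻¹ := by
    have e : N⁻¹.transpose * N.transpose = 1 := by
      rw [← Matrix.transpose_mul, hNN, Matrix.transpose_one]
    calc N⁻¹.transpose * ψ' = N⁻¹.transpose * (ψ' * P) * P⁻¹ := by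
          rw [Matrix.mul_assoc, Matrix.mul_assoc, hPP, Matrix.mul_one]
      _ = N⁻¹.transpose * (N.transpose * ψ') * P⁻¹ := by rw [hNψ]
      _ = N⁻¹.transpose * N.transpose * ψ' * P⁻¹ := by simp only [Matrix.mul_assoc]
      _ = ψ' * P⁻¹ := by rw [e, Matrix.one_mul]
  have hYψ : Y.transpose * ψ' + ψ' * Y = 0 := by
    have e1 : Y.transpose = (-2 : PowerSeries K) • (N⁻¹.transpose * (P⁻¹.transpose * A'.transpose)) := by
      rw [hY, Matrix.transpose_smul, Matrix.transpose_mul, Matrix.transpose_mul, Matrix.mul_assoc]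
    have e2 : N⁻¹.transpose * (P⁻¹.transpose * A'.transpose) * ψ' = -(ψ' * (A' * (P⁻¹ * N⁻¹))) := by
      calc N⁻¹.transpose * (P⁻¹.transpose * A'.transpose) * ψ'
          = N⁻¹.transpose * (P⁻¹.transpose * (A'.transpose * ψ')) := by simp only [Matrix.mul_assoc]
        _ = -(N⁻¹.transpose * (P⁻¹.transpose * ψ') * A') := by
            rw [hA3]; simp only [Matrix.mul_assoc, Matrix.mul_neg]
        _ = -(N⁻¹.transpose * ψ' * N⁻¹ * A') := by rw [hPψi]; simp only [Matrix.mul_assoc]
        _ = -(ψ' * (P⁻¹ * (N⁻¹ * A'))) := by rw [hNψi]; simp only [Matrix.mul_assoc]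
        _ = -(ψ' * (P⁻¹ * A' * N⁻¹)) := by rw [← hANi]; simp only [Matrix.mul_assoc]
        _ = -(ψ' * (A' * (P⁻¹ * N⁻¹))) := by rw [← hAPi]; simp only [Matrix.mul_assoc]
    rw [e1, Matrix.smul_mul, e2, hY, Matrix.mul_smul, smul_neg, neg_add_cancel]
  have hdec := infinitesimal_decomp (K₀ := K₀) h2 ε hε ψ hψ hs Y hYψ
  refine ode_vanish I (fun a : Fin n × Fin n =>
    ψ⁻¹ * (Matrix.single a.1 a.2 1 - ε • Matrix.single a.2 a.1 1))
    (fun a => hL _ (generator_mem ε hε ψ hψ hs a.1 a.2)) c
    (fun a => algebraMap K₀ (PowerSeries K) (2⁻¹) * (ψ.map (algebraMap K₀ (PowerSeries K)) * Y) a.1 a.2)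
    ?_ ?_
  · intro i j
    have e1 : PowerSeries.derivative K (c i j) = (c * Y) i j := by
      rw [← hcd, Matrix.map_apply]
    rw [e1]
    conv_lhs => rw [hdec]
    rw [Matrix.mul_sum, Matrix.sum_apply]
    refine Finset.sum_congr rfl fun a _ => ?_
    rw [Matrix.mul_smul, Matrix.smul_apply, smul_eq_mul]
  · intro f hf
    rw [ev_map (K₀ := K₀) (PowerSeries.constantCoeff (R := K)) (fun a => by
      rw [IsScalarTower.algebraMap_apply K₀ K (PowerSeries K)]
      exact PowerSeries.constantCoeff_C _) c f]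
    have e1 : c.map (PowerSeries.constantCoeff (R := K)) = 1 := by
      have : (c * P).map (PowerSeries.constantCoeff (R := K)) =
        N.map (PowerSeries.constantCoeff (R := K)) := by rw [hc]
      rw [Matrix.map_mul, hPc, hNc, Matrix.mul_one] at this
      exact this
    rw [e1]
    exact h1 f hf

/-- the vanishing ideal at the Cayley transform -/
theorem cayley_vanish (h2 : (2 : K₀) ≠ 0) (ε : K₀) (hε : ε * ε = 1)
    (ψ : Matrix (Fin n) (Fin n) K₀) (hψ : IsUnit ψ.det) (hs : ψ.transpose = ε • ψ)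
    (I : Set (MvPolynomial (Fin n × Fin n) K₀))
    (h1 : ∀ f ∈ I, ev (1 : Matrix (Fin n) (Fin n) K) f = 0)
    (hL : ∀ M : Matrix (Fin n) (Fin n) K₀, M.transpose * ψ + ψ * M = 0 → ∀ f ∈ I, ldv M f ∈ I)
    (A : Matrix (Fin n) (Fin n) K)
    (hA : A.transpose * ψ.map (algebraMap K₀ K) + ψ.map (algebraMap K₀ K) * A = 0)
    (hdet : (1 + A).det ≠ 0) (g : Matrix (Fin n) (Fin n) K) (hg : g * (1 + A) = 1 - A) :
    ∀ f ∈ I, ev g f = 0 := by
  intro f hf
  set A₀ : Matrix (Fin n) (Fin n) (Polynomial K) := A.map (Polynomial.C (R := K)) with hA₀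
  set P : Matrix (Fin n) (Fin n) (Polynomial K) := 1 + (Polynomial.X : Polynomial K) • A₀ with hP
  set N : Matrix (Fin n) (Fin n) (Polynomial K) := 1 - (Polynomial.X : Polynomial K) • A₀ with hN
  set D : Polynomial K := P.det with hD
  have hmapP : ∀ {R : Type _} [CommRing R] (φ : Polynomial K →+* R),
      P.map φ = 1 + φ Polynomial.X • A₀.map φ := by
    intro R _ φ
    ext i j
    simp only [hP, Matrix.map_apply, Matrix.add_apply, Matrix.smul_apply, smul_eq_mul, map_add,
      map_mul]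
    rw [Matrix.one_apply, Matrix.one_apply]
    split_ifs <;> simp
  have hmapN : ∀ {R : Type _} [CommRing R] (φ : Polynomial K →+* R),
      N.map φ = 1 - φ Polynomial.X • A₀.map φ := by
    intro R _ φ
    ext i j
    simp only [hN, Matrix.map_apply, Matrix.sub_apply, Matrix.smul_apply, smul_eq_mul, map_sub,
      map_mul]
    rw [Matrix.one_apply, Matrix.one_apply]
    split_ifs <;> simp
  let L := Localization.Away D
  let α : Polynomial K →+* L := algebraMap (Polynomial K) L
  have hDu : IsUnit (α D) := IsLocalization.Away.algebraMap_isUnit D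
  have hPu : IsUnit (P.map α).det := by
    have : (P.map α).det = α D := (RingHom.map_det α P).symm
    rw [this]; exact hDu
  let c : Matrix (Fin n) (Fin n) L := N.map α * (P.map α)⁻¹
  have hc : c * P.map α = N.map α := by
    change N.map α * (P.map α)⁻¹ * P.map α = N.map α
    rw [Matrix.mul_assoc, Matrix.nonsing_inv_mul _ hPu, Matrix.mul_one]
  -- the homomorphism to the power series
  let β : Polynomial K →+* PowerSeries K := Polynomial.coeToPowerSeries.ringHom
  have hβinj : Function.Injective β := Polynomial.coe_injective K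
  have hβD : IsUnit (β D) := by
    have h3 : β D = (P.map β).det := by rw [hD, RingHom.map_det, RingHom.mapMatrix_apply]
    rw [h3, PowerSeries.isUnit_iff_constantCoeff, RingHom.map_det, RingHom.mapMatrix_apply]
    have h4 : (P.map β).map (PowerSeries.constantCoeff (R := K)) = 1 := by
      rw [hmapP β]
      ext i j
      simp only [Matrix.map_apply, Matrix.add_apply, Matrix.smul_apply, smul_eq_mul, map_add,
        map_mul]
      have : PowerSeries.constantCoeff (R := K) (β Polynomial.X) = 0 := by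
        simp [β]
      rw [this, zero_mul, add_zero, Matrix.one_apply, Matrix.one_apply]
      split_ifs <;> simp
    rw [h4, Matrix.det_one]
    exact isUnit_one
  let φ₁ : L →+* PowerSeries K := IsLocalization.Away.lift (S := L) D hβD
  have hφ₁ : ∀ q, φ₁ (α q) = β q := fun q => IsLocalization.Away.lift_eq D hβD q
  have hφ₁inj : Function.Injective φ₁ := by
    rw [injective_iff_map_eq_zero]
    intro x hx
    obtain ⟨m, a, ha⟩ := IsLocalization.Away.surj D x
    have h3 : β a = 0 := by
      rw [← hφ₁, ← ha, map_mul, hx, zero_mul]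
    have h4 : a = 0 := hβinj (by rw [h3, map_zero])
    rw [h4, map_zero] at ha
    exact (hDu.pow m).mul_left_eq_zero.mp ha
  -- the homomorphism to `K`
  let γ : Polynomial K →+* K := Polynomial.evalRingHom 1
  have hAγ : A₀.map γ = A := by
    ext i j
    simp [hA₀, γ]
  have hPγ : P.map γ = 1 + A := by
    rw [hmapP γ, hAγ]
    simp [γ]
  have hNγ : N.map γ = 1 - A := by
    rw [hmapN γ, hAγ]
    simp [γ]
  have hγD : IsUnit (γ D) := by
    have h3 : γ D = (P.map γ).det := by rw [hD, RingHom.map_det, RingHom.mapMatrix_apply]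
    rw [h3, hPγ]
    exact isUnit_iff_ne_zero.mpr hdet
  let φ₂ : L →+* K := IsLocalization.Away.lift (S := L) D hγD
  have hφ₂ : ∀ q, φ₂ (α q) = γ q := fun q => IsLocalization.Away.lift_eq D hγD q
  -- the constants
  have hK₀ : ∀ a : K₀, algebraMap K₀ L a = α (Polynomial.C (algebraMap K₀ K a)) := by
    intro a
    rw [IsScalarTower.algebraMap_apply K₀ (Polynomial K) L]
    rfl
  have hconst1 : ∀ a : K₀, φ₁ (algebraMap K₀ L a) = algebraMap K₀ (PowerSeries K) a := by
    intro a
    rw [hK₀, hφ₁, IsScalarTower.algebraMap_apply K₀ K (PowerSeries K)]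
    exact Polynomial.coe_C _
  have hconst2 : ∀ a : K₀, φ₂ (algebraMap K₀ L a) = algebraMap K₀ K a := by
    intro a
    rw [hK₀, hφ₂]
    simp [γ]
  have hz : ev c f = 0 := by
    apply hφ₁inj
    rw [map_zero, ev_map φ₁ hconst1]
    refine cayley_curve h2 ε hε ψ hψ hs I h1 hL A hA (c.map φ₁) ?_ f hf
    have h3 : (c * P.map α).map φ₁ = (N.map α).map φ₁ := by rw [hc]
    rw [Matrix.map_mul] at h3
    have h4 : (P.map α).map φ₁ = P.map β := by
      ext1 i j; simp only [Matrix.map_apply, hφ₁]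
    have h5 : (N.map α).map φ₁ = N.map β := by
      ext1 i j; simp only [Matrix.map_apply, hφ₁]
    have h6 : A₀.map β = A.map (PowerSeries.C (R := K)) := by
      ext1 i j
      simp only [Matrix.map_apply, hA₀]
      exact Polynomial.coe_C _
    have h7 : β Polynomial.X = (PowerSeries.X : PowerSeries K) := Polynomial.coe_X
    rw [h4, h5, hmapP β, hmapN β, h6, h7] at h3
    exact h3
  have hfin : ev (c.map φ₂) f = 0 := by
    rw [← ev_map φ₂ hconst2, hz, map_zero]
  have hcg : c.map φ₂ = g := by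
    have h3 : (c * P.map α).map φ₂ = (N.map α).map φ₂ := by rw [hc]
    rw [Matrix.map_mul] at h3
    have h4 : (P.map α).map φ₂ = 1 + A := by
      rw [← hPγ]
      ext1 i j; simp only [Matrix.map_apply, hφ₂]
    have h5 : (N.map α).map φ₂ = 1 - A := by
      rw [← hNγ]
      ext1 i j; simp only [Matrix.map_apply, hφ₂]
    rw [h4, h5, ← hg] at h3
    have hu : IsUnit (1 + A).det := isUnit_iff_ne_zero.mpr hdet
    calc c.map φ₂ = c.map φ₂ * (1 + A) * (1 + A)⁻¹ := by
          rw [Matrix.mul_assoc, Matrix.mul_nonsing_inv _ hu, Matrix.mul_one]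
      _ = g * (1 + A) * (1 + A)⁻¹ := by rw [h3]
      _ = g := by rw [Matrix.mul_assoc, Matrix.mul_nonsing_inv _ hu, Matrix.mul_one]
  rw [← hcg]
  exact hfin

/-- every isometry without the eigenvalue `-1` satisfies the equations -/
theorem isometry_vanish (h2 : (2 : K₀) ≠ 0) (ε : K₀) (hε : ε * ε = 1)
    (ψ : Matrix (Fin n) (Fin n) K₀) (hψ : IsUnit ψ.det) (hs : ψ.transpose = ε • ψ)
    (I : Set (MvPolynomial (Fin n × Fin n) K₀))
    (h1 : ∀ f ∈ I, ev (1 : Matrix (Fin n) (Fin n) K) f = 0)
    (hL : ∀ M : Matrix (Fin n) (Fin n) K₀, M.transpose * ψ + ψ * M = 0 → ∀ f ∈ I, ldv M f ∈ I)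
    (g : Matrix (Fin n) (Fin n) K)
    (hg : g.transpose * ψ.map (algebraMap K₀ K) * g = ψ.map (algebraMap K₀ K))
    (hdet : (1 + g).det ≠ 0) : ∀ f ∈ I, ev g f = 0 := by
  set ψ' := ψ.map (algebraMap K₀ K) with hψ'
  have hu : IsUnit (1 + g).det := isUnit_iff_ne_zero.mpr hdet
  set u := (1 + g)⁻¹ with hu'
  have hgu : (1 + g) * u = 1 := Matrix.mul_nonsing_inv _ hu
  have hug : u * (1 + g) = 1 := Matrix.nonsing_inv_mul _ hu
  set A := (1 - g) * u with hA
  have hAg : A * (1 + g) = 1 - g := by rw [hA, Matrix.mul_assoc, hug, Matrix.mul_one]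
  have h1A : 1 + A = (2 : K) • u := by
    have : (1 + A) * (1 + g) = (2 : K) • (1 : Matrix (Fin n) (Fin n) K) := by
      rw [Matrix.add_mul, hAg, Matrix.one_mul, two_smul]; abel
    calc 1 + A = (1 + A) * (1 + g) * u := by rw [Matrix.mul_assoc, hgu, Matrix.mul_one]
      _ = (2 : K) • u := by rw [this, Matrix.smul_mul, Matrix.one_mul]
  have h1A' : 1 - A = (2 : K) • (g * u) := by
    have : (1 - A) * (1 + g) = (2 : K) • g := by
      rw [Matrix.sub_mul, hAg, Matrix.one_mul, two_smul]; abel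
    calc 1 - A = (1 - A) * (1 + g) * u := by rw [Matrix.mul_assoc, hgu, Matrix.mul_one]
      _ = (2 : K) • (g * u) := by rw [this, Matrix.smul_mul]
  refine cayley_vanish h2 ε hε ψ hψ hs I h1 hL A ?_ ?_ g ?_
  · -- infinitesimal isometry
    have hAt : (1 + g).transpose * A.transpose = (1 - g).transpose := by
      rw [← Matrix.transpose_mul, hAg]
    have hX : (1 + g).transpose * (A.transpose * ψ' + ψ' * A) * (1 + g) = 0 := by
      calc (1 + g).transpose * (A.transpose * ψ' + ψ' * A) * (1 + g)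
          = (1 + g).transpose * A.transpose * ψ' * (1 + g) +
            (1 + g).transpose * ψ' * (A * (1 + g)) := by
              simp only [Matrix.mul_add, Matrix.add_mul, Matrix.mul_assoc]
              abel
        _ = (1 - g).transpose * ψ' * (1 + g) + (1 + g).transpose * ψ' * (1 - g) := by
              rw [hAt, hAg]
        _ = (2 : K) • (ψ' - g.transpose * ψ' * g) := by
              simp only [Matrix.transpose_sub, Matrix.transpose_add, Matrix.transpose_one,
                Matrix.sub_mul, Matrix.add_mul, Matrix.mul_sub, Matrix.mul_add, Matrix.one_mul,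
                Matrix.mul_one, two_smul]
              abel
        _ = 0 := by rw [hg, sub_self, smul_zero]
    have hut : u.transpose * (1 + g).transpose = 1 := by
      rw [← Matrix.transpose_mul, hgu, Matrix.transpose_one]
    calc A.transpose * ψ' + ψ' * A
        = u.transpose * (1 + g).transpose * (A.transpose * ψ' + ψ' * A) * ((1 + g) * u) := by
          rw [hut, hgu, Matrix.one_mul, Matrix.mul_one]
      _ = u.transpose * ((1 + g).transpose * (A.transpose * ψ' + ψ' * A) * (1 + g)) * u := by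
          simp only [Matrix.mul_assoc]
      _ = 0 := by rw [hX, Matrix.mul_zero, Matrix.zero_mul]
  · rw [h1A, Matrix.det_smul]
    refine mul_ne_zero (pow_ne_zero _ two_ne_zero) ?_
    intro h0
    have := congrArg Matrix.det hgu
    rw [Matrix.det_mul, h0, mul_zero, Matrix.det_one] at this
    exact zero_ne_one this
  · rw [h1A, h1A', Matrix.mul_smul]

end Cayley

end MT
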