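import Pool.Agent.Helper84.MT.Gsp

/-!
# The special orthogonal group is generated by the isometries without the eigenvalue `-1`
-/

set_option autoImplicit false
set_option maxHeartbeats 800000

namespace MT

variable {K : Type*} [Field K] {n : ℕ}

open Matrix

/-- the bilinear form of `ψ` -/
def bf (ψ : Matrix (Fin n) (Fin n) K) (x y : Fin n → K) : K := x ⬝ᵥ (ψ *ᵥ y)

theorem bf_add_left (ψ : Matrix (Fin n) (Fin n) K) (x y z : Fin n → K) :
    bf ψ (x + y) z = bf ψ x z + bf ψ y z := by simp [bf, add_dotProduct]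

theorem bf_smul_left (ψ : Matrix (Fin n) (Fin n) K) (a : K) (x z : Fin n → K) :
    bf ψ (a • x) z = a * bf ψ x z := by simp [bf]

theorem bf_add_right (ψ : Matrix (Fin n) (Fin n) K) (x y z : Fin n → K) :
    bf ψ x (y + z) = bf ψ x y + bf ψ x z := by simp [bf, Matrix.mulVec_add, dotProduct_add]

theorem bf_smul_right (ψ : Matrix (Fin n) (Fin n) K) (a : K) (x z : Fin n → K) :
    bf ψ x (a • z) = a * bf ψ x z := by simp [bf, Matrix.mulVec_smul]

theorem bf_symm {ψ : Matrix (Fin n) (Fin n) K} (hs : ψᵀ = ψ) (x y : Fin n → K) :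
    bf ψ x y = bf ψ y x := by
  unfold bf
  rw [Matrix.dotProduct_mulVec, dotProduct_comm, ← Matrix.mulVec_transpose, hs]

theorem isometry_iff (ψ g : Matrix (Fin n) (Fin n) K) :
    gᵀ * ψ * g = ψ ↔ ∀ x y, bf ψ (g *ᵥ x) (g *ᵥ y) = bf ψ x y := by
  have h : ∀ x y, bf ψ (g *ᵥ x) (g *ᵥ y) = bf (gᵀ * ψ * g) x y := by
    intro x y
    unfold bf
    rw [← Matrix.vecMul_transpose, ← Matrix.dotProduct_mulVec, Matrix.mulVec_mulVec,
      Matrix.mulVec_mulVec]
  constructor
  · intro hg x y
    rw [h, hg]
  · intro hg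
    ext i j
    have h1 := hg (Pi.single i 1) (Pi.single j 1)
    rw [h] at h1
    simpa [bf] using h1

/-- the reflection -/
noncomputable def refl (ψ : Matrix (Fin n) (Fin n) K) (u : Fin n → K) :
    Matrix (Fin n) (Fin n) K :=
  1 - (2 / bf ψ u u) • vecMulVec u (u ᵥ* ψ)

theorem refl_mulVec (ψ : Matrix (Fin n) (Fin n) K) (u x : Fin n → K) :
    refl ψ u *ᵥ x = x + (-(2 / bf ψ u u * bf ψ u x)) • u := by
  unfold refl
  rw [Matrix.sub_mulVec, Matrix.one_mulVec, Matrix.smul_mulVec, Matrix.vecMulVec_mulVec]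
  have : (u ᵥ* ψ) ⬝ᵥ x = bf ψ u x := by
    unfold bf
    rw [Matrix.dotProduct_mulVec]
  rw [this, neg_smul, ← sub_eq_add_neg, mul_smul]
  congr 2
  ext i
  simp [mul_comm]

theorem refl_isometry {ψ : Matrix (Fin n) (Fin n) K} (hs : ψᵀ = ψ) (u : Fin n → K)
    (hu : bf ψ u u ≠ 0) : (refl ψ u)ᵀ * ψ * refl ψ u = ψ := by
  rw [isometry_iff]
  intro x y
  rw [refl_mulVec, refl_mulVec]
  simp only [bf_add_left, bf_add_right, bf_smul_left, bf_smul_right]
  rw [bf_symm hs x u]
  field_simp
  ring

theorem refl_det {ψ : Matrix (Fin n) (Fin n) K} (u : Fin n → K) (hu : bf ψ u u ≠ 0) :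
    (refl ψ u).det = -1 := by
  have h1 : refl ψ u = 1 + replicateCol Unit (-(2 / bf ψ u u) • u) * replicateRow Unit (u ᵥ* ψ) := by
    unfold refl
    rw [sub_eq_add_neg]
    congr 1
    ext i j
    simp [Matrix.vecMulVec_apply, Matrix.mul_apply]
    ring
  rw [h1, det_one_add_replicateCol_mul_replicateRow, dotProduct_smul]
  have : (u ᵥ* ψ) ⬝ᵥ u = bf ψ u u := by
    unfold bf
    rw [Matrix.dotProduct_mulVec]
  rw [this, smul_eq_mul]
  field_simp
  norm_num

theorem refl_mul_self {ψ : Matrix (Fin n) (Fin n) K} (u : Fin n → K) (hu : bf ψ u u ≠ 0) :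
    refl ψ u * refl ψ u = 1 := by
  apply Matrix.ext_of_mulVec_single
  intro i
  rw [← Matrix.mulVec_mulVec, Matrix.one_mulVec, refl_mulVec, refl_mulVec]
  simp only [bf_add_right, bf_smul_right]
  rw [add_assoc, ← add_smul]
  have : -(2 / bf ψ u u * bf ψ u (Pi.single i 1)) +
      -(2 / bf ψ u u * (bf ψ u (Pi.single i 1) +
        -(2 / bf ψ u u * bf ψ u (Pi.single i 1)) * bf ψ u u)) = 0 := by
    field_simp
    ring
  rw [this, zero_smul, add_zero]

/-- a reflection which exchanges two vectors of the same length -/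
theorem refl_exchange [CharZero K] {ψ : Matrix (Fin n) (Fin n) K} (hs : ψᵀ = ψ) (x y : Fin n → K)
    (hq : bf ψ x x = bf ψ y y) (hu : bf ψ (y + (-1 : K) • x) (y + (-1 : K) • x) ≠ 0) :
    refl ψ (y + (-1 : K) • x) *ᵥ y = x := by
  rw [refl_mulVec]
  set d := bf ψ (y + (-1 : K) • x) (y + (-1 : K) • x) with hd
  have h1 : d = 2 * bf ψ (y + (-1 : K) • x) y := by
    rw [hd]
    simp only [bf_add_left, bf_add_right, bf_smul_left, bf_smul_right]
    rw [hq, bf_symm hs y x]
    ring
  have h2 : 2 / d * bf ψ (y + (-1 : K) • x) y = 1 := by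
    rw [div_mul_eq_mul_div, ← h1, div_self hu]
  rw [h2, smul_add, smul_smul]
  norm_num

section Gen

variable (ψ : Matrix (Fin n) (Fin n) K)

/-- the products of reflections -/
def ReflGen : Submonoid (Matrix (Fin n) (Fin n) K) :=
  Submonoid.closure {r | ∃ u, bf ψ u u ≠ 0 ∧ r = refl ψ u}

theorem refl_mem_gen (u : Fin n → K) (hu : bf ψ u u ≠ 0) : refl ψ u ∈ ReflGen ψ :=
  Submonoid.subset_closure ⟨u, hu, rfl⟩

variable [CharZero K]

theorem cartan_dieudonne_aux (hs : ψᵀ = ψ) (e : Fin n → (Fin n → K))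
    (hq : ∀ i, bf ψ (e i) (e i) ≠ 0) (ho : ∀ i j, i ≠ j → bf ψ (e i) (e j) = 0)
    (hspan : ∀ g : Matrix (Fin n) (Fin n) K, (∀ i, g *ᵥ e i = e i) → g = 1)
    (T : Finset (Fin n)) : ∀ g : Matrix (Fin n) (Fin n) K, gᵀ * ψ * g = ψ →
      (∀ i, i ∉ T → g *ᵥ e i = e i) → g ∈ ReflGen ψ := by
  classical
  induction T using Finset.induction_on with
  | empty =>
    intro g _ h
    rw [hspan g (fun i => h i (Finset.notMem_empty i))]
    exact one_mem _
  | insert j T hjT ih =>
    intro g hg h
    have hg' := (isometry_iff ψ g).mp hg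
    set x := e j with hx
    set y := g *ᵥ x with hy
    have hyq : bf ψ y y = bf ψ x x := hg' x x
    have hye : ∀ i, i ∉ insert j T → bf ψ y (e i) = 0 := by
      intro i hi
      have h1 := hg' x (e i)
      rw [h i hi] at h1
      rw [hy, h1, hx]
      exact ho j i (by rintro rfl; exact hi (Finset.mem_insert_self _ _))
    have hxe : ∀ i, i ∉ insert j T → bf ψ x (e i) = 0 := by
      intro i hi
      exact ho j i (by rintro rfl; exact hi (Finset.mem_insert_self _ _))
    -- a reflection in a combination of `x` and `y` fixes the other vectors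
    have hfix : ∀ a b : K, ∀ i, i ∉ insert j T →
        refl ψ (a • y + b • x) *ᵥ e i = e i := by
      intro a b i hi
      have h0 : bf ψ (a • y + b • x) (e i) = 0 := by
        rw [bf_add_left, bf_smul_left, bf_smul_left, hye i hi, hxe i hi]
        ring
      rw [refl_mulVec, h0]
      simp
    by_cases hd : bf ψ (y + (-1 : K) • x) (y + (-1 : K) • x) ≠ 0
    · have h1 := refl_exchange hs x y hyq.symm hd
      set r := refl ψ (y + (-1 : K) • x) with hr
      have h2 : r * g ∈ ReflGen ψ := by
        apply ih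
        · exact isometry_mul (refl_isometry hs _ hd) hg
        · intro i hi
          by_cases hij : i = j
          · subst hij
            rw [← Matrix.mulVec_mulVec, ← hx, ← hy]
            exact h1
          · have hi' : i ∉ insert j T := by
              simp only [Finset.mem_insert, not_or]
              exact ⟨hij, hi⟩
            rw [← Matrix.mulVec_mulVec, h i hi']
            have := hfix 1 (-1) i hi'
            rw [one_smul] at this
            exact this
      have h3 : g = r * (r * g) := by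
        rw [← Matrix.mul_assoc, refl_mul_self _ hd, Matrix.one_mul]
      rw [h3]
      exact mul_mem (refl_mem_gen ψ _ hd) h2
    · rw [not_not] at hd
      have hd' : bf ψ (y + (-1 : K) • ((-1 : K) • x)) (y + (-1 : K) • ((-1 : K) • x)) ≠ 0 := by
        have e1 : bf ψ (y + (-1 : K) • ((-1 : K) • x)) (y + (-1 : K) • ((-1 : K) • x)) +
            bf ψ (y + (-1 : K) • x) (y + (-1 : K) • x) = 4 * bf ψ x x := by
          simp only [bf_add_left, bf_add_right, bf_smul_left, bf_smul_right, hyq]
          ring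
        rw [hd, add_zero] at e1
        rw [e1]
        exact mul_ne_zero (by norm_num) (hq j)
      have hq2 : bf ψ ((-1 : K) • x) ((-1 : K) • x) = bf ψ y y := by
        simp only [bf_smul_left, bf_smul_right, hyq]
        ring
      have h1 := refl_exchange hs ((-1 : K) • x) y hq2 hd'
      set u := y + (-1 : K) • ((-1 : K) • x) with hu
      have hux : u = (1 : K) • y + (1 : K) • x := by
        rw [hu, smul_smul]; simp
      have h4 : refl ψ x *ᵥ ((-1 : K) • x) = x := by
        rw [refl_mulVec, bf_smul_right]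
        have : -(2 / bf ψ x x * (-1 * bf ψ x x)) = 2 := by
          have hqx : bf ψ x x ≠ 0 := hq j
          field_simp
        rw [this, ← add_smul]
        norm_num
      have h2 : refl ψ x * (refl ψ u * g) ∈ ReflGen ψ := by
        apply ih
        · exact isometry_mul (refl_isometry hs _ (hq j)) (isometry_mul (refl_isometry hs _ hd') hg)
        · intro i hi
          by_cases hij : i = j
          · subst hij
            rw [← Matrix.mulVec_mulVec, ← Matrix.mulVec_mulVec, ← hx, ← hy, h1, h4]
          · have hi' : i ∉ insert j T := by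
              simp only [Finset.mem_insert, not_or]
              exact ⟨hij, hi⟩
            rw [← Matrix.mulVec_mulVec, ← Matrix.mulVec_mulVec, h i hi', hux, hfix 1 1 i hi']
            have := hfix 0 1 i hi'
            rw [zero_smul, zero_add, one_smul] at this
            exact this
      have h3 : g = refl ψ u * (refl ψ x * (refl ψ x * (refl ψ u * g))) := by
        rw [← Matrix.mul_assoc (refl ψ x) (refl ψ x), refl_mul_self _ (hq j), Matrix.one_mul,
          ← Matrix.mul_assoc, refl_mul_self _ hd', Matrix.one_mul]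
      rw [h3]
      exact mul_mem (refl_mem_gen ψ _ hd') (mul_mem (refl_mem_gen ψ _ (hq j)) h2)

/-- Cartan-Dieudonné -/
theorem cartan_dieudonne (hψ : IsUnit ψ.det) (hs : ψᵀ = ψ) (g : Matrix (Fin n) (Fin n) K)
    (hg : gᵀ * ψ * g = ψ) : g ∈ ReflGen ψ := by
  classical
  have hinv : Invertible (2 : K) := invertibleOfNonzero two_ne_zero
  let B : LinearMap.BilinForm K (Fin n → K) := Matrix.toBilin' ψ
  have hBa : ∀ x y, B x y = bf ψ x y := fun x y => Matrix.toBilin'_apply' ψ x y
  have hBs : LinearMap.IsSymm B := by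
    constructor
    intro x y
    change B x y = B y x
    rw [hBa, hBa, bf_symm hs]
  obtain ⟨v, hv⟩ := LinearMap.BilinForm.exists_orthogonal_basis hBs
  have hfr : Module.finrank K (Fin n → K) = n := by simp
  let b : Module.Basis (Fin n) K (Fin n → K) := v.reindex (finCongr hfr)
  have ho : ∀ i j, i ≠ j → bf ψ (b i) (b j) = 0 := by
    intro i j hij
    rw [← hBa]
    simp only [b, Module.Basis.reindex_apply]
    exact hv (fun h => hij ((finCongr hfr).symm.injective h))
  have hq : ∀ i, bf ψ (b i) (b i) ≠ 0 := by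
    intro i h0
    have h1 : ∀ j, bf ψ (b j) (b i) = 0 := by
      intro j
      by_cases hij : j = i
      · rw [hij, h0]
      · exact ho j i hij
    have h2 : ∀ x, bf ψ x (b i) = 0 := by
      intro x
      have h3 : B.flip (b i) = 0 := by
        apply b.ext
        intro j
        simp only [LinearMap.zero_apply]
        change B (b j) (b i) = 0
        rw [hBa, h1]
      have h4 := LinearMap.congr_fun h3 x
      rw [← hBa]
      exact h4
    have h5 : ψ *ᵥ b i = 0 := by
      funext k
      have := h2 (Pi.single k 1)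
      simpa [bf] using this
    have h6 : b i = 0 := by
      have : ψ⁻¹ *ᵥ (ψ *ᵥ b i) = 0 := by rw [h5, Matrix.mulVec_zero]
      rw [Matrix.mulVec_mulVec, Matrix.nonsing_inv_mul _ hψ, Matrix.one_mulVec] at this
      exact this
    exact b.ne_zero i h6
  refine cartan_dieudonne_aux ψ hs b hq ho ?_ Finset.univ g hg
    (fun i hi => absurd (Finset.mem_univ i) hi)
  intro h hh
  have h1 : h.mulVecLin = LinearMap.id := by
    apply b.ext
    intro i
    rw [Matrix.mulVecLin_apply, hh, LinearMap.id_apply]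
  have h2 := congrArg LinearMap.toMatrix' h1
  rw [LinearMap.toMatrix'_id] at h2
  rw [← h2]
  exact (LinearMap.toMatrix'_toLin' h).symm

/-- the product of two reflections in vectors which are not orthogonal -/
theorem refl_mul_refl_det (hs : ψᵀ = ψ) (u v : Fin n → K) (hu : bf ψ u u ≠ 0)
    (hv : bf ψ v v ≠ 0) (huv : bf ψ u v ≠ 0) : (1 + refl ψ u * refl ψ v).det ≠ 0 := by
  intro h0
  obtain ⟨x, hx0, hx⟩ := Matrix.exists_mulVec_eq_zero_iff.mpr h0
  apply hx0
  rw [Matrix.add_mulVec, Matrix.one_mulVec, ← Matrix.mulVec_mulVec] at hx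
  -- apply `refl u`
  have h1 : refl ψ u *ᵥ x + refl ψ v *ᵥ x = 0 := by
    have h2 := congrArg (fun z => refl ψ u *ᵥ z) hx
    simp only [Matrix.mulVec_add, Matrix.mulVec_zero] at h2
    rw [Matrix.mulVec_mulVec (refl ψ v *ᵥ x), refl_mul_self _ hu, Matrix.one_mulVec] at h2
    exact h2
  rw [refl_mulVec, refl_mulVec] at h1
  set a := bf ψ u x / bf ψ u u with ha
  set b := bf ψ v x / bf ψ v v with hb
  have h3 : x = a • u + b • v := by
    have h4 : (2 : K) • x = (2 : K) • (a • u + b • v) := by
      have e1 : 2 / bf ψ u u * bf ψ u x = 2 * a := by rw [ha]; ring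
      have e2 : 2 / bf ψ v v * bf ψ v x = 2 * b := by rw [hb]; ring
      rw [e1, e2] at h1
      rw [← sub_eq_zero, ← h1]
      simp only [two_smul, smul_add, neg_smul, mul_smul]
      abel
    exact smul_right_injective _ (two_ne_zero (α := K)) h4
  have h5 : bf ψ u x = a * bf ψ u u := by rw [ha]; field_simp
  have h6 : bf ψ v x = b * bf ψ v v := by rw [hb]; field_simp
  have h7 : bf ψ u x = a * bf ψ u u + b * bf ψ u v := by
    conv_lhs => rw [h3]
    simp only [bf_add_right, bf_smul_right]
  have h8 : bf ψ v x = a * bf ψ v u + b * bf ψ v v := by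
    conv_lhs => rw [h3]
    simp only [bf_add_right, bf_smul_right]
  have hb0 : b = 0 := by
    rw [h5] at h7
    have : b * bf ψ u v = 0 := by linear_combination -h7
    exact (mul_eq_zero.mp this).resolve_right huv
  have ha0 : a = 0 := by
    rw [h6] at h8
    have : a * bf ψ v u = 0 := by linear_combination -h8
    rw [bf_symm hs] at huv
    exact (mul_eq_zero.mp this).resolve_right huv
  rw [h3, ha0, hb0]
  simp

/-- GSO: a set of matrices closed under products, which contains all isometries without the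
eigenvalue `-1`, contains the special orthogonal group -/
theorem special_orthogonal (hψ : IsUnit ψ.det) (hs : ψᵀ = ψ) (Z : Set (Matrix (Fin n) (Fin n) K))
    (hmul : ∀ a ∈ Z, ∀ b ∈ Z, a * b ∈ Z)
    (hZ : ∀ s : Matrix (Fin n) (Fin n) K, sᵀ * ψ * s = ψ → (1 + s).det ≠ 0 → s ∈ Z)
    (g : Matrix (Fin n) (Fin n) K) (hg : gᵀ * ψ * g = ψ) (hdet : g.det = 1) : g ∈ Z := by
  have h1Z : (1 : Matrix (Fin n) (Fin n) K) ∈ Z := by
    apply hZ
    · simp
    · have : (1 + 1 : Matrix (Fin n) (Fin n) K) = (2 : K) • 1 := by rw [two_smul]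
      rw [this, Matrix.det_smul, Matrix.det_one, mul_one]
      exact pow_ne_zero _ two_ne_zero
  have hpair0 : ∀ u v : Fin n → K, bf ψ u u ≠ 0 → bf ψ v v ≠ 0 → bf ψ u v ≠ 0 →
      refl ψ u * refl ψ v ∈ Z := by
    intro u v hu hv huv
    exact hZ _ (isometry_mul (refl_isometry hs u hu) (refl_isometry hs v hv))
      (refl_mul_refl_det ψ hs u v hu hv huv)
  have hpair : ∀ u v : Fin n → K, bf ψ u u ≠ 0 → bf ψ v v ≠ 0 → refl ψ u * refl ψ v ∈ Z := by
    intro u v hu hv
    by_cases huv : bf ψ u v ≠ 0
    · exact hpair0 u v hu hv huv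
    · rw [not_not] at huv
      have hvu : bf ψ v u = 0 := by rw [bf_symm hs, huv]
      -- the intermediate vector
      obtain ⟨w, hw, huw, hwv⟩ : ∃ w : Fin n → K, bf ψ w w ≠ 0 ∧ bf ψ u w ≠ 0 ∧ bf ψ w v ≠ 0 := by
        by_cases hsum : bf ψ u u + bf ψ v v ≠ 0
        · refine ⟨u + v, ?_, ?_, ?_⟩
          · simp only [bf_add_left, bf_add_right, huv, hvu]
            simpa using hsum
          · rw [bf_add_right, huv, add_zero]; exact hu
          · rw [bf_add_left, huv, zero_add]; exact hv
        · rw [not_not] at hsum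
          refine ⟨u + (2 : K) • v, ?_, ?_, ?_⟩
          · simp only [bf_add_left, bf_add_right, bf_smul_left, bf_smul_right, huv, hvu]
            have : bf ψ u u = -bf ψ v v := eq_neg_of_add_eq_zero_left hsum
            rw [this]
            have h3 : -bf ψ v v + 2 * 0 + 2 * (0 + 2 * bf ψ v v) = 3 * bf ψ v v := by ring
            rw [h3]
            exact mul_ne_zero (by norm_num) hv
          · rw [bf_add_right, bf_smul_right, huv, mul_zero, add_zero]; exact hu
          · rw [bf_add_left, bf_smul_left, huv, zero_add]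
            exact mul_ne_zero two_ne_zero hv
      have h2 : refl ψ u * refl ψ v = (refl ψ u * refl ψ w) * (refl ψ w * refl ψ v) := by
        rw [Matrix.mul_assoc, ← Matrix.mul_assoc (refl ψ w), refl_mul_self _ hw, Matrix.one_mul]
      rw [h2]
      exact hmul _ (hpair0 u w hu hw huw) _ (hpair0 w v hw hv hwv)
  have hgen := cartan_dieudonne ψ hψ hs g hg
  have key : (g.det = 1 ∧ g ∈ Z) ∨ (g.det = -1 ∧ ∀ u, bf ψ u u ≠ 0 → refl ψ u * g ∈ Z) := by
    clear hg hdet
    unfold ReflGen at hgen
    induction hgen using Submonoid.closure_induction_left with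
    | one => exact Or.inl ⟨Matrix.det_one, h1Z⟩
    | mul_left r hr h _ ih =>
      obtain ⟨v, hv, rfl⟩ := hr
      rcases ih with ⟨hd, hm⟩ | ⟨hd, hm⟩
      · right
        refine ⟨by rw [Matrix.det_mul, refl_det v hv, hd, mul_one], ?_⟩
        intro u hu
        rw [← Matrix.mul_assoc]
        exact hmul _ (hpair u v hu hv) _ hm
      · left
        exact ⟨by rw [Matrix.det_mul, refl_det v hv, hd]; norm_num, hm v hv⟩
  rcases key with ⟨_, h⟩ | ⟨h, _⟩
  · exact h
  · rw [hdet] at h
    exfalso
    have : (2 : K) = 0 := by linear_combination h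
    exact two_ne_zero this

end Gen

end MT
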