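import Pool.Agent.Helper40.MT.Stmts
import Pool.Agent.Helper84.MT.Cay
import Pool.Agent.Helper84.MT.Gso

/-!
# Motivic Mumford-Tate: the module ISM
-/

set_option autoImplicit false
set_option maxHeartbeats 800000

namespace MT

theorem ism_det {K : Type} [Field K] {n : ℕ} {ψ s : Matrix (Fin n) (Fin n) K} (hψ : ψ.det ≠ 0)
    (hs : s.transpose * ψ * s = ψ) : s.det ≠ 0 := by
  intro h0
  apply hψ
  rw [← hs, Matrix.det_mul, h0, mul_zero]

theorem st_ISM : ST_ISM := by
  intro K _ _ n ψ Z hψ hsym hmul hZ g hg hdet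
  have hu : IsUnit ψ.det := isUnit_iff_ne_zero.mpr hψ
  rcases hsym with h | h
  · obtain ⟨s, r, hs, hr, hs1, hr1, hsr⟩ := symplectic_factor ψ hu h
      (g : Matrix (Fin n) (Fin n) K) hg
    let s' : Matrix.GeneralLinearGroup (Fin n) K :=
      Matrix.GeneralLinearGroup.mkOfDetNeZero s (ism_det hψ hs)
    let r' : Matrix.GeneralLinearGroup (Fin n) K :=
      Matrix.GeneralLinearGroup.mkOfDetNeZero r (ism_det hψ hr)
    have h1 : s' ∈ Z := hZ s' hs hs1
    have h2 : r' ∈ Z := hZ r' hr hr1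
    have h3 : g = s' * r' := by
      apply Units.ext
      exact hsr.symm
    rw [h3]
    exact hmul _ h1 _ h2
  · let Z' : Set (Matrix (Fin n) (Fin n) K) := {m | ∃ x ∈ Z, (x : Matrix (Fin n) (Fin n) K) = m}
    have h1 : (g : Matrix (Fin n) (Fin n) K) ∈ Z' := by
      refine special_orthogonal ψ hu h Z' ?_ ?_ _ hg hdet
      · rintro _ ⟨x, hx, rfl⟩ _ ⟨y, hy, rfl⟩
        exact ⟨x * y, hmul _ hx _ hy, rfl⟩
      · intro s hs hs1
        exact ⟨Matrix.GeneralLinearGroup.mkOfDetNeZero s (ism_det hψ hs), hZ _ hs hs1, rfl⟩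
    obtain ⟨x, hx, hxg⟩ := h1
    have : x = g := Units.ext hxg
    rw [← this]
    exact hx

/-- if the Lie algebra of the Zariski closure of `X` contains all infinitesimal isometries, the
Zariski closure contains all isometries of determinant `1` -/
theorem full_closure (zar : ST_ZAR) {K₀ : Type} [Field K₀] [CharZero K₀] {n : ℕ}
    (ψ : Matrix (Fin n) (Fin n) K₀) (X : Subgroup (Matrix.GeneralLinearGroup (Fin n) K₀))
    (hψ : ψ.det ≠ 0) (hsym : ψ.transpose = -ψ ∨ ψ.transpose = ψ)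
    (hL : ∀ A : Matrix (Fin n) (Fin n) K₀, A.transpose * ψ + ψ * A = 0 → A ∈ LieZ X)
    (K : Type) [Field K] [Algebra K₀ K] (g : Matrix.GeneralLinearGroup (Fin n) K)
    (hg : (g : Matrix (Fin n) (Fin n) K).transpose * ψ.map (algebraMap K₀ K) *
      (g : Matrix (Fin n) (Fin n) K) = ψ.map (algebraMap K₀ K))
    (hdet : (g : Matrix (Fin n) (Fin n) K).det = 1) :
    g ∈ ZC (X : Set (Matrix.GeneralLinearGroup (Fin n) K₀)) K := by
  have : CharZero K := charZero_of_injective_algebraMap (algebraMap K₀ K).injective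
  obtain ⟨-, -, hldv, -, hprod⟩ := zar K₀ n X
  set φ := algebraMap K₀ K with hφ
  have hψ' : (ψ.map φ).det ≠ 0 := by
    have h1 : (ψ.map φ).det = φ ψ.det := (RingHom.map_det φ ψ).symm
    rw [h1]
    exact fun h => hψ ((map_eq_zero φ).mp h)
  have hsym' : (ψ.map φ).transpose = -(ψ.map φ) ∨ (ψ.map φ).transpose = ψ.map φ := by
    rcases hsym with h | h
    · left
      rw [← Matrix.transpose_map, h]
      ext i j
      simp
    · right
      rw [← Matrix.transpose_map, h]
  obtain ⟨ε, hε, hε2⟩ : ∃ ε : K₀, ε * ε = 1 ∧ ψ.transpose = ε • ψ := by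
    rcases hsym with h | h
    · exact ⟨-1, by ring, by rw [h, neg_one_smul]⟩
    · exact ⟨1, by ring, by rw [h, one_smul]⟩
  let I : Set (MvPolynomial (Fin n × Fin n) K₀) :=
    {f | ∀ x ∈ X, ev (x : Matrix (Fin n) (Fin n) K₀) f = 0}
  have h1 : ∀ f ∈ I, ev (1 : Matrix (Fin n) (Fin n) K) f = 0 := by
    intro f hf
    have h2 : ev ((1 : Matrix (Fin n) (Fin n) K₀)) f = 0 := by
      have := hf 1 X.one_mem
      simpa using this
    have h3 := ev_map (K₀ := K₀) φ (fun a => rfl) (1 : Matrix (Fin n) (Fin n) K₀) f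
    rw [h2, map_zero, Matrix.map_one φ (map_zero φ) (map_one φ)] at h3
    exact h3.symm
  refine st_ISM K n (ψ.map φ) _ hψ' hsym' (hprod K) ?_ g hg hdet
  intro s hs hs1 f hf
  exact isometry_vanish (K₀ := K₀) two_ne_zero ε hε ψ (isUnit_iff_ne_zero.mpr hψ) hε2 I h1
    (fun M hM f' hf' => hldv M (hL M hM) f' hf') (s : Matrix (Fin n) (Fin n) K) hs hs1 f hf

end MT
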