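import Pool.Agent.Helper84.MT.Pul
import Pool.Agent.Helper49.MT.Agr

/-! MULTI-TYPE LAYER: first consequences of the definition of a leaf. The chart is Lipschitz; the cell of the point is a
function of every window; windows are nested; entropies of the parameter; the cell `[Q]_c` is a function of `kappa_c`. -/

set_option autoImplicit false

namespace Pool.Agent.Helper84.MT

open Finset Filter Topology Matrix Pool.Agent.Helper69.RK Pool.Agent.Helper31.EC Pool.Agent.Helper31.EC.Sp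
open Pool.Agent.Helper40.EL Pool.Agent.Helper89.LX Pool.Agent.Helper3.LF
open Pool.Agent.Helper95.LF (PdM)

noncomputable section

variable {S T : Sp} {M : ℕ} {E : ℕ → ℕ} {ι : Type}

/-! ### digits of close vectors -/

/-- digits of a vector which varies by at most `K 2^(-rn)` on the atoms of `B` -/
theorem PLe_cell {m : ℕ} (y : S.VV m) (r : ℝ) (B : ∀ k, Setoid (S.F k).Ω) (K : ℕ → ℝ) (hK : S.Sub K)
    (hh : ∀ᶠ k in UF, ∀ ω ω', (S.F k).μ ω ≠ 0 → (S.F k).μ ω' ≠ 0 → (S.F k).Z ω ω' → B k ω ω' →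
      ∀ i, |y.v k ω i - y.v k ω' i| ≤ K k * S.dl r k) :
    PLe (fun k => fc (Setoid.ker (y.cellv r k))) (fun k => fc (B k)) := by
  obtain ⟨C, hC, hb⟩ := y.bd
  have h1 : Tendsto (fun k => m * (Real.logb 2 (K k + 2) / (S.F k).n) + 1 / (S.F k).n) UF (𝓝 (m * 0 + 0)) :=
    (hK.2.const_mul _).add (S.div_n_tendsto 1)
  rw [mul_zero, add_zero] at h1
  refine squeeze_zero' (Eventually.of_forall fun k => div_nonneg (h_nonneg _ _) (S.F k).pos.le) ?_ h1
  filter_upwards [hh, hK.1, hb, hC.1] with k hk hK0 hbk hC0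
  have h2 := rt_cell_le y r (C k + 1) (K k) hK0 B (fun _ _ => False) k (fun ω hω i => (hbk ω hω i).trans (by linarith))
    (by linarith) (fun ω ω' a b _ _ c => hk ω ω' a b c.2 c.1)
  have h3 : mass (res (S.F k).μ ((fun _ _ => False : ∀ k, (S.F k).Ω → Prop) k)) = 0 := by
    unfold mass res
    apply Finset.sum_eq_zero
    intro ω _
    simp
  rw [h3, mul_zero, add_zero] at h2
  have h4 : h (fc (Setoid.ker (y.cellv r k))) (fc (B k)) / (S.F k).n = S.rt (fun k => Setoid.ker (y.cellv r k)) B k := by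
    rw [h_fc]
    rfl
  rw [h4]
  refine h2.trans (le_of_eq ?_)
  ring

/-- digits from the level `a` to the level `b` -/
theorem h_cell_cell_le {m : ℕ} (y : S.VV m) {a b : ℝ} (hab : a ≤ b) (B : ∀ k, Setoid (S.F k).Ω)
    (hB : ∀ k, B k ≤ Setoid.ker (y.cellv a k)) (ε : ℝ) (hε : 0 < ε) :
    ∀ᶠ k in UF, h (fc (Setoid.ker (y.cellv b k))) (fc (B k)) / (S.F k).n ≤ m * (b - a) + ε := by
  obtain ⟨C, hC, hb⟩ := y.bd
  have h1 : Tendsto (fun k => m * (2 / (S.F k).n) + 1 / (S.F k).n) UF (𝓝 (m * 0 + 0)) :=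
    ((S.div_n_tendsto 2).const_mul _).add (S.div_n_tendsto 1)
  rw [mul_zero, add_zero] at h1
  filter_upwards [hb, hC.1, h1.eventually (gt_mem_nhds hε)] with k hbk hC0 hk
  have hn := (S.F k).pos
  have e0 : (0 : ℝ) < S.dl b k := S.dl_pos b k
  have e1 : S.dl a k = 2 ^ ((b - a) * (S.F k).n) * S.dl b k := by
    unfold Sp.dl
    rw [← Real.rpow_add (by norm_num)]
    congr 1
    ring
  have h2 := rt_cell_le y b (C k + 1) (2 ^ ((b - a) * (S.F k).n)) (by positivity) B (fun _ _ => False) k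
    (fun ω hω i => (hbk ω hω i).trans (by linarith)) (by linarith) (fun ω ω' a' b' _ _ c i => by
      rw [← e1]
      exact abs_sub_le_of_floor_eq (S.dl_pos a k) (congrFun (hB k c.1) i))
  have h3 : mass (res (S.F k).μ ((fun _ _ => False : ∀ k, (S.F k).Ω → Prop) k)) = 0 := by
    unfold mass res
    apply Finset.sum_eq_zero
    intro ω _
    simp
  rw [h3, mul_zero, add_zero] at h2
  have h4 : h (fc (Setoid.ker (y.cellv b k))) (fc (B k)) / (S.F k).n = S.rt (fun k => Setoid.ker (y.cellv b k)) B k := by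
    rw [h_fc]
    rfl
  rw [h4]
  refine h2.trans ?_
  have h5 : Real.logb 2 ((2 : ℝ) ^ ((b - a) * (S.F k).n) + 2) ≤ (b - a) * (S.F k).n + 2 := by
    have e2 : (b - a) * (S.F k).n + 2 = Real.logb 2 (2 ^ ((b - a) * (S.F k).n + 2)) := by
      rw [Real.logb_rpow (by norm_num) (by norm_num)]
    rw [e2]
    apply Real.logb_le_logb_of_le (by norm_num) (by positivity)
    rw [Real.rpow_add (by norm_num)]
    have h6 : (1 : ℝ) ≤ 2 ^ ((b - a) * (S.F k).n) := Real.one_le_rpow (by norm_num) (by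
      have := mul_nonneg (sub_nonneg.mpr hab) hn.le
      exact this)
    norm_num
    linarith
  have h7 : m * Real.logb 2 ((2 : ℝ) ^ ((b - a) * (S.F k).n) + 2) / (S.F k).n ≤
      m * (b - a) + m * (2 / (S.F k).n) := by
    have e3 : m * (b - a) + m * (2 / (S.F k).n) = m * ((b - a) * (S.F k).n + 2) / (S.F k).n := by
      field_simp
    rw [e3]
    apply div_le_div_of_nonneg_right _ hn.le
    exact mul_le_mul_of_nonneg_left h5 (Nat.cast_nonneg _)
  linarith

/-! ### the chart is Lipschitz -/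

/-- polynomials of the point of the chart -/
theorem Leaf.eval_mem {Q : S.VV M} (l : Leaf S Q E) (D : ℕ) : ∀ᶠ k in UF, ∀ ω, (S.F k).μ ω ≠ 0 →
    ∀ P : MvPolynomial (Fin M) ℝ, P.totalDegree ≤ D →
      (fun y => MvPolynomial.eval (l.F k ω y) P) ∈ l.al k ω D := by
  filter_upwards [l.alg, l.crF] with k h1 h2 ω hω P hP
  have h3 := (h1 ω hω).eval (fun j y => l.F k ω y j) (h2 ω hω) P hP
  rw [one_mul] at h3
  exact h3

/-- Bernstein inequality in the cube, in the sum norm -/
theorem Leaf.bern {Q : S.VV M} (l : Leaf S Q E) (D : ℕ) : ∃ K : ℕ → ℝ, S.Sub K ∧ ∀ᶠ k in UF, ∀ ω,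
    (S.F k).μ ω ≠ 0 → ∀ f ∈ l.al k ω D, ∀ A : ℝ,
    (∀ y : Fin l.e → ℝ, (∀ i, |y i - l.Y.v k ω i| ≤ 1) → |f y| ≤ A) →
    ∀ y z : Fin l.e → ℝ, (∀ i, |y i - l.Y.v k ω i| ≤ 1) → (∀ i, |z i - l.Y.v k ω i| ≤ 1) →
    |f y - f z| ≤ K k * A * ∑ i, |y i - z i| := by
  classical
  obtain ⟨K, hK, hb⟩ := l.seg D
  refine ⟨K, hK, ?_⟩
  filter_upwards [hb, hK.1] with k hk hK0 ω hω f hf A hA y z hy hz
  have hA0 : 0 ≤ A := (abs_nonneg _).trans (hA y hy)
  set w : Finset (Fin l.e) → Fin l.e → ℝ := fun s i => if i ∈ s then z i else y i with hw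
  have hwc : ∀ s i, |w s i - l.Y.v k ω i| ≤ 1 := by
    intro s i
    simp only [hw]
    split_ifs
    · exact hz i
    · exact hy i
  have key : ∀ s : Finset (Fin l.e), |f y - f (w s)| ≤ K k * A * ∑ i ∈ s, |y i - z i| := by
    intro s
    induction s using Finset.induction_on with
    | empty =>
      have e1 : w ∅ = y := by funext i; simp [hw]
      rw [e1, sub_self, abs_zero, Finset.sum_empty, mul_zero]
    | insert i s hi ih =>
      set a : Fin l.e → ℝ := Function.update (w s) i (l.Y.v k ω i - 1) with ha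
      set b : Fin l.e → ℝ := Function.update (w s) i (l.Y.v k ω i + 1) with hb'
      have ha1 : ∀ j, |a j - l.Y.v k ω j| ≤ 1 := by
        intro j
        by_cases hj : j = i
        · rw [hj, ha, Function.update_self]
          rw [abs_le]; constructor <;> linarith
        · rw [ha, Function.update_of_ne hj]
          exact hwc s j
      have hb1 : ∀ j, |b j - l.Y.v k ω j| ≤ 1 := by
        intro j
        by_cases hj : j = i
        · rw [hj, hb', Function.update_self]
          rw [abs_le]; constructor <;> linarith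
        · rw [hb', Function.update_of_ne hj]
          exact hwc s j
      have hseg := (hk ω hω f hf a b ha1 hb1).2
      have e1 : ∀ v : ℝ, (fun j => a j + (v - l.Y.v k ω i + 1) / 2 * (b j - a j)) = Function.update (w s) i v := by
        intro v
        funext j
        by_cases hj : j = i
        · rw [hj, ha, hb', Function.update_self, Function.update_self, Function.update_self]
          ring
        · rw [ha, hb', Function.update_of_ne hj, Function.update_of_ne hj, Function.update_of_ne hj]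
          ring
      have hin : ∀ v : ℝ, |v - l.Y.v k ω i| ≤ 1 → (v - l.Y.v k ω i + 1) / 2 ∈ Set.Icc (0 : ℝ) 1 := by
        intro v hv
        rw [abs_le] at hv
        constructor <;> linarith [hv.1, hv.2]
      have h1 := hseg A (fun u hu => hA _ (by
        intro j
        by_cases hj : j = i
        · rw [hj]
          simp only [ha, hb', Function.update_self]
          rw [abs_le]; constructor <;> nlinarith [hu.1, hu.2]
        · simp only [ha, hb', Function.update_of_ne hj, sub_self, mul_zero, add_zero]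
          exact hwc s j)) _ (hin (y i) (hy i)) _ (hin (z i) (hz i))
      simp only [e1] at h1
      have e2 : Function.update (w s) i (y i) = w s := by
        funext j
        by_cases hj : j = i
        · rw [hj, Function.update_self]
          simp [hw, hi]
        · rw [Function.update_of_ne hj]
      have e3 : Function.update (w s) i (z i) = w (insert i s) := by
        funext j
        by_cases hj : j = i
        · rw [hj, Function.update_self]
          simp [hw]
        · rw [Function.update_of_ne hj]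
          simp [hw, hj]
      rw [e2, e3] at h1
      have e4 : (y i - l.Y.v k ω i + 1) / 2 - (z i - l.Y.v k ω i + 1) / 2 = (y i - z i) / 2 := by ring
      rw [e4, abs_div, abs_two] at h1
      have h2 : K k * (|y i - z i| / 2) * A ≤ K k * A * |y i - z i| := by
        have : 0 ≤ K k * A * |y i - z i| := by positivity
        nlinarith
      rw [Finset.sum_insert hi]
      have h3 : f y - f (w (insert i s)) = (f y - f (w s)) + (f (w s) - f (w (insert i s))) := by ring
      rw [h3, mul_add]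
      refine (abs_add_le _ _).trans ?_
      linarith [ih]
  have e5 : w Finset.univ = z := by funext i; simp [hw]
  have h4 := key Finset.univ
  rw [e5] at h4
  exact h4

/-- the chart is Lipschitz with a tame constant -/
theorem Leaf.lip {Q : S.VV M} (l : Leaf S Q E) : ∃ K : ℕ → ℝ, S.Sub K ∧ ∀ᶠ k in UF, ∀ ω,
    (S.F k).μ ω ≠ 0 → ∀ y z : Fin l.e → ℝ, (∀ i, |y i - l.Y.v k ω i| ≤ 1) → (∀ i, |z i - l.Y.v k ω i| ≤ 1) →
    ∀ j, |l.F k ω y j - l.F k ω z j| ≤ K k * ∑ i, |y i - z i| := by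
  obtain ⟨K, hK, hb⟩ := l.bern 1
  obtain ⟨L, hL, hb'⟩ := l.bd
  refine ⟨fun k => K k * L k, hK.mul hL, ?_⟩
  filter_upwards [hb, hb', l.crF] with k h1 h2 h3 ω hω y z hy hz j
  exact h1 ω hω _ (h3 ω hω j) (L k) (fun y hy => h2 ω hω y hy j) y z hy hz

/-! ### windows -/

/-- the point varies by at most `K 2^(-cn)` on the atoms of the window `c` -/
theorem Leaf.win_close {Q : S.VV M} (l : Leaf S Q E) {c : ℝ} (hc : 0 ≤ c) (hc1 : c ≤ 1) : ∃ K : ℕ → ℝ, S.Sub K ∧
    ∀ᶠ k in UF, ∀ ω ω', (S.F k).μ ω ≠ 0 → (S.F k).μ ω' ≠ 0 → (S.F k).Z ω ω' →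
      (l.La k ⊓ Setoid.ker (l.Y.cellv c k)) ω ω' → ∀ j, |Q.v k ω j - Q.v k ω' j| ≤ K k * S.dl c k := by
  obtain ⟨K, hK, hb⟩ := l.lip
  obtain ⟨L, hL, hb'⟩ := l.pt
  refine ⟨fun k => L k + K k * l.e + L k, (hL.add (hK.mul (S.Sub_const (Nat.cast_nonneg _)))).add hL, ?_⟩
  filter_upwards [hb, hb', l.fn, hK.1, hL.1] with k h1 h2 h3 hK0 hL0 ω ω' a b z r j
  have hF := h3 ω ω' a b z r.1
  have hd : 0 < S.dl c k := S.dl_pos c k
  have hd1 : S.dl c k ≤ 1 := by
    rw [← S.dl_zero k]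
    exact S.dl_anti hc k
  have hd2 : S.dl 1 k ≤ S.dl c k := S.dl_anti hc1 k
  have hY : ∀ i, |l.Y.v k ω i - l.Y.v k ω' i| ≤ S.dl c k := fun i =>
    abs_sub_le_of_floor_eq hd (congrFun r.2 i)
  have h4 := h1 ω a (l.Y.v k ω) (l.Y.v k ω') (fun i => by rw [sub_self, abs_zero]; exact zero_le_one)
    (fun i => by rw [abs_sub_comm]; exact (hY i).trans hd1) j
  have h5 : ∑ i, |l.Y.v k ω i - l.Y.v k ω' i| ≤ l.e * S.dl c k := by
    refine (Finset.sum_le_sum fun i _ => hY i).trans ?_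
    rw [Finset.sum_const, Finset.card_univ, Fintype.card_fin, nsmul_eq_mul]
  have h6 := h2 ω a j
  have h7 := h2 ω' b j
  rw [← hF] at h7
  have e1 : Q.v k ω j - Q.v k ω' j = (Q.v k ω j - l.F k ω (l.Y.v k ω) j) +
      (l.F k ω (l.Y.v k ω) j - l.F k ω (l.Y.v k ω') j) - (Q.v k ω' j - l.F k ω (l.Y.v k ω') j) := by ring
  rw [e1]
  have h8 : K k * ∑ i, |l.Y.v k ω i - l.Y.v k ω' i| ≤ K k * (l.e * S.dl c k) := mul_le_mul_of_nonneg_left h5 hK0
  have h9 : L k * S.dl 1 k ≤ L k * S.dl c k := mul_le_mul_of_nonneg_left hd2 hL0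
  have h10 := abs_sub ((Q.v k ω j - l.F k ω (l.Y.v k ω) j) + (l.F k ω (l.Y.v k ω) j - l.F k ω (l.Y.v k ω') j))
    (Q.v k ω' j - l.F k ω (l.Y.v k ω') j)
  have h11 := abs_add_le (Q.v k ω j - l.F k ω (l.Y.v k ω) j) (l.F k ω (l.Y.v k ω) j - l.F k ω (l.Y.v k ω') j)
  nlinarith

/-- the cell of level `c` of the point is a function of the window `c` -/
theorem Leaf.dg_win {Q : S.VV M} (l : Leaf S Q E) {c : ℝ} (hc : 0 ≤ c) (hc1 : c ≤ 1) :
    PLe (fun k => fc (Setoid.ker (Q.cellv c k))) (l.win c) := by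
  obtain ⟨K, hK, hb⟩ := l.win_close hc hc1
  exact PLe_cell Q c _ K hK hb

/-- the cell of the parameter is a function of finer cells -/
theorem PLe_cell_cell {m : ℕ} (y : S.VV m) {a b : ℝ} (hab : a ≤ b) (B : ∀ k, Setoid (S.F k).Ω)
    (hB : ∀ k, B k ≤ Setoid.ker (y.cellv b k)) :
    PLe (fun k => fc (Setoid.ker (y.cellv a k))) (fun k => fc (B k)) := by
  apply PLe_cell y a B (fun _ => 1) (S.Sub_const zero_le_one)
  refine Eventually.of_forall fun k ω ω' _ _ _ r i => ?_
  rw [one_mul]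
  exact (abs_sub_le_of_floor_eq (S.dl_pos b k) (congrFun (hB k r) i)).trans (S.dl_anti hab k)

/-- the windows are nested -/
theorem Leaf.win_mono {Q : S.VV M} (l : Leaf S Q E) {a b : ℝ} (hab : a ≤ b) : PLe (l.win a) (l.win b) := by
  have h1 : PLe (fun k => fc (Setoid.ker (l.Y.cellv a k))) (l.win b) :=
    PLe_cell_cell l.Y hab _ (fun k => inf_le_right)
  have e1 : ∀ c, l.win c = fun k => fc (l.La k) ⊔ fc (Setoid.ker (l.Y.cellv c k)) := fun c =>
    funext fun k => fc_inf (l.La k) (Setoid.ker (l.Y.cellv c k))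
  have h2 : PLe (fun k => fc (l.La k)) (l.win b) := by
    rw [e1]
    exact PLe_of_le fun k => le_sup_left
  rw [e1 a]
  exact PLe.sup_le h2 h1

/-- the cell of level `c` of the point is a function of the point -/
theorem dg_pcd (Q : S.VV M) {c : ℝ} (hc1 : c ≤ 1) : PLe (fun k => fc (Setoid.ker (Q.cellv c k))) (pcd Q) :=
  PLe_cell_cell Q hc1 _ (fun k => le_rfl)

theorem MSys.cnd_mono (s : MSys S M E ι) {a b : ℝ} (hab : a ≤ b) (i : Option ι) : PLe (s.cnd a i) (s.cnd b i) := by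
  rcases i with _ | i
  · exact PLe.refl _
  · exact (s.lf i).win_mono hab

/-- the cell of level `c` of the point is a function of every condition of the window `c` -/
theorem MSys.dg_cnd (s : MSys S M E ι) {c : ℝ} (hc : 0 ≤ c) (hc1 : c ≤ 1) (i : Option ι) :
    PLe (fun k => fc (Setoid.ker (s.Q.cellv c k))) (s.cnd c i) := by
  rcases i with _ | i
  · exact dg_pcd s.Q hc1
  · exact (s.lf i).dg_win hc hc1

theorem MSys.DMc.mono {s : MSys S M E ι} {a b : ℝ} (hab : a ≤ b) {l : Lab S} (h : s.DMc a l) : s.DMc b l :=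
  Lab.DMf.mono h (fun i => ⟨i, s.cnd_mono hab i⟩)

theorem MSys.IsKap.info_mono {s : MSys S M E ι} {a b : ℝ} (hab : a ≤ b) {l l' : Lab S} (h : s.IsKap a l)
    (h' : s.IsKap b l') : l.info ≤ l'.info := h'.2 l (MSys.DMc.mono hab h.1)

theorem MSys.Con.mono {s : MSys S M E ι} {a b : ℝ} (hab : a ≤ b) (h : s.Con b) : s.Con a :=
  fun l hl => h l (MSys.DMc.mono hab hl)

/-- functions of all conditions of the window `c` are functions of `kappa_c` -/
theorem MSys.IsKap.fun_small {s : MSys S M E ι} {c : ℝ} {l : Lab S} (h : s.IsKap c l)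
    (W : ∀ k, Setoid (l k).T.Ω)
    (h1 : ∀ i, Nul S (fun k => Pool.Agent.Helper31.EC.h (fc (W k) : FL (l k).T) ((l k).v ⊔ (l k).p.map (s.cnd c i k)))) :
    Nul S (fun k => Pool.Agent.Helper31.EC.h (fc (W k) : FL (l k).T) (l k).v) ∧ s.IsKap c (l.addW W) :=
  Lab.IsMaxf.fun_small h (i₀ := none) (pcd_Bd s.Q) W h1

/-- the cell of level `c` of the point is a function of `kappa_c` -/
theorem MSys.IsKap.dg {s : MSys S M E ι} {c : ℝ} (hc : 0 ≤ c) (hc1 : c ≤ 1) {l : Lab S} (h : s.IsKap c l) :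
    Nul S (fun k => Pool.Agent.Helper31.EC.h (fc (Setoid.comap (l k).p.π (Setoid.ker (s.Q.cellv c k))) : FL (l k).T)
      (l k).v) ∧ s.IsKap c (l.addW fun k => Setoid.comap (l k).p.π (Setoid.ker (s.Q.cellv c k))) := by
  apply h.fun_small
  intro i
  have h1 := s.dg_cnd hc hc1 i
  refine h1.of_le (Eventually.of_forall fun k => h_nonneg _ _) (Eventually.of_forall fun k => ?_)
  refine (h_anti (le_sup_right : (l k).p.map (s.cnd c i k) ≤ _)).trans ?_
  exact ((l k).p.h_map (fc (Setoid.ker (s.Q.cellv c k))) (s.cnd c i k)).le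

/-- there is a label `kappa_c` which knows the cell of level `c` of the point literally -/
theorem MSys.exists_kapQ [Countable ι] (s : MSys S M E ι) {c : ℝ} (hc : 0 ≤ c) (hc1 : c ≤ 1) :
    ∃ l : Lab S, s.IsKap c l ∧ ∀ k ω ω', (l k).V ω ω' → s.Q.cellv c k ((l k).p.π ω) = s.Q.cellv c k ((l k).p.π ω') := by
  obtain ⟨l, hl⟩ := s.exists_kap c
  refine ⟨_, (hl.dg hc hc1).2, fun k ω ω' r => ?_⟩
  exact r.2

/-! ### entropies of the parameter -/

theorem Leaf.full_La {Q : S.VV M} (l : Leaf S Q E) {b : ℝ} (hb : 0 ≤ b) (hb1 : b ≤ 1) :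
    Tendsto (fun k => h (fc (Setoid.ker (l.Y.cellv b k))) (fc (l.La k)) / (S.F k).n) UF (𝓝 (l.e * b)) := by
  rw [Metric.tendsto_nhds]
  intro ε hε
  have h1 := h_cell_le l.Y hb (fun k => fc (l.La k)) (ε / 2) (by linarith)
  have h2 := h_cell_cell_le l.Y hb1 (fun k => l.La k ⊓ Setoid.ker (l.Y.cellv b k)) (fun k => inf_le_right) (ε / 4)
    (by linarith)
  have h3 := (l.full).eventually (lt_mem_nhds (show (l.e : ℝ) - ε / 4 < l.e by linarith))
  filter_upwards [h1, h2, h3] with k a b' c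
  rw [Real.dist_eq, abs_lt]
  have hn := (S.F k).pos
  have h4 : h (fc (Setoid.ker (l.Y.cellv 1 k))) (fc (l.La k)) ≤ h (fc (Setoid.ker (l.Y.cellv b k))) (fc (l.La k)) +
      h (fc (Setoid.ker (l.Y.cellv 1 k))) (fc (l.La k ⊓ Setoid.ker (l.Y.cellv b k))) := by
    refine (h_mono (le_sup_right : fc (Setoid.ker (l.Y.cellv 1 k)) ≤ fc (Setoid.ker (l.Y.cellv b k)) ⊔ _)).trans ?_
    rw [h_chain, fc_inf, sup_comm (fc (l.La k))]
  have h5 := div_le_div_of_nonneg_right h4 hn.le
  rw [add_div] at h5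
  have e1 : (l.e : ℝ) * (1 - b) = l.e - l.e * b := by ring
  rw [e1] at b'
  constructor <;> linarith

/-- the parameter is uniform in the windows -/
theorem Leaf.full_win {Q : S.VV M} (l : Leaf S Q E) {a b : ℝ} (ha : 0 ≤ a) (hab : a ≤ b) (hb1 : b ≤ 1) :
    Tendsto (fun k => h (fc (Setoid.ker (l.Y.cellv b k))) (l.win a k) / (S.F k).n) UF (𝓝 (l.e * (b - a))) := by
  rw [Metric.tendsto_nhds]
  intro ε hε
  have h1 := h_cell_cell_le l.Y hab (fun k => l.La k ⊓ Setoid.ker (l.Y.cellv a k)) (fun k => inf_le_right) (ε / 2)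
    (by linarith)
  have h2 := (l.full_La (ha.trans hab) hb1).eventually
    (lt_mem_nhds (show (l.e : ℝ) * b - ε / 4 < l.e * b by linarith))
  have h3 := (l.full_La ha (hab.trans hb1)).eventually
    (gt_mem_nhds (show (l.e : ℝ) * a < l.e * a + ε / 4 by linarith))
  filter_upwards [h1, h2, h3] with k x y z
  rw [Real.dist_eq, abs_lt]
  have hn := (S.F k).pos
  have h4 : h (fc (Setoid.ker (l.Y.cellv b k))) (fc (l.La k)) ≤ h (fc (Setoid.ker (l.Y.cellv a k))) (fc (l.La k)) +
      h (fc (Setoid.ker (l.Y.cellv b k))) (l.win a k) := by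
    refine (h_mono (le_sup_right : fc (Setoid.ker (l.Y.cellv b k)) ≤ fc (Setoid.ker (l.Y.cellv a k)) ⊔ _)).trans ?_
    rw [h_chain]
    show _ ≤ _ + h _ (fc (l.La k) ⊔ fc (Setoid.ker (l.Y.cellv a k)))
    rw [sup_comm (fc (l.La k))]
  have h5 := div_le_div_of_nonneg_right h4 hn.le
  rw [add_div] at h5
  have h6 : h (fc (Setoid.ker (l.Y.cellv b k))) (l.win a k) / (S.F k).n ≤ l.e * (b - a) + ε / 2 := x
  have e1 : (l.e : ℝ) * (b - a) = l.e * b - l.e * a := by ring
  rw [e1] at h6 ⊢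
  constructor <;> linarith

end

end Pool.Agent.Helper84.MT
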