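import Mathlib

/-! MULTI-TYPE LAYER, charts of leaves: `RemS` = the Remez inequality (separated points), `BmS` = the Bernstein
inequality for a function on `[0,1]`; `Alg` = a filtered differential algebra of functions on a cube. The algebra of
polynomials. -/

set_option autoImplicit false

namespace Pool.Agent.Helper84.MT

open Finset Set

noncomputable section

/-- REMEZ INEQUALITY for `N + 1` separated points with exponent `N` and constant `B` -/
def RemS (N : ℕ) (B : ℝ) (φ : ℝ → ℝ) : Prop := ∀ (x : Fin (N + 1) → ℝ) (δ ε : ℝ), 0 < δ →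
  (∀ i, x i ∈ Icc (0 : ℝ) 1) → (∀ i j, i ≠ j → δ ≤ |x i - x j|) → (∀ i, |φ (x i)| ≤ ε) →
  ∀ u ∈ Icc (0 : ℝ) 1, |φ u| ≤ B * (1 / δ) ^ N * ε

/-- BERNSTEIN INEQUALITY with constant `B` -/
def BmS (B : ℝ) (φ : ℝ → ℝ) : Prop := ∀ A : ℝ, (∀ u ∈ Icc (0 : ℝ) 1, |φ u| ≤ A) →
  ∀ u ∈ Icc (0 : ℝ) 1, ∀ u' ∈ Icc (0 : ℝ) 1, |φ u - φ u'| ≤ B * |u - u'| * A

theorem RemS.mono {N N' : ℕ} {B B' : ℝ} {φ : ℝ → ℝ} (h : RemS N B φ) (hN : N ≤ N') (hB0 : 0 ≤ B)
    (hB : B ≤ B') : RemS N' B' φ := by
  intro x δ ε hδ hx hsep hε u hu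
  have hε0 : 0 ≤ ε := (abs_nonneg _).trans (hε 0)
  have h1 := h (fun i => x (Fin.castLE (by omega) i)) δ ε hδ (fun i => hx _) (fun i j hij => hsep _ _ (by
    intro h2
    exact hij (Fin.castLE_injective _ h2))) (fun i => hε _) u hu
  refine h1.trans ?_
  apply mul_le_mul_of_nonneg_right _ hε0
  rcases Nat.eq_or_lt_of_le hN with hN' | hN'
  · rw [hN']
    exact mul_le_mul_of_nonneg_right hB (by positivity)
  · have h2 : δ ≤ 1 := by
      have h3 := hsep ⟨0, by omega⟩ ⟨1, by omega⟩ (by
        intro h; simpa using congrArg Fin.val h)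
      have h4 := hx ⟨0, by omega⟩
      have h5 := hx ⟨1, by omega⟩
      refine h3.trans ?_
      rw [abs_le]
      constructor <;> linarith [h4.1, h4.2, h5.1, h5.2]
    have h3 : 1 ≤ 1 / δ := by
      rw [le_div_iff₀ hδ]; linarith
    exact mul_le_mul hB (pow_le_pow_right₀ h3 hN) (by positivity) (hB0.trans hB)

theorem BmS.mono {B B' : ℝ} {φ : ℝ → ℝ} (h : BmS B φ) (hB : B ≤ B') : BmS B' φ := by
  intro A hA u hu u' hu'
  have hA0 : 0 ≤ A := (abs_nonneg _).trans (hA 0 ⟨le_rfl, zero_le_one⟩)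
  refine (h A hA u hu u' hu').trans ?_
  apply mul_le_mul_of_nonneg_right _ hA0
  exact mul_le_mul_of_nonneg_right hB (abs_nonneg _)

/-- A FILTERED DIFFERENTIAL ALGEBRA of functions on the cube of centre `c` and radius `1` -/
structure Alg (e : ℕ) (c : Fin e → ℝ) (al : ℕ → Set ((Fin e → ℝ) → ℝ)) : Prop where
  const : ∀ a : ℝ, (fun _ => a) ∈ al 0
  add : ∀ (D : ℕ) (f g : (Fin e → ℝ) → ℝ), f ∈ al D → g ∈ al D → (fun y => f y + g y) ∈ al D
  mul : ∀ (D D' : ℕ) (f g : (Fin e → ℝ) → ℝ), f ∈ al D → g ∈ al D' → (fun y => f y * g y) ∈ al (D + D')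
  mono : ∀ D D' : ℕ, D ≤ D' → al D ⊆ al D'
  crd : ∀ i : Fin e, (fun y => y i) ∈ al 1
  der : ∀ (D : ℕ) (f : (Fin e → ℝ) → ℝ), f ∈ al D → ∀ i : Fin e, ∃ g ∈ al (D + 1), ∀ y : Fin e → ℝ,
    (∀ j, |y j - c j| < 1) → HasDerivAt (fun t => f (Function.update y i t)) (g y) (y i)

namespace Alg

variable {e : ℕ} {c : Fin e → ℝ} {al : ℕ → Set ((Fin e → ℝ) → ℝ)}

theorem const' (h : Alg e c al) (D : ℕ) (a : ℝ) : (fun _ => a) ∈ al D := h.mono 0 D (Nat.zero_le _) (h.const a)

theorem smul (h : Alg e c al) {D : ℕ} {f : (Fin e → ℝ) → ℝ} (hf : f ∈ al D) (a : ℝ) : (fun y => a * f y) ∈ al D := by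
  have := h.mul 0 D _ _ (h.const a) hf
  rwa [zero_add] at this

theorem sub (h : Alg e c al) {D : ℕ} {f g : (Fin e → ℝ) → ℝ} (hf : f ∈ al D) (hg : g ∈ al D) :
    (fun y => f y - g y) ∈ al D := by
  have h1 := h.add D _ _ hf (h.smul hg (-1))
  have e1 : (fun y => f y + -1 * g y) = fun y => f y - g y := by funext y; ring
  rwa [e1] at h1

theorem sum (h : Alg e c al) {D : ℕ} {β : Type*} (s : Finset β) (f : β → (Fin e → ℝ) → ℝ)
    (hf : ∀ b ∈ s, f b ∈ al D) : (fun y => ∑ b ∈ s, f b y) ∈ al D := by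
  classical
  induction s using Finset.induction_on with
  | empty =>
    simp only [Finset.sum_empty]
    exact h.const' D 0
  | insert b s hb ih =>
    have e1 : (fun y => ∑ b ∈ insert b s, f b y) = fun y => f b y + ∑ b ∈ s, f b y := by
      funext y; rw [Finset.sum_insert hb]
    rw [e1]
    exact h.add D _ _ (hf b (Finset.mem_insert_self _ _)) (ih fun b' hb' => hf b' (Finset.mem_insert_of_mem hb'))

theorem prod (h : Alg e c al) {β : Type*} (s : Finset β) (D : β → ℕ) (f : β → (Fin e → ℝ) → ℝ)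
    (hf : ∀ b ∈ s, f b ∈ al (D b)) : (fun y => ∏ b ∈ s, f b y) ∈ al (∑ b ∈ s, D b) := by
  classical
  induction s using Finset.induction_on with
  | empty =>
    simp only [Finset.prod_empty, Finset.sum_empty]
    exact h.const 1
  | insert b s hb ih =>
    have e1 : (fun y => ∏ b ∈ insert b s, f b y) = fun y => f b y * ∏ b ∈ s, f b y := by
      funext y; rw [Finset.prod_insert hb]
    rw [e1, Finset.sum_insert hb]
    exact h.mul _ _ _ _ (hf b (Finset.mem_insert_self _ _)) (ih fun b' hb' => hf b' (Finset.mem_insert_of_mem hb'))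

theorem pow (h : Alg e c al) {D : ℕ} {f : (Fin e → ℝ) → ℝ} (hf : f ∈ al D) (n : ℕ) :
    (fun y => f y ^ n) ∈ al (n * D) := by
  induction n with
  | zero =>
    simp only [pow_zero, zero_mul]
    exact h.const 1
  | succ n ih =>
    have h1 := h.mul _ _ _ _ ih hf
    have e1 : (fun y => f y ^ n * f y) = fun y => f y ^ (n + 1) := by funext y; rw [pow_succ]
    rw [e1] at h1
    rwa [Nat.succ_mul]

/-- polynomials in functions of degree at most `κ` -/
theorem eval (h : Alg e c al) {M κ D : ℕ} (G : Fin M → (Fin e → ℝ) → ℝ) (hG : ∀ j, G j ∈ al κ)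
    (P : MvPolynomial (Fin M) ℝ) (hP : P.totalDegree ≤ D) :
    (fun y => MvPolynomial.eval (fun j => G j y) P) ∈ al (κ * D) := by
  classical
  have e1 : (fun y => MvPolynomial.eval (fun j => G j y) P) =
      fun y => ∑ a ∈ P.support, P.coeff a * ∏ j, G j y ^ a j := by
    funext y; rw [MvPolynomial.eval_eq']
  rw [e1]
  apply h.sum
  intro a ha
  apply h.smul
  have h1 := h.prod Finset.univ (fun j => a j * κ) (fun j y => G j y ^ a j) (fun j _ => h.pow (hG j) (a j))
  refine h.mono _ _ ?_ h1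
  rw [← Finset.sum_mul, mul_comm]
  apply Nat.mul_le_mul_left
  have h3 : a.sum (fun _ n => n) ≤ P.totalDegree := MvPolynomial.le_totalDegree ha
  have h4 : a.sum (fun _ n => n) = ∑ i, a i := Finsupp.sum_fintype _ _ (fun _ => rfl)
  omega

end Alg

/-! ### degrees of substitutions -/

theorem totalDegree_bind_le {σ τ : Type*} (P : MvPolynomial σ ℝ) (G : σ → MvPolynomial τ ℝ) (κ : ℕ)
    (hG : ∀ i, (G i).totalDegree ≤ κ) : (MvPolynomial.bind₁ G P).totalDegree ≤ κ * P.totalDegree := by
  classical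
  rw [MvPolynomial.bind₁, MvPolynomial.aeval_def, MvPolynomial.eval₂_eq]
  refine (MvPolynomial.totalDegree_finsetSum _ _).trans ?_
  apply Finset.sup_le
  intro a ha
  refine (MvPolynomial.totalDegree_mul _ _).trans ?_
  rw [MvPolynomial.algebraMap_eq, MvPolynomial.totalDegree_C, zero_add]
  refine (MvPolynomial.totalDegree_finsetProd _ _).trans ?_
  have h1 : ∀ i ∈ a.support, ((G i) ^ a i).totalDegree ≤ κ * a i := by
    intro i _
    refine (MvPolynomial.totalDegree_pow _ _).trans ?_
    rw [mul_comm]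
    exact Nat.mul_le_mul_right _ (hG i)
  refine (Finset.sum_le_sum h1).trans ?_
  rw [← Finset.mul_sum]
  exact Nat.mul_le_mul_left _ (MvPolynomial.le_totalDegree ha)

theorem natDegree_aeval_le {σ : Type*} (P : MvPolynomial σ ℝ) (G : σ → Polynomial ℝ) (κ : ℕ)
    (hG : ∀ i, (G i).natDegree ≤ κ) : (MvPolynomial.aeval G P).natDegree ≤ κ * P.totalDegree := by
  classical
  rw [MvPolynomial.aeval_def, MvPolynomial.eval₂_eq]
  apply Polynomial.natDegree_sum_le_of_forall_le
  intro a ha
  refine (Polynomial.natDegree_mul_le).trans ?_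
  rw [Polynomial.algebraMap_eq, Polynomial.natDegree_C, zero_add]
  refine (Polynomial.natDegree_prod_le _ _).trans ?_
  have h1 : ∀ i ∈ a.support, ((G i) ^ a i).natDegree ≤ κ * a i := by
    intro i _
    refine (Polynomial.natDegree_pow_le).trans ?_
    rw [mul_comm]
    exact Nat.mul_le_mul_right _ (hG i)
  refine (Finset.sum_le_sum h1).trans ?_
  rw [← Finset.mul_sum]
  exact Nat.mul_le_mul_left _ (MvPolynomial.le_totalDegree ha)

theorem totalDegree_pderiv_le {e : ℕ} (i : Fin e) (P : MvPolynomial (Fin e) ℝ) :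
    (MvPolynomial.pderiv i P).totalDegree ≤ P.totalDegree := by
  classical
  rw [P.as_sum, map_sum]
  refine (MvPolynomial.totalDegree_finsetSum _ _).trans ?_
  apply Finset.sup_le
  intro a ha
  rw [← P.as_sum, MvPolynomial.pderiv_monomial]
  refine (MvPolynomial.totalDegree_monomial_le _ _).trans ?_
  refine le_trans ?_ (MvPolynomial.le_totalDegree ha)
  rw [Finsupp.sum_fintype _ _ (fun _ => rfl), Finsupp.sum_fintype _ _ (fun _ => rfl)]
  exact Finset.sum_le_sum fun j _ => by
    rw [Finsupp.tsub_apply]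
    exact Nat.sub_le _ _

theorem hasDerivAt_pderiv {e : ℕ} (i : Fin e) (P : MvPolynomial (Fin e) ℝ) (y : Fin e → ℝ) :
    HasDerivAt (fun t => MvPolynomial.eval (Function.update y i t) P)
      (MvPolynomial.eval y (MvPolynomial.pderiv i P)) (y i) := by
  classical
  induction P using MvPolynomial.induction_on with
  | C a =>
    simp only [MvPolynomial.eval_C, MvPolynomial.pderiv_C, map_zero]
    exact hasDerivAt_const _ _
  | add p q hp hq =>
    simp only [map_add]
    exact hp.add hq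
  | mul_X p j hp =>
    have h1 : HasDerivAt (fun t => Function.update y i t j) (if j = i then 1 else 0) (y i) := by
      by_cases hj : j = i
      · subst hj
        simp only [Function.update_self, if_true]
        exact hasDerivAt_id _
      · simp only [Function.update_of_ne hj, if_neg hj]
        exact hasDerivAt_const _ _
    have h2 := hp.mul h1
    simp only [map_mul, MvPolynomial.eval_X]
    refine h2.congr_deriv ?_
    rw [Function.update_eq_self, MvPolynomial.pderiv_mul, map_add, map_mul, map_mul, MvPolynomial.eval_X]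
    congr 1
    by_cases hj : j = i
    · subst hj
      rw [MvPolynomial.pderiv_X_self, map_one, if_pos rfl]
    · rw [MvPolynomial.pderiv_X_of_ne (fun h => hj h), map_zero, if_neg hj]

/-- the filtered algebra of polynomials, degree at most `g D` -/
def polyAl (e g : ℕ) : ℕ → Set ((Fin e → ℝ) → ℝ) :=
  fun D => {f | ∃ P : MvPolynomial (Fin e) ℝ, P.totalDegree ≤ g * D ∧ f = fun y => MvPolynomial.eval y P}

theorem polyAl_alg {e g : ℕ} (hg : 1 ≤ g) (c : Fin e → ℝ) : Alg e c (polyAl e g) where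
  const := fun a => ⟨MvPolynomial.C a, by rw [MvPolynomial.totalDegree_C]; exact Nat.zero_le _, by
    funext y; rw [MvPolynomial.eval_C]⟩
  add := by
    rintro D f g' ⟨P, hP, rfl⟩ ⟨Q, hQ, rfl⟩
    exact ⟨P + Q, (MvPolynomial.totalDegree_add _ _).trans (max_le hP hQ), by funext y; rw [map_add]⟩
  mul := by
    rintro D D' f g' ⟨P, hP, rfl⟩ ⟨Q, hQ, rfl⟩
    refine ⟨P * Q, (MvPolynomial.totalDegree_mul _ _).trans ?_, by funext y; rw [map_mul]⟩
    rw [mul_add]
    exact add_le_add hP hQ
  mono := by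
    rintro D D' h f ⟨P, hP, rfl⟩
    exact ⟨P, hP.trans (Nat.mul_le_mul_left _ h), rfl⟩
  crd := fun i => ⟨MvPolynomial.X i, by rw [MvPolynomial.totalDegree_X, mul_one]; exact hg, by
    funext y; rw [MvPolynomial.eval_X]⟩
  der := by
    rintro D f ⟨P, hP, rfl⟩ i
    refine ⟨fun y => MvPolynomial.eval y (MvPolynomial.pderiv i P), ⟨_, ?_, rfl⟩, fun y _ => ?_⟩
    · exact (totalDegree_pderiv_le i P).trans (hP.trans (Nat.mul_le_mul_left _ (Nat.le_succ _)))
    · exact hasDerivAt_pderiv i P y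

/-! ### polynomials of one variable -/

/-- Remez inequality for separated points -/
theorem poly_rem {N : ℕ} (p : Polynomial ℝ) (hp : p.natDegree ≤ N) (x : Fin (N + 1) → ℝ) (δ ε : ℝ) (hδ : 0 < δ)
    (hx : ∀ i, x i ∈ Icc (0 : ℝ) 1) (hsep : ∀ i j, i ≠ j → δ ≤ |x i - x j|) (hε : ∀ i, |p.eval (x i)| ≤ ε) (u : ℝ)
    (hu : u ∈ Icc (0 : ℝ) 1) : |p.eval u| ≤ (N + 1) * (1 / δ) ^ N * ε := by
  classical
  have hinj : Function.Injective x := by
    intro i j hij
    by_contra hne
    have := hsep i j hne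
    rw [hij, sub_self, abs_zero] at this
    linarith
  have h1 : p = Lagrange.interpolate Finset.univ x (fun i => p.eval (x i)) := by
    apply Lagrange.eq_interpolate (hinj.injOn)
    rw [Finset.card_univ, Fintype.card_fin]
    refine lt_of_le_of_lt Polynomial.degree_le_natDegree ?_
    exact_mod_cast Nat.lt_succ_of_le hp
  rw [h1, Lagrange.interpolate_apply, Polynomial.eval_finsetSum]
  refine (Finset.abs_sum_le_sum_abs _ _).trans ?_
  have h2 : ∀ i ∈ (Finset.univ : Finset (Fin (N + 1))),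
      |Polynomial.eval u (Polynomial.C (p.eval (x i)) * Lagrange.basis Finset.univ x i)| ≤ (1 / δ) ^ N * ε := by
    intro i _
    rw [Polynomial.eval_mul, Polynomial.eval_C, abs_mul, mul_comm]
    apply mul_le_mul _ (hε i) (abs_nonneg _) (by positivity)
    unfold Lagrange.basis
    rw [Polynomial.eval_prod, Finset.abs_prod]
    have h6 : ∏ j ∈ Finset.univ.erase i, |Polynomial.eval u (Lagrange.basisDivisor (x i) (x j))| ≤
        ∏ _j ∈ Finset.univ.erase i, (1 / δ) := by
      apply Finset.prod_le_prod (fun j _ => abs_nonneg _)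
      intro j hj
      have hne : j ≠ i := (Finset.mem_erase.1 hj).1
      unfold Lagrange.basisDivisor
      rw [Polynomial.eval_mul, Polynomial.eval_C, Polynomial.eval_sub, Polynomial.eval_X, Polynomial.eval_C, abs_mul,
        abs_inv]
      have h3 := hsep i j (Ne.symm hne)
      have h4 : |u - x j| ≤ 1 := by
        rw [abs_le]
        constructor <;> linarith [hu.1, hu.2, (hx j).1, (hx j).2]
      have h5 : 0 < |x i - x j| := hδ.trans_le h3
      rw [inv_mul_eq_div, div_le_div_iff₀ h5 hδ]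
      nlinarith [abs_nonneg (u - x j)]
    refine h6.trans ?_
    rw [Finset.prod_const, Finset.card_erase_of_mem (Finset.mem_univ _), Finset.card_univ, Fintype.card_fin,
      Nat.add_sub_cancel]
  refine (Finset.sum_le_sum h2).trans ?_
  rw [Finset.sum_const, Finset.card_univ, Fintype.card_fin, nsmul_eq_mul]
  push_cast
  rw [mul_assoc]

/-- a polynomial is Lipschitz on `[0,1]` -/
theorem poly_lip (p : Polynomial ℝ) : ∃ K : ℝ, 0 ≤ K ∧ ∀ u ∈ Icc (0 : ℝ) 1, ∀ u' ∈ Icc (0 : ℝ) 1,
    |p.eval u - p.eval u'| ≤ K * |u - u'| := by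
  induction p using Polynomial.induction_on' with
  | add p q hp hq =>
    obtain ⟨K, hK0, hK⟩ := hp
    obtain ⟨L, hL0, hL⟩ := hq
    refine ⟨K + L, add_nonneg hK0 hL0, fun u hu u' hu' => ?_⟩
    rw [Polynomial.eval_add, Polynomial.eval_add]
    have e1 : p.eval u + q.eval u - (p.eval u' + q.eval u') = (p.eval u - p.eval u') + (q.eval u - q.eval u') := by ring
    rw [e1, add_mul]
    exact (abs_add_le _ _).trans (add_le_add (hK u hu u' hu') (hL u hu u' hu'))
  | monomial n a =>
    refine ⟨|a| * n, by positivity, fun u hu u' hu' => ?_⟩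
    rw [Polynomial.eval_monomial, Polynomial.eval_monomial, ← mul_sub, abs_mul, mul_assoc]
    apply mul_le_mul_of_nonneg_left _ (abs_nonneg _)
    induction n with
    | zero => simp
    | succ n ih =>
      have e1 : u ^ (n + 1) - u' ^ (n + 1) = u * (u ^ n - u' ^ n) + u' ^ n * (u - u') := by ring
      rw [e1]
      refine (abs_add_le _ _).trans ?_
      rw [abs_mul, abs_mul, abs_of_nonneg hu.1, abs_of_nonneg (pow_nonneg hu'.1 n)]
      have h1 : u * |u ^ n - u' ^ n| ≤ n * |u - u'| := by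
        refine (mul_le_of_le_one_left (abs_nonneg _) hu.2).trans ih
      have h2 : u' ^ n * |u - u'| ≤ 1 * |u - u'| := mul_le_mul_of_nonneg_right (pow_le_one₀ hu'.1 hu'.2) (abs_nonneg _)
      push_cast
      linarith

/-- Bernstein inequality with some constant -/
theorem poly_bm (N : ℕ) : ∃ B : ℝ, 1 ≤ B ∧ ∀ p : Polynomial ℝ, p.natDegree ≤ N → ∀ A : ℝ,
    (∀ u ∈ Icc (0 : ℝ) 1, |p.eval u| ≤ A) → ∀ u ∈ Icc (0 : ℝ) 1, ∀ u' ∈ Icc (0 : ℝ) 1,
      |p.eval u - p.eval u'| ≤ B * |u - u'| * A := by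
  classical
  set x : Fin (N + 1) → ℝ := fun i => i / (N + 1) with hx
  have hx0 : ∀ i, x i ∈ Icc (0 : ℝ) 1 := by
    intro i
    constructor
    · simp only [hx]; positivity
    · simp only [hx]
      rw [div_le_one (by positivity)]
      have := i.2
      have h2 : ((i : ℕ) : ℝ) ≤ ((N + 1 : ℕ) : ℝ) := by exact_mod_cast this.le
      push_cast at h2
      exact h2
  have hinj : Function.Injective x := by
    intro i j hij
    simp only [hx] at hij
    have h2 : (0 : ℝ) < (N : ℝ) + 1 := by positivity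
    rw [div_left_inj' h2.ne'] at hij
    exact Fin.ext (by exact_mod_cast hij)
  choose K hK0 hK using fun i => poly_lip (Lagrange.basis Finset.univ x i)
  refine ⟨1 + ∑ i, K i, ?_, ?_⟩
  · have : 0 ≤ ∑ i, K i := Finset.sum_nonneg fun i _ => hK0 i
    linarith
  · intro p hp A hA u hu u' hu'
    have hA0 : 0 ≤ A := (abs_nonneg _).trans (hA u hu)
    have h1 : p = Lagrange.interpolate Finset.univ x (fun i => p.eval (x i)) := by
      apply Lagrange.eq_interpolate (hinj.injOn)
      rw [Finset.card_univ, Fintype.card_fin]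
      refine lt_of_le_of_lt Polynomial.degree_le_natDegree ?_
      exact_mod_cast Nat.lt_succ_of_le hp
    have h2 : ∀ v, p.eval v = ∑ i, p.eval (x i) * (Lagrange.basis Finset.univ x i).eval v := by
      intro v
      conv_lhs => rw [h1]
      rw [Lagrange.interpolate_apply, Polynomial.eval_finsetSum]
      apply Finset.sum_congr rfl
      intro i _
      rw [Polynomial.eval_mul, Polynomial.eval_C]
    rw [h2 u, h2 u', ← Finset.sum_sub_distrib]
    refine (Finset.abs_sum_le_sum_abs _ _).trans ?_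
    have h3 : ∀ i ∈ (Finset.univ : Finset (Fin (N + 1))), |p.eval (x i) * (Lagrange.basis Finset.univ x i).eval u -
        p.eval (x i) * (Lagrange.basis Finset.univ x i).eval u'| ≤ K i * |u - u'| * A := by
      intro i _
      rw [← mul_sub, abs_mul, mul_comm]
      exact mul_le_mul (hK i u hu u' hu') (hA _ (hx0 i)) (abs_nonneg _)
        (mul_nonneg (hK0 i) (abs_nonneg _))
    refine (Finset.sum_le_sum h3).trans ?_
    rw [← Finset.sum_mul, ← Finset.sum_mul]
    apply mul_le_mul_of_nonneg_right _ hA0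
    apply mul_le_mul_of_nonneg_right _ (abs_nonneg _)
    linarith

/-- Remez and Bernstein inequalities for polynomials of one variable -/
theorem seg_poly (N : ℕ) : ∃ B : ℝ, 1 ≤ B ∧ ∀ p : Polynomial ℝ, p.natDegree ≤ N →
    RemS N B (fun u => p.eval u) ∧ BmS B (fun u => p.eval u) := by
  obtain ⟨B, hB1, hB⟩ := poly_bm N
  refine ⟨max B (N + 1), le_max_of_le_left hB1, fun p hp => ⟨?_, ?_⟩⟩
  · intro x δ ε hδ hx hsep hε u hu
    have hε0 : 0 ≤ ε := (abs_nonneg _).trans (hε 0)
    refine (poly_rem p hp x δ ε hδ hx hsep hε u hu).trans ?_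
    apply mul_le_mul_of_nonneg_right _ hε0
    apply mul_le_mul_of_nonneg_right _ (by positivity)
    exact le_max_right _ _
  · intro A hA u hu u' hu'
    have hA0 : 0 ≤ A := (abs_nonneg _).trans (hA u hu)
    refine (hB p hp A hA u hu u' hu').trans ?_
    apply mul_le_mul_of_nonneg_right _ hA0
    apply mul_le_mul_of_nonneg_right _ (abs_nonneg _)
    exact le_max_left _ _

/-- segments of polynomials on `R ^ e` -/
theorem seg_mv (N e : ℕ) : ∃ B : ℝ, 1 ≤ B ∧ ∀ P : MvPolynomial (Fin e) ℝ, P.totalDegree ≤ N →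
    ∀ y z : Fin e → ℝ, RemS N B (fun u => MvPolynomial.eval (fun j => y j + u * (z j - y j)) P) ∧
      BmS B (fun u => MvPolynomial.eval (fun j => y j + u * (z j - y j)) P) := by
  obtain ⟨B, hB1, hB⟩ := seg_poly N
  refine ⟨B, hB1, fun P hP y z => ?_⟩
  have h1 : ∀ u : ℝ, MvPolynomial.eval (fun j => y j + u * (z j - y j)) P =
      (MvPolynomial.aeval (fun j => Polynomial.C (y j) + Polynomial.X * Polynomial.C (z j - y j)) P).eval u := by
    intro u
    clear hP
    induction P using MvPolynomial.induction_on with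
    | C a => simp
    | add p q hp hq => rw [map_add, map_add, Polynomial.eval_add, hp, hq]
    | mul_X p i hp =>
      rw [map_mul, map_mul, Polynomial.eval_mul, hp, MvPolynomial.eval_X, MvPolynomial.aeval_X]
      simp
  have h2 : (MvPolynomial.aeval (fun j => Polynomial.C (y j) + Polynomial.X * Polynomial.C (z j - y j))
      P).natDegree ≤ N := by
    refine (natDegree_aeval_le P _ 1 ?_).trans (by rw [one_mul]; exact hP)
    intro j
    compute_degree
  have h3 := hB _ h2
  have h4 : (fun u : ℝ => MvPolynomial.eval (fun j => y j + u * (z j - y j)) P) =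
      fun u => (MvPolynomial.aeval (fun j => Polynomial.C (y j) + Polynomial.X * Polynomial.C (z j - y j))
      P).eval u := funext h1
  rw [h4]
  exact h3

/-! ### size of a polynomial -/

theorem support_card_le {e g : ℕ} (P : MvPolynomial (Fin e) ℝ) (hP : P.totalDegree ≤ g) :
    P.support.card ≤ (g + 1) ^ e := by
  classical
  have h1 : ∀ a ∈ P.support, ∀ i, a i < g + 1 := by
    intro a ha i
    have h2 : a.sum (fun _ n => n) ≤ P.totalDegree := MvPolynomial.le_totalDegree ha
    have h3 : a i ≤ a.sum (fun _ n => n) := by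
      by_cases hi : i ∈ a.support
      · exact Finset.single_le_sum (f := fun i => a i) (fun _ _ => Nat.zero_le _) hi
      · rw [Finsupp.notMem_support_iff.1 hi]; exact Nat.zero_le _
    omega
  have h2 : (Finset.univ : Finset (Fin e → Fin (g + 1))).card = (g + 1) ^ e := by
    rw [Finset.card_univ, Fintype.card_fun, Fintype.card_fin, Fintype.card_fin]
  rw [← h2]
  apply Finset.card_le_card_of_injOn (fun a i => (⟨a i % (g + 1), Nat.mod_lt _ (Nat.succ_pos _)⟩ : Fin (g + 1)))
    (fun _ _ => Finset.mem_coe.2 (Finset.mem_univ _))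
  intro a ha b hb hab
  ext i
  have h3 := congrArg Fin.val (congrFun hab i)
  simp only at h3
  rwa [Nat.mod_eq_of_lt (h1 a ha i), Nat.mod_eq_of_lt (h1 b hb i)] at h3

theorem eval_le_of_coeff {e g : ℕ} (P : MvPolynomial (Fin e) ℝ) (hP : P.totalDegree ≤ g) (K R : ℝ) (hK : 0 ≤ K)
    (hR : 1 ≤ R) (hc : ∀ a, |P.coeff a| ≤ K) (y : Fin e → ℝ) (hy : ∀ i, |y i| ≤ R) :
    |MvPolynomial.eval y P| ≤ ((g : ℝ) + 1) ^ e * (K * R ^ g) := by
  classical
  rw [MvPolynomial.eval_eq']
  refine (Finset.abs_sum_le_sum_abs _ _).trans ?_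
  have h1 : ∀ a ∈ P.support, |P.coeff a * ∏ i, y i ^ a i| ≤ K * R ^ g := by
    intro a ha
    rw [abs_mul]
    apply mul_le_mul (hc a) _ (abs_nonneg _) hK
    rw [Finset.abs_prod]
    have h2 : ∏ i, |y i ^ a i| ≤ ∏ i, R ^ a i := by
      apply Finset.prod_le_prod (fun i _ => abs_nonneg _)
      intro i _
      rw [abs_pow]
      exact pow_le_pow_left₀ (abs_nonneg _) (hy i) _
    refine h2.trans ?_
    rw [Finset.prod_pow_eq_pow_sum]
    apply pow_le_pow_right₀ hR
    have h3 : a.sum (fun _ n => n) ≤ P.totalDegree := MvPolynomial.le_totalDegree ha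
    have h4 : a.sum (fun _ n => n) = ∑ i, a i := Finsupp.sum_fintype _ _ (fun _ => rfl)
    omega
  refine (Finset.sum_le_sum h1).trans ?_
  rw [Finset.sum_const, nsmul_eq_mul]
  apply mul_le_mul_of_nonneg_right _ (by positivity)
  exact_mod_cast support_card_le P hP

end

end Pool.Agent.Helper84.MT
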