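import Pool.Agent.Helper84.MT.Canf
import Pool.Agent.Helper84.MT.Vol
import Pool.Agent.Helper84.MT.Seg
import Pool.Agent.Helper56.MT.M3

/-! MULTI-TYPE LAYER: systems of leaves. A point `Q` in `R ^ M` with a finite family of types of algebraic leaves through
it; windows; labels `kappa_c`; the gauge of forms of degree at most `D`; canonical forms; volume; the statement
`ST(M; g, iota)`. -/

set_option autoImplicit false

namespace Pool.Agent.Helper84.MT

open Finset Filter Topology Matrix Pool.Agent.Helper69.RK Pool.Agent.Helper31.EC Pool.Agent.Helper31.EC.Sp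
open Pool.Agent.Helper40.EL Pool.Agent.Helper89.LX Pool.Agent.Helper3.LF
open Pool.Agent.Helper95.LF (PdM)

noncomputable section

/-- A TYPE OF LEAVES of the point `Q`, with the Remez exponents `E`. Given the partition `La` (the leaf; it may have any
number of cells) the parameter `Y` fills a cube of dimension `e`, and the point is the value at `Y` of a chart `F`, which
is a function of the leaf, up to the finest resolution. The chart is bounded on the ball of radius one (sup norm) about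
`Y`, its coordinates have degree one in a filtered differential algebra `al` of functions on this ball, and along every
segment of the ball functions of degree `D` obey the Remez inequality with the exponent `E D`, and the Bernstein
inequality, with tame constants. Fat leaves, boxes with tilts, graphs over boxes, lines, curves, analytic branches of
algebraic leaves are all of this form. -/
structure Leaf (S : Sp) {M : ℕ} (Q : S.VV M) (E : ℕ → ℕ) where
  e : ℕ
  he : e ≤ E 0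
  La : ∀ k, Setoid (S.F k).Ω
  Y : S.VV e
  F : ∀ k, (S.F k).Ω → (Fin e → ℝ) → Fin M → ℝ
  fn : ∀ᶠ k in UF, ∀ ω ω', (S.F k).μ ω ≠ 0 → (S.F k).μ ω' ≠ 0 → (S.F k).Z ω ω' → La k ω ω' → F k ω = F k ω'
  bd : ∃ K : ℕ → ℝ, S.Sub K ∧ ∀ᶠ k in UF, ∀ ω, (S.F k).μ ω ≠ 0 → ∀ y : Fin e → ℝ, (∀ i, |y i - Y.v k ω i| ≤ 1) →
    ∀ j, |F k ω y j| ≤ K k
  al : ∀ k, (S.F k).Ω → ℕ → Set ((Fin e → ℝ) → ℝ)
  alg : ∀ᶠ k in UF, ∀ ω, (S.F k).μ ω ≠ 0 → Alg e (Y.v k ω) (al k ω)
  crF : ∀ᶠ k in UF, ∀ ω, (S.F k).μ ω ≠ 0 → ∀ j, (fun y => F k ω y j) ∈ al k ω 1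
  seg : ∀ D : ℕ, ∃ K : ℕ → ℝ, S.Sub K ∧ ∀ᶠ k in UF, ∀ ω, (S.F k).μ ω ≠ 0 → ∀ f ∈ al k ω D, ∀ y z : Fin e → ℝ,
    (∀ i, |y i - Y.v k ω i| ≤ 1) → (∀ i, |z i - Y.v k ω i| ≤ 1) →
    RemS (E D) (K k) (fun u => f (fun i => y i + u * (z i - y i))) ∧
      BmS (K k) (fun u => f (fun i => y i + u * (z i - y i)))
  pt : ∃ K : ℕ → ℝ, S.Sub K ∧ ∀ᶠ k in UF, ∀ ω, (S.F k).μ ω ≠ 0 → ∀ i,
    |Q.v k ω i - F k ω (Y.v k ω) i| ≤ K k * S.dl 1 k
  full : Tendsto (fun k => h (fc (Setoid.ker (Y.cellv 1 k))) (fc (La k)) / (S.F k).n) UF (𝓝 e)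

/-- A SYSTEM OF LEAVES in `R ^ M`, with Remez exponents `E`, with types `iota` -/
structure MSys (S : Sp) (M : ℕ) (E : ℕ → ℕ) (ι : Type) where
  Q : S.VV M
  lf : ι → Leaf S Q E

variable {S : Sp} {M : ℕ} {E : ℕ → ℕ} {ι : Type}

/-- linear Remez exponents: `g (D + 1)` for polynomials of degree `D` -/
def lin (g : ℕ) : ℕ → ℕ := fun D => g * (D + 1)

/-- POLYNOMIAL LEAVES: a polynomial map of degree at most `g` with tame coefficients -/
def Leaf.ofPoly {Q : S.VV M} (g : ℕ) (hg : 1 ≤ g) (e : ℕ) (he : e ≤ g) (La : ∀ k, Setoid (S.F k).Ω) (Y : S.VV e)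
    (G : ∀ k, (S.F k).Ω → Fin M → MvPolynomial (Fin e) ℝ) (deg : ∀ k ω i, (G k ω i).totalDegree ≤ g)
    (fn : ∀ᶠ k in UF, ∀ ω ω', (S.F k).μ ω ≠ 0 → (S.F k).μ ω' ≠ 0 → (S.F k).Z ω ω' → La k ω ω' → G k ω = G k ω')
    (bd : ∃ K : ℕ → ℝ, S.Sub K ∧ ∀ᶠ k in UF, ∀ ω, (S.F k).μ ω ≠ 0 → ∀ i a, |(G k ω i).coeff a| ≤ K k)
    (pt : ∃ K : ℕ → ℝ, S.Sub K ∧ ∀ᶠ k in UF, ∀ ω, (S.F k).μ ω ≠ 0 → ∀ i,
      |Q.v k ω i - MvPolynomial.eval (Y.v k ω) (G k ω i)| ≤ K k * S.dl 1 k)
    (full : Tendsto (fun k => h (fc (Setoid.ker (Y.cellv 1 k))) (fc (La k)) / (S.F k).n) UF (𝓝 e)) :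
    Leaf S Q (lin g) where
  e := e
  he := by rw [lin]; omega
  La := La
  Y := Y
  F := fun k ω y i => MvPolynomial.eval y (G k ω i)
  fn := by
    filter_upwards [fn] with k hk ω ω' h1 h2 h3 h4
    rw [hk ω ω' h1 h2 h3 h4]
  bd := by
    obtain ⟨K, hK, hb⟩ := bd
    obtain ⟨L, hL, hY⟩ := Y.bd
    refine ⟨fun k => ((g : ℝ) + 1) ^ e * (K k * (L k + 2) ^ g), ?_, ?_⟩
    · have h0 : (0 : ℝ) ≤ ((g : ℝ) + 1) ^ e := by positivity
      exact (S.Sub_const h0).mul (hK.mul (Sub_pow' (hL.add (S.Sub_const (by norm_num))) _))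
    · filter_upwards [hb, hY, hK.1, hL.1] with k h1 h2 hK0 hL0 ω hω y hy j
      exact eval_le_of_coeff (G k ω j) (deg k ω j) (K k) (L k + 2) hK0 (by linarith) (h1 ω hω j) y (fun i => by
        have h3 := h2 ω hω i
        have h4 := hy i
        have h5 : |y i| ≤ |y i - Y.v k ω i| + |Y.v k ω i| := by
          have := abs_add_le (y i - Y.v k ω i) (Y.v k ω i)
          rwa [sub_add_cancel] at this
        linarith)
  al := fun _ _ => polyAl e g
  alg := Eventually.of_forall fun k ω _ => polyAl_alg hg _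
  crF := Eventually.of_forall fun k ω _ j => ⟨G k ω j, by rw [mul_one]; exact deg k ω j, rfl⟩
  seg := by
    intro D
    obtain ⟨B, hB1, hB⟩ := seg_mv (g * D) e
    refine ⟨fun _ => B, S.Sub_const (by linarith), Eventually.of_forall fun k ω _ f hf y z _ _ => ?_⟩
    obtain ⟨P, hP, rfl⟩ := hf
    exact ⟨(hB P hP y z).1.mono (Nat.mul_le_mul_left _ (Nat.le_succ _)) (by linarith) le_rfl, (hB P hP y z).2⟩
  pt := pt
  full := full

/-- the WINDOW `c` of a type: the leaf and the cell of level `c` of the parameter -/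
def Leaf.win {Q : S.VV M} (l : Leaf S Q E) (c : ℝ) : Part S := fun k => fc (l.La k ⊓ Setoid.ker (l.Y.cellv c k))

/-- the point as a condition -/
def pcd (Q : S.VV M) : Part S := fun k => fc (Setoid.ker (Q.cellv 1 k))

/-- the CONDITIONS of the window `c`: the point and the windows `c` of all types -/
def MSys.cnd (s : MSys S M E ι) (c : ℝ) : Option ι → Part S
  | none => pcd s.Q
  | some i => (s.lf i).win c

/-- labels of the window `c`: no leak at the point and at the window `c` of every type -/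
def MSys.DMc (s : MSys S M E ι) (c : ℝ) (l : Lab S) : Prop := l.DMf (s.cnd c)

/-- `l` is a label `kappa_c` -/
def MSys.IsKap (s : MSys S M E ι) (c : ℝ) (l : Lab S) : Prop := l.IsMaxf (s.cnd c)

theorem pcd_rp (Q : S.VV M) : PLe (rp (Q.dg 1)) (pcd Q) ∧ PLe (pcd Q) (rp (Q.dg 1)) := by
  have h1 : pcd Q = rpI (Q.bdd 1).toInf := rfl
  have h2 : Q.dg 1 = cl (Q.bdd 1).toInf := io_eq (Q.bdd 1)
  rw [h1, h2]
  exact rp_rpI _

theorem pcd_Bd (Q : S.VV M) : (pcd Q).Bd := rpI_Bd (Q.bdd 1).toInf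

theorem MSys.exists_kap [Countable ι] (s : MSys S M E ι) (c : ℝ) : ∃ l : Lab S, s.IsKap c l :=
  Lab.exists_maxf (s.cnd c) (i₀ := none) (pcd_Bd s.Q)

/-- a label `kappa_c` -/
def MSys.kap [Countable ι] (s : MSys S M E ι) (c : ℝ) : Lab S := (s.exists_kap c).choose

theorem MSys.kap_isKap [Countable ι] (s : MSys S M E ι) (c : ℝ) : s.IsKap c (s.kap c) := (s.exists_kap c).choose_spec

/-! ### the gauge of forms of degree at most `D` at a point of `R ^ M` -/

/-- the gauge: `phi` on the cell of the point -/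
def gaq (Q : S.VV M) (D : ℕ) : Gau S (Mon M D) where
  φ := fun k ω A => phi (S.dl 1 k) A (Q.v k ω)
  add := fun k ω A B => phi_add _ A B _
  nn := fun k ω A hA => phi_nonneg _ hA.2 _
  C := 2 * D + 1
  C0 := by positivity
  cap := by
    obtain ⟨C, hC0, hC⟩ := exists_cap M D
    obtain ⟨K, hK, hb⟩ := Q.bd
    have hs : S.Sub (fun k => C * (K k + 1) ^ (2 * D)) :=
      (S.Sub_const hC0).mul (Sub_pow' (hK.add (S.Sub_const zero_le_one)) _)
    filter_upwards [hb, hs.eventually_le one_pos, hK.1] with k h1 h2 hK0 ω hω A hA x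
    have hd := S.dl_pos 1 k
    have hd1 := dl_one_le S k
    have hR : 1 ≤ (K k + 1) * (S.dl 1 k)⁻¹ := by
      have := (one_le_inv₀ hd).mpr hd1
      nlinarith
    have h3 := hC A hA (S.dl 1 k) ((K k + 1) * (S.dl 1 k)⁻¹) (Q.v k ω) hd hR (by
      intro i
      rw [mul_assoc, inv_mul_cancel₀ hd.ne', mul_one]
      have := h1 ω hω i
      linarith) x
    refine h3.trans ?_
    apply mul_le_mul_of_nonneg_right _ (dot_self_nonneg x)
    apply mul_le_mul_of_nonneg_right _ (phi_nonneg _ (fun y => hA.nonneg y) _)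
    rw [inv_dl_one, mul_pow]
    have e1 : ((2 : ℝ) ^ ((S.F k).n)) ^ (2 * D) = 2 ^ (2 * D * (S.F k).n) := by
      rw [← Real.rpow_natCast, ← Real.rpow_mul (by norm_num)]
      congr 1
      push_cast
      ring
    rw [e1, add_mul, Real.rpow_add (by norm_num), ← mul_assoc, mul_comm]
    apply mul_le_mul_of_nonneg_left _ (by positivity)
    linarith
  one := by
    obtain ⟨K, hK, hb⟩ := Q.bd
    refine ⟨fun k => nn M D * Fintype.card (Mon M D) * (K k + 1) ^ (2 * D), ?_, ?_⟩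
    · have h0 : (0 : ℝ) ≤ nn M D * Fintype.card (Mon M D) := by
        have := nn_one M D
        positivity
      exact (S.Sub_const h0).mul (Sub_pow' (hK.add (S.Sub_const zero_le_one)) _)
    · filter_upwards [hb, hK.1] with k h1 hK0 ω hω
      have h2 := phi_le (1 : Matrix (Mon M D) (Mon M D) ℝ) 1 (fun x => by
        rw [Matrix.one_mulVec, one_mul]) zero_le_one (S.dl 1 k) (K k + 1) (S.dl_pos 1 k).le (by linarith)
        (Q.v k ω) (fun i => add_le_add (h1 ω hω i) (dl_one_le S k))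
      rw [mul_one] at h2
      exact h2

/-- CANONICAL FORM of the window `c`: one label `kappa_c` which carries an optimal form -/
def MSys.IsCan (s : MSys S M E ι) (D : ℕ) (c : ℝ) (x : ∀ k, FD (S.F k) (Mon M D)) : Prop :=
  (gaq s.Q D).Optf (s.cnd c) x ∧ s.IsKap c (fun k => (x k).l)

theorem MSys.exists_can [Finite ι] (s : MSys S M E ι) (D : ℕ) (c : ℝ) : ∃ x, s.IsCan D c x :=
  (gaq s.Q D).exists_kapf (s.cnd c) (i₀ := none) (pcd_Bd s.Q)

/-- the VOLUME (rate) of the hull of a label with a form: `M - E log GQ_A(Q) / (2 n)` -/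
def vol (Q : S.VV M) (D : ℕ) (x : ∀ k, FD (S.F k) (Mon M D)) : ℝ :=
  M - ul (fun k => ∑ ω, (x k).l.T.μ ω *
    (Real.logb 2 (GQ (S.dl 1 k) ((x k).g ω) (Q.v k ((x k).l.p.π ω))) / (2 * (S.F k).n)))

/-- `ST(D; M; E, iota)`: over `kappa_0` the point fills the hull of degree `D` -/
def STm (D M : ℕ) (E : ℕ → ℕ) (ι : Type) : Prop :=
  ∀ (S : Sp) (s : MSys S M E ι) (x : ∀ k, FD (S.F k) (Mon M D)), s.IsCan D 0 x →
    vol s.Q D x ≤ H (up1 (fun k => (x k).l) (s.Q.dg 1))

/-- `ST(M)`: for every complexity and every finite family of types, for all large degrees of the hull -/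
def ST (M : ℕ) : Prop := ∀ (g r : ℕ), ∃ D₁ : ℕ, ∀ D, D₁ ≤ D → STm D M (lin g) (Fin r)

end

end Pool.Agent.Helper84.MT
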