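import Pool.Agent.Helper84.MT.Def

/-! MULTI-TYPE LAYER: systems of lines are systems of leaves with one type. -/

set_option autoImplicit false

namespace Pool.Agent.Helper84.MT

open Finset Filter Topology Matrix Pool.Agent.Helper69.RK Pool.Agent.Helper31.EC Pool.Agent.Helper31.EC.Sp
open Pool.Agent.Helper40.EL Pool.Agent.Helper89.LX Pool.Agent.Helper3.LF
open Pool.Agent.Helper95.LF (PdM)

noncomputable section

variable {S : Sp} {m : ℕ}

/-- the point `(t, P)` of a system of lines -/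
def lQ (s : Sys S m) : S.VV (m + 1) := ⟨fun k ω => ptf s k ω, ptf_bd s⟩

/-- a number rounded down to a multiple of `δ` -/
def rnd (δ y : ℝ) : ℝ := δ * ⌊y / δ⌋

theorem rnd_le {δ : ℝ} (hδ : 0 < δ) (y : ℝ) : |y - rnd δ y| ≤ δ := by
  unfold rnd
  have h1 := Int.floor_le (y / δ)
  have h2 := Int.lt_floor_add_one (y / δ)
  rw [le_div_iff₀ hδ] at h1
  rw [div_lt_iff₀ hδ] at h2
  rw [abs_le]
  constructor <;> nlinarith

theorem rnd_abs {δ : ℝ} (hδ : 0 < δ) (hδ1 : δ ≤ 1) (y : ℝ) : |rnd δ y| ≤ |y| + 1 := by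
  have h1 := rnd_le hδ y
  have h2 : |rnd δ y| ≤ |y| + |y - rnd δ y| := by
    have := abs_sub_abs_le_abs_sub (rnd δ y) y
    rw [abs_sub_comm] at this
    linarith
  linarith

/-- the polynomials of a line -/
def lF (s : Sys S m) (k : ℕ) (ω : (S.F k).Ω) : Fin (m + 1) → MvPolynomial (Fin 1) ℝ :=
  Fin.cons (MvPolynomial.X 0) fun j => MvPolynomial.C (rnd (S.dl 1 k) (s.a.v k ω j)) +
    MvPolynomial.C (rnd (S.dl 1 k) (s.x.v k ω j)) * MvPolynomial.X 0

theorem lF_zero (s : Sys S m) (k : ℕ) (ω : (S.F k).Ω) : lF s k ω 0 = MvPolynomial.X 0 := rfl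

theorem lF_succ (s : Sys S m) (k : ℕ) (ω : (S.F k).Ω) (j : Fin m) : lF s k ω j.succ =
    MvPolynomial.C (rnd (S.dl 1 k) (s.a.v k ω j)) +
    MvPolynomial.C (rnd (S.dl 1 k) (s.x.v k ω j)) * MvPolynomial.X 0 := rfl

theorem rnd_of_cell {δ : ℝ} {y z : Fin m → ℝ} (h : cell δ y = cell δ z) (j : Fin m) : rnd δ (y j) = rnd δ (z j) := by
  have := congrFun h j
  unfold cell at this
  unfold rnd
  rw [this]

theorem lF_deg (s : Sys S m) (k : ℕ) (ω : (S.F k).Ω) (i : Fin (m + 1)) : (lF s k ω i).totalDegree ≤ 1 := by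
  induction i using Fin.cases with
  | zero =>
    rw [lF_zero]
    exact (MvPolynomial.totalDegree_X (R := ℝ) (0 : Fin 1)).le
  | succ j =>
    rw [lF_succ]
    refine (MvPolynomial.totalDegree_add _ _).trans (max_le ?_ ?_)
    · rw [MvPolynomial.totalDegree_C]
      exact Nat.zero_le _
    · refine (MvPolynomial.totalDegree_mul _ _).trans ?_
      rw [MvPolynomial.totalDegree_C, MvPolynomial.totalDegree_X]

theorem lF_fn (s : Sys S m) (k : ℕ) (ω ω' : (S.F k).Ω) (h1 : s.a.cellv 1 k ω = s.a.cellv 1 k ω')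
    (h2 : s.x.cellv 1 k ω = s.x.cellv 1 k ω') : lF s k ω = lF s k ω' := by
  funext i
  induction i using Fin.cases with
  | zero => rw [lF_zero, lF_zero]
  | succ j => rw [lF_succ, lF_succ, rnd_of_cell h1 j, rnd_of_cell h2 j]

theorem coeff_le_aux (b : Fin 1 →₀ ℕ) (u v A B : ℝ) (h1 : |u| ≤ A) (h2 : |v| ≤ B) :
    |(MvPolynomial.C u + MvPolynomial.C v * MvPolynomial.X (0 : Fin 1) : MvPolynomial (Fin 1) ℝ).coeff b| ≤
      A + B := by
  rw [MvPolynomial.coeff_add, MvPolynomial.coeff_C, MvPolynomial.coeff_C_mul, MvPolynomial.coeff_X]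
  have hA : 0 ≤ A := (abs_nonneg _).trans h1
  have hB : 0 ≤ B := (abs_nonneg _).trans h2
  refine (abs_add_le _ _).trans (add_le_add ?_ ?_)
  · split_ifs
    · exact h1
    · rw [abs_zero]; exact hA
  · split_ifs
    · rw [mul_one]; exact h2
    · rw [mul_zero, abs_zero]; exact hB

theorem lF_bd (s : Sys S m) : ∃ K : ℕ → ℝ, S.Sub K ∧ ∀ᶠ k in UF, ∀ ω, (S.F k).μ ω ≠ 0 → ∀ i a,
    |(lF s k ω i).coeff a| ≤ K k := by
  obtain ⟨Ka, hKa, ha⟩ := s.a.bd
  obtain ⟨Kx, hKx, hx⟩ := s.x.bd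
  refine ⟨fun k => (Ka k + 1) + (Kx k + 1) + 1, ((hKa.add (S.Sub_const zero_le_one)).add
    (hKx.add (S.Sub_const zero_le_one))).add (S.Sub_const zero_le_one), ?_⟩
  filter_upwards [ha, hx, hKa.1, hKx.1] with k h1 h2 h3 h4 ω hω i b
  have hd := S.dl_pos 1 k
  have hd1 := dl_one_le S k
  induction i using Fin.cases with
  | zero =>
    rw [lF_zero, MvPolynomial.coeff_X]
    split_ifs
    · rw [abs_one]; linarith
    · rw [abs_zero]; linarith
  | succ j =>
    rw [lF_succ]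
    have e1 := (rnd_abs hd hd1 (s.a.v k ω j)).trans (add_le_add (h1 ω hω j) le_rfl)
    have e2 := (rnd_abs hd hd1 (s.x.v k ω j)).trans (add_le_add (h2 ω hω j) le_rfl)
    have e3 := coeff_le_aux b _ _ _ _ e1 e2
    linarith

theorem lF_pt (s : Sys S m) : ∃ K : ℕ → ℝ, S.Sub K ∧ ∀ᶠ k in UF, ∀ ω, (S.F k).μ ω ≠ 0 → ∀ i,
    |(lQ s).v k ω i - MvPolynomial.eval (s.t.v k ω) (lF s k ω i)| ≤ K k * S.dl 1 k := by
  obtain ⟨Kt, hKt, ht⟩ := s.t.bd
  refine ⟨fun k => Kt k + 1, hKt.add (S.Sub_const zero_le_one), ?_⟩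
  filter_upwards [ht, hKt.1] with k h1 h2 ω hω i
  have hd := S.dl_pos 1 k
  induction i using Fin.cases with
  | zero =>
    rw [lF_zero, MvPolynomial.eval_X]
    have e1 : (lQ s).v k ω 0 = s.t.v k ω 0 := rfl
    rw [e1, sub_self, abs_zero]
    positivity
  | succ j =>
    rw [lF_succ, map_add, map_mul, MvPolynomial.eval_C, MvPolynomial.eval_C, MvPolynomial.eval_X]
    have e1 : (lQ s).v k ω j.succ = s.a.v k ω j + s.t.v k ω 0 * s.x.v k ω j := rfl
    rw [e1]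
    have e2 := rnd_le hd (s.a.v k ω j)
    have e3 := rnd_le hd (s.x.v k ω j)
    have e4 := h1 ω hω 0
    have e5 : s.a.v k ω j + s.t.v k ω 0 * s.x.v k ω j - (rnd (S.dl 1 k) (s.a.v k ω j) +
        rnd (S.dl 1 k) (s.x.v k ω j) * s.t.v k ω 0) = (s.a.v k ω j - rnd (S.dl 1 k) (s.a.v k ω j)) +
        s.t.v k ω 0 * (s.x.v k ω j - rnd (S.dl 1 k) (s.x.v k ω j)) := by ring
    rw [e5]
    refine (abs_add_le _ _).trans ?_
    rw [abs_mul]
    have e6 : |s.t.v k ω 0| * |s.x.v k ω j - rnd (S.dl 1 k) (s.x.v k ω j)| ≤ Kt k * S.dl 1 k :=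
      mul_le_mul e4 e3 (abs_nonneg _) h2
    linarith

/-- the line as a partition -/
def lLa (s : Sys S m) : ∀ k, Setoid (S.F k).Ω := fun k => Setoid.ker (s.a.cellv 1 k) ⊓ Setoid.ker (s.x.cellv 1 k)

theorem lF_full (s : Sys S m) : Tendsto (fun k => h (fc (Setoid.ker (s.t.cellv 1 k))) (fc (lLa s k)) / (S.F k).n) UF
    (𝓝 ((1 : ℕ) : ℝ)) := by
  have h1 : UB (S.rt (fun k => Setoid.ker (s.t.cellv 1 k)) (lLa s)) := UB_rt (s.t.bdd 1).toInf _
  have h2 := ul_tendsto h1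
  have h3 : ul (S.rt (fun k => Setoid.ker (s.t.cellv 1 k)) (lLa s)) = 1 := by
    have h4 := s.ht
    have e1 : s.t.dg 1 = cl (s.t.bdd 1).toInf := io_eq (s.t.bdd 1)
    have e2 : s.a.dg 1 = cl (s.a.bdd 1).toInf := io_eq (s.a.bdd 1)
    have e3 : s.x.dg 1 = cl (s.x.bdd 1).toInf := io_eq (s.x.bdd 1)
    rw [e1, e2, e3, ← cl_sup, h_cl] at h4
    exact h4
  rw [h3] at h2
  rw [Nat.cast_one]
  refine h2.congr fun k => ?_
  rw [h_fc]
  rfl

/-- the type of a system of lines -/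
def lLeaf (s : Sys S m) : Leaf S (lQ s) (lin 1) :=
  Leaf.ofPoly 1 le_rfl 1 le_rfl (lLa s) s.t (fun k ω => lF s k ω) (fun k ω i => lF_deg s k ω i)
    (Eventually.of_forall fun k ω ω' _ _ _ h => lF_fn s k ω ω' h.1 h.2) (lF_bd s) (lF_pt s) (lF_full s)

/-- a system of lines as a system of leaves -/
def ofSys (s : Sys S m) : MSys S (m + 1) (lin 1) (Fin 1) := ⟨lQ s, fun _ => lLeaf s⟩

theorem win_eq_k (s : Sys S m) (c : ℝ) (k : ℕ) : (lLeaf s).win c k = cA s c k := rfl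

theorem win_eq (s : Sys S m) (c : ℝ) : (lLeaf s).win c = cA s c := funext (win_eq_k s c)

theorem pcd_le (s : Sys S m) : pcd (lQ s) = cB s := by
  funext k
  show fc _ = fc _
  congr 1
  ext ω ω'
  constructor
  · intro h
    have h1 : cell (S.dl 1 k) (ptf s k ω) = cell (S.dl 1 k) (ptf s k ω') := h
    constructor
    · show cell ((s.fin k).dl 1) ((s.fin k).P ω) = cell ((s.fin k).dl 1) ((s.fin k).P ω')
      funext j
      exact congrFun h1 j.succ
    · show cell ((s.fin k).dl 1) (s.t.v k ω) = cell ((s.fin k).dl 1) (s.t.v k ω')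
      funext j
      rw [Subsingleton.elim j 0]
      exact congrFun h1 0
  · intro h
    have h1 : cell ((s.fin k).dl 1) ((s.fin k).P ω) = cell ((s.fin k).dl 1) ((s.fin k).P ω') := h.1
    have h2 : cell ((s.fin k).dl 1) (s.t.v k ω) = cell ((s.fin k).dl 1) (s.t.v k ω') := h.2
    show cell (S.dl 1 k) (ptf s k ω) = cell (S.dl 1 k) (ptf s k ω')
    funext i
    refine Fin.cases ?_ (fun j => ?_) i
    · exact congrFun h2 0
    · exact congrFun h1 j

/-- the labels of the window `c` of a system of lines -/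
theorem DMc_iff_ofSys (s : Sys S m) (c : ℝ) (l : Lab S) : (ofSys s).DMc c l ↔ DMc s c l := by
  constructor
  · intro h
    have h1 := h (some 0)
    have h2 := h none
    refine ⟨?_, ?_⟩
    · rw [← win_eq]; exact h1
    · rw [← pcd_le]; exact h2
  · rintro ⟨h1, h2⟩ i
    rcases i with _ | i
    · show Nul S (fun k => (l k).leak (pcd (lQ s) k))
      rw [pcd_le]; exact h2
    · show Nul S (fun k => (l k).leak ((lLeaf s).win c k))
      rw [win_eq]; exact h1

theorem IsKap_iff_ofSys (s : Sys S m) (c : ℝ) (l : Lab S) : (ofSys s).IsKap c l ↔ IsKap s c l := by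
  constructor
  · intro h
    exact ⟨(DMc_iff_ofSys s c l).1 h.1, fun l' h' => h.2 l' ((DMc_iff_ofSys s c l').2 h')⟩
  · intro h
    exact ⟨(DMc_iff_ofSys s c l).2 h.1, fun l' h' => h.2 l' ((DMc_iff_ofSys s c l').1 h')⟩

end

end Pool.Agent.Helper84.MT
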