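import Pool.Agent.Helper84.MT.Def
import Pool.Agent.Helper49.MT.Add
import Pool.Agent.Helper49.MT.Pb

/-! MULTI-TYPE LAYER: systems of leaves in extensions and on events of extensions. -/

set_option autoImplicit false

namespace Pool.Agent.Helper84.MT

open Finset Filter Topology Matrix Pool.Agent.Helper69.RK Pool.Agent.Helper31.EC Pool.Agent.Helper31.EC.Sp
open Pool.Agent.Helper40.EL Pool.Agent.Helper89.LX Pool.Agent.Helper3.LF
open Pool.Agent.Helper95.LF (PdM)

noncomputable section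

variable {S T : Sp} {M : ℕ} {E : ℕ → ℕ} {ι : Type}

/-! ### entropy of the digits of a vector given a partition -/

theorem vv_cellv (p : Pj T S) {e : ℕ} (Y : S.VV e) (r : ℝ) (k : ℕ) :
    (p.vv Y).cellv r k = fun ω => Y.cellv r k (p.π k ω) := by
  funext ω
  unfold VV.cellv Sp.dl
  rw [p.hn k]
  rfl

theorem h_vv (p : Pj T S) {e : ℕ} (Y : S.VV e) (r : ℝ) (A : ∀ k, Setoid (S.F k).Ω) (k : ℕ) :
    h (fc (Setoid.ker ((p.vv Y).cellv r k))) (fc (Setoid.comap (p.π k) (A k))) / (T.F k).n =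
      h (fc (Setoid.ker (Y.cellv r k))) (fc (A k)) / (S.F k).n := by
  rw [p.hn k, vv_cellv]
  congr 1
  exact (p.fp k).h_map (fc (Setoid.ker (Y.cellv r k))) (fc (A k))

/-- the entropy of the digits is at most `e r` -/
theorem h_cell_le {e : ℕ} (Y : S.VV e) {r : ℝ} (hr : 0 ≤ r) (A : ∀ k, FL (S.F k)) (ε : ℝ) (hε : 0 < ε) :
    ∀ᶠ k in UF, h (fc (Setoid.ker (Y.cellv r k))) (A k) / (S.F k).n ≤ e * r + ε := by
  have h1 := Y.H_dg_le hr
  have h2 : Y.dg r = cl (Y.bdd r).toInf := io_eq (Y.bdd r)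
  rw [h2, H_cl] at h1
  have h3 : UB (S.rt (Y.bdd r).toInf.1 S.tr) := UB_rt (Y.bdd r).toInf _
  have h4 := ul_tendsto h3
  have h5 : ul (S.rt (Y.bdd r).toInf.1 S.tr) < e * r + ε := by linarith
  filter_upwards [h4.eventually (gt_mem_nhds h5)] with k hk
  refine le_trans ?_ hk.le
  unfold Sp.rt
  apply div_le_div_of_nonneg_right _ (S.F k).pos.le
  refine (h_le_H _ _).trans ?_
  rw [H_fc]
  apply le_of_eq
  apply (S.F k).e_congr_right
  intro ω ω' _ _
  exact ⟨fun h => ⟨trivial, h⟩, fun h => h.2⟩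

/-- full digits stay full on events of extensions -/
theorem full_im (p : Pj T S) (A : ∀ k, (T.F k).Ω → Prop) (hA : 0 < ul (T.pr A)) {e : ℕ} (Y : S.VV e) {r : ℝ}
    (hr : 0 ≤ r) (B : ∀ k, FL (S.F k))
    (hB : Tendsto (fun k => h (fc (Setoid.ker (Y.cellv r k))) (B k) / (S.F k).n) UF (𝓝 (e * r))) :
    Tendsto (fun k => h (fc (Setoid.ker ((Y.im p A).cellv r k))) (FSp.imap (p.fp k) (A k) (B k)) /
      ((Sp.im p A).F k).n) UF (𝓝 (e * r)) := by
  set x : ℕ → ℝ := fun k => h (fc (Setoid.ker ((Y.im p A).cellv r k))) (FSp.imap (p.fp k) (A k) (B k)) /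
      ((Sp.im p A).F k).n with hx
  set y : ℕ → ℝ := fun k => h ((T.F k).rmap (fun ω => ¬ A k ω) (fc (Setoid.ker ((p.vv Y).cellv r k))))
      ((T.F k).rmap (fun ω => ¬ A k ω) ((p.fp k).map (B k))) / (T.F k).n with hy
  have hx0 : ∀ k, 0 ≤ x k := fun k => div_nonneg (h_nonneg _ _) ((Sp.im p A).F k).pos.le
  have hx1 : ∀ ε : ℝ, 0 < ε → ∀ᶠ k in UF, x k ≤ e * r + ε := fun ε hε =>
    h_cell_le (Y.im p A) hr (fun k => FSp.imap (p.fp k) (A k) (B k)) ε hε
  have hy1 : ∀ ε : ℝ, 0 < ε → ∀ᶠ k in UF, y k ≤ e * r + ε := fun ε hε =>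
    h_cell_le ((p.vv Y).rest (fun k ω => ¬ A k ω)) hr (fun k => (T.F k).rmap (fun ω => ¬ A k ω)
      ((p.fp k).map (B k))) ε hε
  have hxB : UB x := by
    refine ⟨e * r + 1, ?_⟩
    filter_upwards [hx1 1 one_pos] with k hk
    rw [abs_of_nonneg (hx0 k)]
    exact hk
  have hxt := ul_tendsto hxB
  have h1 : ul x ≤ e * r := by
    apply le_of_forall_pos_le_add
    intro ε hε
    exact ul_le_const hxB (hx1 ε hε)
  have h2 : e * r ≤ ul x := by
    have hpt := ul_tendsto (UB_pr (S := T) A)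
    have key : ∀ ε : ℝ, 0 < ε → e * r ≤ ul (T.pr A) * ul x + (1 - ul (T.pr A)) * (e * r + ε) := by
      intro ε hε
      have h3 : Tendsto (fun k => T.pr A k * x k + (1 - T.pr A k) * (e * r + ε) + 1 / (T.F k).n) UF
          (𝓝 (ul (T.pr A) * ul x + (1 - ul (T.pr A)) * (e * r + ε) + 0)) :=
        ((hpt.mul hxt).add ((tendsto_const_nhds.sub hpt).mul tendsto_const_nhds)).add (T.div_n_tendsto 1)
      rw [add_zero] at h3
      refine le_of_tendsto_of_tendsto hB h3 ?_
      filter_upwards [hy1 ε hε] with k hk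
      have h4 := ((T.F k).h_rsplit (A k) (fc (Setoid.ker ((p.vv Y).cellv r k))) ((p.fp k).map (B k))).2
      have e1 : h ((T.F k).rmap (A k) (fc (Setoid.ker ((p.vv Y).cellv r k)))) ((T.F k).rmap (A k) ((p.fp k).map (B k)))
          = x k * (T.F k).n := by
        have e2 : (T.F k).rmap (A k) ((p.fp k).map (B k)) =
            (FSp.imp (p.fp k) (A k)).map (FSp.imap (p.fp k) (A k) (B k)) := (FSp.imp_imap _ _ _).symm
        have e3 : (T.F k).rmap (A k) (fc (Setoid.ker ((p.vv Y).cellv r k))) =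
            (FSp.imp (p.fp k) (A k)).map (fc (Setoid.ker ((Y.im p A).cellv r k))) := by
          rw [vv_cellv]
          rfl
        rw [e2, e3, FPj.h_map]
        show _ = h _ _ / ((Sp.im p A).F k).n * (T.F k).n
        have e4 : ((Sp.im p A).F k).n = (T.F k).n := (p.hn k).symm
        rw [e4, div_mul_cancel₀ _ (T.F k).pos.ne']
        rfl
      have e5 : h ((T.F k).rmap (fun ω => ¬ A k ω) (fc (Setoid.ker ((p.vv Y).cellv r k))))
          ((T.F k).rmap (fun ω => ¬ A k ω) ((p.fp k).map (B k))) = y k * (T.F k).n := by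
        show _ = h _ _ / (T.F k).n * (T.F k).n
        rw [div_mul_cancel₀ _ (T.F k).pos.ne']
      rw [e1, e5] at h4
      have e6 : h (fc (Setoid.ker ((p.vv Y).cellv r k))) ((p.fp k).map (B k)) =
          h (fc (Setoid.ker (Y.cellv r k))) (B k) := by
        rw [vv_cellv]
        exact (p.fp k).h_map (fc (Setoid.ker (Y.cellv r k))) (B k)
      rw [e6] at h4
      have hn0 := (T.F k).pos
      rw [← p.hn k, div_le_iff₀ hn0]
      have e7 : T.pr A k = (T.F k).pb (A k) := rfl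
      rw [e7]
      have h5 : (1 - (T.F k).pb (A k)) * (y k * (T.F k).n) ≤ (1 - (T.F k).pb (A k)) * ((e * r + ε) * (T.F k).n) := by
        apply mul_le_mul_of_nonneg_left _ (sub_nonneg.mpr ((T.F k).pb_le_one _))
        exact mul_le_mul_of_nonneg_right hk hn0.le
      have e8 : ((T.F k).pb (A k) * x k + (1 - (T.F k).pb (A k)) * (e * r + ε) + 1 / (T.F k).n) * (T.F k).n =
          (T.F k).pb (A k) * (x k * (T.F k).n) + (1 - (T.F k).pb (A k)) * ((e * r + ε) * (T.F k).n) + 1 := by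
        rw [add_mul, one_div, inv_mul_cancel₀ hn0.ne']
        ring
      rw [e8]
      linarith
    have h6 : ul (T.pr A) * (e * r) ≤ ul (T.pr A) * ul x := by
      apply le_of_forall_pos_le_add
      intro ε hε
      have h7 := key ε hε
      have h8 : (1 - ul (T.pr A)) * ε ≤ ε := by nlinarith
      have h9 : (1 - ul (T.pr A)) * (e * r + ε) = (1 - ul (T.pr A)) * (e * r) + (1 - ul (T.pr A)) * ε := by ring
      rw [h9] at h7
      linarith
    exact le_of_mul_le_mul_left h6 hA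
  have h3 : ul x = e * r := le_antisymm h1 h2
  rw [h3] at hxt
  exact hxt

/-! ### leaves -/

/-- a type of leaves in an extension -/
def Leaf.pull (p : Pj T S) {Q : S.VV M} (l : Leaf S Q E) : Leaf T (p.vv Q) E where
  e := l.e
  he := l.he
  La := fun k => Setoid.comap (p.π k) (l.La k)
  Y := p.vv l.Y
  F := fun k ω => l.F k (p.π k ω)
  fn := by
    filter_upwards [l.fn] with k hk ω ω' h1 h2 h3 h4
    exact hk _ _ (p.supp k ω h1) (p.supp k ω' h2) ((p.hZ k ω ω' h1 h2).1 h3) h4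
  bd := by
    obtain ⟨K, hK, hb⟩ := l.bd
    refine ⟨K, p.sub hK, ?_⟩
    filter_upwards [hb] with k hk ω hω
    exact hk _ (p.supp k ω hω)
  al := fun k ω => l.al k (p.π k ω)
  alg := by
    filter_upwards [l.alg] with k hk ω hω
    exact hk _ (p.supp k ω hω)
  crF := by
    filter_upwards [l.crF] with k hk ω hω
    exact hk _ (p.supp k ω hω)
  seg := by
    intro D
    obtain ⟨K, hK, hb⟩ := l.seg D
    refine ⟨K, p.sub hK, ?_⟩
    filter_upwards [hb] with k hk ω hω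
    exact hk _ (p.supp k ω hω)
  pt := by
    obtain ⟨K, hK, hb⟩ := l.pt
    refine ⟨K, p.sub hK, ?_⟩
    filter_upwards [hb] with k hk ω hω
    have e1 : T.dl 1 k = S.dl 1 k := by unfold Sp.dl; rw [p.hn k]
    rw [e1]
    exact hk _ (p.supp k ω hω)
  full := l.full.congr fun k => (h_vv p l.Y 1 l.La k).symm

/-- a type of leaves on an event of an extension -/
def Leaf.im (p : Pj T S) (A : ∀ k, (T.F k).Ω → Prop) (hA : 0 < ul (T.pr A)) {Q : S.VV M} (l : Leaf S Q E) :
    Leaf (Sp.im p A) (Q.im p A) E where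
  e := l.e
  he := l.he
  La := l.La
  Y := l.Y.im p A
  F := l.F
  fn := by
    filter_upwards [l.fn] with k hk ω ω' h1 h2 h3 h4
    exact hk _ _ (FSp.im_supp (p.fp k) (A k) ω h1) (FSp.im_supp (p.fp k) (A k) ω' h2) h3 h4
  bd := by
    obtain ⟨K, hK, hb⟩ := l.bd
    refine ⟨K, hK, ?_⟩
    filter_upwards [hb] with k hk ω hω
    exact hk _ (FSp.im_supp (p.fp k) (A k) ω hω)
  al := l.al
  alg := by
    filter_upwards [l.alg] with k hk ω hω
    exact hk _ (FSp.im_supp (p.fp k) (A k) ω hω)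
  crF := by
    filter_upwards [l.crF] with k hk ω hω
    exact hk _ (FSp.im_supp (p.fp k) (A k) ω hω)
  seg := by
    intro D
    obtain ⟨K, hK, hb⟩ := l.seg D
    refine ⟨K, hK, ?_⟩
    filter_upwards [hb] with k hk ω hω
    exact hk _ (FSp.im_supp (p.fp k) (A k) ω hω)
  pt := by
    obtain ⟨K, hK, hb⟩ := l.pt
    refine ⟨K, hK, ?_⟩
    filter_upwards [hb] with k hk ω hω
    exact hk _ (FSp.im_supp (p.fp k) (A k) ω hω)
  full := by
    have h1 : Tendsto (fun k => h (fc (Setoid.ker (l.Y.cellv 1 k))) (fc (l.La k)) / (S.F k).n) UF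
        (𝓝 (l.e * 1)) := by rw [mul_one]; exact l.full
    have h2 := full_im p A hA l.Y zero_le_one (fun k => fc (l.La k)) h1
    rw [mul_one] at h2
    exact h2

/-- a system of leaves in an extension -/
def MSys.pull (p : Pj T S) (s : MSys S M E ι) : MSys T M E ι := ⟨p.vv s.Q, fun i => (s.lf i).pull p⟩

/-- a system of leaves on an event of an extension -/
def MSys.im (p : Pj T S) (A : ∀ k, (T.F k).Ω → Prop) (hA : 0 < ul (T.pr A)) (s : MSys S M E ι) :
    MSys (Sp.im p A) M E ι := ⟨s.Q.im p A, fun i => (s.lf i).im p A hA⟩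

theorem pcd_pull (p : Pj T S) (Q : S.VV M) : pcd (p.vv Q) = (pcd Q).pull p := by
  funext k
  unfold pcd
  rw [vv_cellv]
  rfl

theorem win_pull (p : Pj T S) {Q : S.VV M} (l : Leaf S Q E) (c : ℝ) : (l.pull p).win c = (l.win c).pull p := by
  funext k
  show fc (Setoid.comap (p.π k) (l.La k) ⊓ Setoid.ker ((p.vv l.Y).cellv c k)) = _
  rw [vv_cellv]
  rfl

theorem MSys.cnd_pull (p : Pj T S) (s : MSys S M E ι) (c : ℝ) :
    (s.pull p).cnd c = fun i => (s.cnd c i).pull p := by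
  funext i
  rcases i with _ | i
  · exact pcd_pull p s.Q
  · exact win_pull p (s.lf i) c

theorem pcd_im (p : Pj T S) (A : ∀ k, (T.F k).Ω → Prop) (Q : S.VV M) : pcd (Q.im p A) = (pcd Q).im p A := rfl

theorem win_im (p : Pj T S) (A : ∀ k, (T.F k).Ω → Prop) (hA : 0 < ul (T.pr A)) {Q : S.VV M} (l : Leaf S Q E)
    (c : ℝ) : (l.im p A hA).win c = (l.win c).im p A := rfl

theorem MSys.cnd_im (p : Pj T S) (A : ∀ k, (T.F k).Ω → Prop) (hA : 0 < ul (T.pr A)) (s : MSys S M E ι) (c : ℝ) :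
    (s.im p A hA).cnd c = fun i => (s.cnd c i).im p A := by
  funext i
  rcases i with _ | i
  · rfl
  · rfl

/-! ### labels -/

theorem MSys.DMc.down (p : Pj T S) {s : MSys S M E ι} {c : ℝ} {l : Lab T} (h : (s.pull p).DMc c l) :
    s.DMc c (l.down p) := by
  unfold MSys.DMc at h
  rw [MSys.cnd_pull] at h
  exact Lab.DMf.down p h

theorem MSys.DMc.up' (p : Pj T S) {s : MSys S M E ι} {c : ℝ} {l : Lab S} (h : s.DMc c l) :
    (s.pull p).DMc c (l.up' p) := by
  unfold MSys.DMc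
  rw [MSys.cnd_pull]
  exact Lab.DMf.up' p h

theorem MSys.IsKap.down (p : Pj T S) {s : MSys S M E ι} {c : ℝ} {l : Lab T} (h : (s.pull p).IsKap c l) :
    s.IsKap c (l.down p) := by
  unfold MSys.IsKap at h
  rw [MSys.cnd_pull] at h
  exact Lab.IsMaxf.down p h (i := none) (pcd_Bd s.Q)

theorem MSys.IsKap.up' (p : Pj T S) {s : MSys S M E ι} {c : ℝ} {l : Lab S} (h : s.IsKap c l) :
    (s.pull p).IsKap c (l.up' p) := by
  unfold MSys.IsKap
  rw [MSys.cnd_pull]
  exact Lab.IsMaxf.up' p h (i := none) (pcd_Bd s.Q)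

/-- labels on events of the space of the label -/
theorem MSys.DMc.im {s : MSys S M E ι} {c : ℝ} {l : Lab S} (h : s.DMc c l) (A : ∀ k, (l.sp.F k).Ω → Prop)
    (hA : 0 < ul (l.sp.pr A)) : (s.im l.pj A hA).DMc c (l.im A) := by
  unfold MSys.DMc
  rw [MSys.cnd_im]
  exact Lab.DMf.im h A hA

theorem pcd_im_Bd (p : Pj T S) (A : ∀ k, (T.F k).Ω → Prop) (Q : S.VV M) : ((pcd Q).im p A).Bd := by
  rw [← pcd_im]
  exact pcd_Bd (Q.im p A)

/-- maximal labels are maximal on every event of their space -/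
theorem MSys.IsKap.im {s : MSys S M E ι} {c : ℝ} {l : Lab S} (h : s.IsKap c l) (A : ∀ k, (l.sp.F k).Ω → Prop)
    (hA : 0 < ul (l.sp.pr A)) : (s.im l.pj A hA).IsKap c (l.im A) := by
  unfold MSys.IsKap
  rw [MSys.cnd_im]
  exact Lab.IsMaxf.im_max h A hA (i := none) (pcd_Bd s.Q) (pcd_im_Bd l.pj _ s.Q)

/-- exact connectedness at the window `c` -/
def MSys.Con (s : MSys S M E ι) (c : ℝ) : Prop := Lab.Conf (s.cnd c)

theorem MSys.Con.im [Countable ι] {s : MSys S M E ι} {c : ℝ} (h : s.Con c) (p : Pj T S)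
    (A : ∀ k, (T.F k).Ω → Prop) (hA : 0 < ul (T.pr A)) : (s.im p A hA).Con c := by
  unfold MSys.Con
  rw [MSys.cnd_im]
  exact Lab.Conf.im h p A hA (i := none) (pcd_Bd s.Q)

end

end Pool.Agent.Helper84.MT
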