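import Pool.Agent.Helper84.MT.Leaf0
import Pool.Agent.Helper84.MT.Line

/-! MULTI-TYPE LAYER: ADD. Systems of an extension with more types: labels go down, connectedness is inherited; renaming
of the types; the union of two systems with the same point; the type of dimension zero. -/

set_option autoImplicit false

namespace Pool.Agent.Helper84.MT

open Finset Filter Topology Matrix Pool.Agent.Helper69.RK Pool.Agent.Helper31.EC Pool.Agent.Helper31.EC.Sp
open Pool.Agent.Helper40.EL Pool.Agent.Helper89.LX Pool.Agent.Helper3.LF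
open Pool.Agent.Helper95.LF (PdM)

noncomputable section

variable {S T : Sp} {M : ℕ} {E : ℕ → ℕ} {ι κ : Type}

/-! ### renaming of the types -/

/-- renaming of the types -/
def MSys.ren (s : MSys S M E ι) (f : κ → ι) : MSys S M E κ := ⟨s.Q, fun i => s.lf (f i)⟩

theorem MSys.cnd_ren (s : MSys S M E ι) (f : κ → ι) (c : ℝ) (i : Option κ) :
    (s.ren f).cnd c i = s.cnd c (i.map f) := by
  rcases i with _ | i <;> rfl

theorem MSys.DMc.ren {s : MSys S M E ι} {c : ℝ} {l : Lab S} (h : s.DMc c l) (f : κ → ι) : (s.ren f).DMc c l := by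
  intro i
  have h1 := h (i.map f)
  rw [← MSys.cnd_ren] at h1
  exact h1

theorem MSys.DMc_ren_iff (s : MSys S M E ι) {f : κ → ι} (hf : Function.Surjective f) (c : ℝ) (l : Lab S) :
    (s.ren f).DMc c l ↔ s.DMc c l := by
  refine ⟨fun h i => ?_, fun h => h.ren f⟩
  rcases i with _ | i
  · exact h none
  · obtain ⟨j, rfl⟩ := hf i
    exact h (some j)

theorem MSys.IsKap_ren_iff (s : MSys S M E ι) {f : κ → ι} (hf : Function.Surjective f) (c : ℝ) (l : Lab S) :
    (s.ren f).IsKap c l ↔ s.IsKap c l := by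
  constructor
  · intro h
    exact ⟨(s.DMc_ren_iff hf c l).1 h.1, fun l' h' => h.2 l' ((s.DMc_ren_iff hf c l').2 h')⟩
  · intro h
    exact ⟨(s.DMc_ren_iff hf c l).2 h.1, fun l' h' => h.2 l' ((s.DMc_ren_iff hf c l').1 h')⟩

theorem MSys.Con.of_ren {s : MSys S M E ι} {f : κ → ι} {c : ℝ} (h : (s.ren f).Con c) : s.Con c :=
  fun l hl => h l (MSys.DMc.ren hl f)

theorem MSys.Con.ren {s : MSys S M E ι} {f : κ → ι} (hf : Function.Surjective f) {c : ℝ} (h : s.Con c) :
    (s.ren f).Con c := fun l hl => h l ((s.DMc_ren_iff hf c l).1 hl)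

theorem MSys.Adf_ren_iff (s : MSys S M E ι) {f : κ → ι} (hf : Function.Surjective f) (D : ℕ) (c : ℝ)
    (x : ∀ k, FD (S.F k) (Mon M D)) : (gaq (s.ren f).Q D).Adf ((s.ren f).cnd c) x ↔ (gaq s.Q D).Adf (s.cnd c) x := by
  constructor
  · intro h η hη
    filter_upwards [h η hη] with k hk
    refine ⟨fun i => ?_, hk.2.1, hk.2.2.1, hk.2.2.2⟩
    rcases i with _ | i
    · exact hk.1 none
    · obtain ⟨j, rfl⟩ := hf i
      exact hk.1 (some j)
  · intro h η hη
    filter_upwards [h η hη] with k hk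
    refine ⟨fun i => ?_, hk.2.1, hk.2.2.1, hk.2.2.2⟩
    rw [MSys.cnd_ren]
    exact hk.1 _

theorem MSys.IsCan_ren_iff (s : MSys S M E ι) {f : κ → ι} (hf : Function.Surjective f) (D : ℕ) (c : ℝ)
    (x : ∀ k, FD (S.F k) (Mon M D)) : (s.ren f).IsCan D c x ↔ s.IsCan D c x := by
  constructor
  · intro h
    exact ⟨⟨(s.Adf_ren_iff hf D c x).1 h.1.1, fun y hy => h.1.2 y ((s.Adf_ren_iff hf D c y).2 hy)⟩,
      (s.IsKap_ren_iff hf c _).1 h.2⟩
  · intro h
    exact ⟨⟨(s.Adf_ren_iff hf D c x).2 h.1.1, fun y hy => h.1.2 y ((s.Adf_ren_iff hf D c y).1 hy)⟩,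
      (s.IsKap_ren_iff hf c _).2 h.2⟩

/-- `ST` for fewer types -/
theorem STm.ren {D : ℕ} (h : STm D M E κ) {f : κ → ι} (hf : Function.Surjective f) : STm D M E ι := by
  intro S s x hx
  exact h S (s.ren f) x ((s.IsCan_ren_iff hf D 0 x).2 hx)

/-- `ST` for all finite families with at least one and at most `r` types -/
theorem STm.of_card {D r : ℕ} (h : STm D M E (Fin r)) [Finite ι] [Nonempty ι] (hr : Nat.card ι ≤ r) :
    STm D M E ι := by
  have e := Finite.equivFin ι
  have hpos : 0 < Nat.card ι := Nat.card_pos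
  refine h.ren (f := fun i : Fin r => e.symm ⟨min i.1 (Nat.card ι - 1), by omega⟩) ?_
  intro a
  refine ⟨⟨(e a).1, lt_of_lt_of_le (e a).2 hr⟩, ?_⟩
  rw [Equiv.symm_apply_eq]
  apply Fin.ext
  have := (e a).2
  show min (e a).1 (Nat.card ι - 1) = (e a).1
  omega

/-! ### the type of dimension zero -/

theorem remS_const {N : ℕ} (a : ℝ) : RemS N 1 (fun _ => a) := by
  intro x δ ε hδ hx hsep hε u _
  have h0 : |a| ≤ ε := hε 0
  have hε0 : 0 ≤ ε := (abs_nonneg _).trans h0
  rw [one_mul]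
  refine h0.trans ?_
  have h1 : (1 : ℝ) ≤ (1 / δ) ^ N := by
    rcases Nat.eq_zero_or_pos N with rfl | hN
    · rw [pow_zero]
    · apply one_le_pow₀
      rw [le_div_iff₀ hδ, one_mul]
      have h2 := hsep ⟨0, by omega⟩ ⟨1, by omega⟩ (by
        intro h
        exact absurd (congrArg Fin.val h) (by norm_num))
      have h3 := hx ⟨0, by omega⟩
      have h4 := hx ⟨1, by omega⟩
      refine h2.trans ?_
      rw [abs_le]
      constructor <;> linarith [h3.1, h3.2, h4.1, h4.2]
  nlinarith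

theorem bmS_const (a : ℝ) : BmS 1 (fun _ => a) := by
  intro A hA u _ u' _
  have h0 : |a| ≤ A := hA 0 ⟨le_rfl, zero_le_one⟩
  have h1 : 0 ≤ A := (abs_nonneg _).trans h0
  rw [sub_self, abs_zero]
  positivity

/-- all functions of no variable -/
theorem algUniv (c : Fin 0 → ℝ) : Alg 0 c (fun _ => Set.univ) where
  const := fun _ => Set.mem_univ _
  add := fun _ _ _ _ _ => Set.mem_univ _
  mul := fun _ _ _ _ _ _ => Set.mem_univ _
  mono := fun _ _ _ => le_rfl
  crd := fun _ => Set.mem_univ _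
  der := fun _ _ _ i => i.elim0

/-- the POINT as a type of dimension zero -/
def Leaf.zero (Q : S.VV M) (E : ℕ → ℕ) : Leaf S Q E where
  e := 0
  he := Nat.zero_le _
  La := fun k => Setoid.ker (Q.cellv 1 k)
  Y := ⟨fun _ _ i => i.elim0, fun _ => 0, S.Sub_const le_rfl, Eventually.of_forall fun k ω _ i => i.elim0⟩
  F := fun k ω _ j => S.dl 1 k * (Q.cellv 1 k ω j : ℝ)
  fn := Eventually.of_forall fun k ω ω' _ _ _ h => by
    have h1 : Q.cellv 1 k ω = Q.cellv 1 k ω' := h
    funext y j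
    rw [h1]
  bd := by
    obtain ⟨K, hK, hb⟩ := Q.bd
    refine ⟨fun k => K k + 1, hK.add (S.Sub_const zero_le_one), ?_⟩
    filter_upwards [hb] with k hk ω hω y _ j
    have hd := S.dl_pos 1 k
    have h1 := rnd_abs hd (dl_one_le S k) (Q.v k ω j)
    exact h1.trans (add_le_add (hk ω hω j) le_rfl)
  al := fun _ _ _ => Set.univ
  alg := Eventually.of_forall fun k ω _ => algUniv _
  crF := Eventually.of_forall fun k ω _ j => Set.mem_univ _
  seg := by
    intro D
    refine ⟨fun _ => 1, S.Sub_const zero_le_one, Eventually.of_forall fun k ω _ f _ y z _ _ => ?_⟩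
    have e1 : (fun u : ℝ => f (fun i => y i + u * (z i - y i))) = fun _ => f y := by
      funext u
      congr 1
      funext i
      exact i.elim0
    rw [e1]
    exact ⟨remS_const _, bmS_const _⟩
  pt := by
    refine ⟨fun _ => 1, S.Sub_const zero_le_one, Eventually.of_forall fun k ω _ i => ?_⟩
    rw [one_mul]
    exact rnd_le (S.dl_pos 1 k) (Q.v k ω i)
  full := by
    rw [Nat.cast_zero]
    apply PLe_of_le
    intro k
    apply fc_le
    intro ω ω' _ _ _ _
    funext i
    exact i.elim0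

theorem Leaf.zero_win (Q : S.VV M) (E : ℕ → ℕ) (c : ℝ) : (Leaf.zero Q E).win c = pcd Q := by
  funext k
  show fc _ = fc _
  congr 1
  ext ω ω'
  constructor
  · exact fun h => h.1
  · exact fun h => ⟨h, funext fun i => i.elim0⟩

/-! ### union and ADD -/

/-- the UNION of a system with a family of types with the same point -/
def MSys.union (s : MSys S M E ι) (l : κ → Leaf S s.Q E) : MSys S M E (ι ⊕ κ) := ⟨s.Q, Sum.elim s.lf l⟩

/-- the leaks of a union -/
theorem MSys.DMc_union_iff (s : MSys S M E ι) (l : κ → Leaf S s.Q E) (c : ℝ) (u : Lab S) :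
    (s.union l).DMc c u ↔ s.DMc c u ∧ ∀ j, Nul S (fun k => (u k).leak ((l j).win c k)) := by
  constructor
  · intro h
    refine ⟨fun i => ?_, fun j => h (some (Sum.inr j))⟩
    rcases i with _ | i
    · exact h none
    · exact h (some (Sum.inl i))
  · rintro ⟨h1, h2⟩ i
    rcases i with _ | i | j
    · exact h1 none
    · exact h1 (some i)
    · exact h2 j

/-- ADD: a system of an extension with more types -/
def MSys.add (p : Pj T S) (s : MSys S M E ι) (l : κ → Leaf T (p.vv s.Q) E) : MSys T M E (ι ⊕ κ) :=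
  (s.pull p).union l

variable {p : Pj T S} {s : MSys S M E ι} {l : κ → Leaf T (p.vv s.Q) E} {c : ℝ}

theorem MSys.DMc_add_iff {u : Lab T} : (s.add p l).DMc c u ↔
    (s.pull p).DMc c u ∧ ∀ j, Nul T (fun k => (u k).leak ((l j).win c k)) :=
  MSys.DMc_union_iff (s.pull p) l c u

/-- labels go down -/
theorem MSys.DMc.of_add {u : Lab T} (h : (s.add p l).DMc c u) : s.DMc c (u.down p) :=
  MSys.DMc.down p (MSys.DMc_add_iff.1 h).1

theorem MSys.DMc.info_pull {u : Lab T} (h : (s.pull p).DMc c u) : (u.down p).info = u.info := by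
  unfold MSys.DMc at h
  rw [MSys.cnd_pull] at h
  exact Lab.DMf.info_down p h (i := none) (pcd_Bd s.Q)

/-- with the same information -/
theorem MSys.DMc.info_add {u : Lab T} (h : (s.add p l).DMc c u) : (u.down p).info = u.info :=
  MSys.DMc.info_pull (MSys.DMc_add_iff.1 h).1

/-- `kappa_c` drops under ADD -/
theorem MSys.IsKap.info_add_le {a : Lab S} (h : s.IsKap c a) {u : Lab T} (h' : (s.add p l).DMc c u) :
    u.info ≤ a.info := by
  rw [← MSys.DMc.info_add h']
  exact h.2 _ h'.of_add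

/-- `kappa_c` stays `kappa_c` if it has no leak at the new windows -/
theorem MSys.IsKap.add {a : Lab S} (h : s.IsKap c a)
    (h2 : ∀ j, Nul T (fun k => ((a.up' p) k).leak ((l j).win c k))) : (s.add p l).IsKap c (a.up' p) := by
  have h3 := MSys.IsKap.up' p h
  refine ⟨MSys.DMc_add_iff.2 ⟨h3.1, h2⟩, fun u hu => ?_⟩
  exact h3.2 u (MSys.DMc_add_iff.1 hu).1

/-- ADD KEEPS CONNECTEDNESS -/
theorem MSys.Con.add (h : s.Con c) (p : Pj T S) (l : κ → Leaf T (p.vv s.Q) E) : (s.add p l).Con c := by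
  intro u hu
  have hu' : (s.add p l).DMc c u := hu
  have h1 := h _ hu'.of_add
  have h2 := (MSys.DMc_add_iff.1 hu').1
  unfold MSys.DMc at h2
  rw [MSys.cnd_pull] at h2
  exact Lab.DMf.nul_down p h2 (j := none) (A₀ := pcd s.Q) (PLe.refl _) h1

theorem MSys.Con.pull (h : s.Con c) (p : Pj T S) : (s.pull p).Con c := by
  intro u hu
  have h1 := h _ (MSys.DMc.down p hu)
  rw [MSys.cnd_pull] at hu
  exact Lab.DMf.nul_down p hu (j := none) (A₀ := pcd s.Q) (PLe.refl _) h1

theorem MSys.Con.of_pull (p : Pj T S) (h : (s.pull p).Con c) : s.Con c := by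
  unfold MSys.Con at h
  rw [MSys.cnd_pull] at h
  exact Lab.Conf.down p h

/-- adding the point as a type changes nothing -/
theorem MSys.DMc_union_zero (s : MSys S M E ι) (c : ℝ) (u : Lab S) :
    (s.union fun _ : Fin 1 => Leaf.zero s.Q E).DMc c u ↔ s.DMc c u := by
  rw [MSys.DMc_union_iff]
  refine ⟨fun h => h.1, fun h => ⟨h, fun j => ?_⟩⟩
  rw [Leaf.zero_win]
  exact h none

theorem MSys.IsKap_union_zero (s : MSys S M E ι) (c : ℝ) (u : Lab S) :
    (s.union fun _ : Fin 1 => Leaf.zero s.Q E).IsKap c u ↔ s.IsKap c u := by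
  constructor
  · intro h
    exact ⟨(s.DMc_union_zero c u).1 h.1, fun l' h' => h.2 l' ((s.DMc_union_zero c l').2 h')⟩
  · intro h
    exact ⟨(s.DMc_union_zero c u).2 h.1, fun l' h' => h.2 l' ((s.DMc_union_zero c l').1 h')⟩

theorem MSys.Adf_union_zero (s : MSys S M E ι) (D : ℕ) (c : ℝ) (x : ∀ k, FD (S.F k) (Mon M D)) :
    (gaq s.Q D).Adf ((s.union fun _ : Fin 1 => Leaf.zero s.Q E).cnd c) x ↔ (gaq s.Q D).Adf (s.cnd c) x := by
  constructor
  · intro h η hη
    filter_upwards [h η hη] with k hk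
    refine ⟨fun i => ?_, hk.2.1, hk.2.2.1, hk.2.2.2⟩
    rcases i with _ | i
    · exact hk.1 none
    · exact hk.1 (some (Sum.inl i))
  · intro h η hη
    filter_upwards [h η hη] with k hk
    refine ⟨fun i => ?_, hk.2.1, hk.2.2.1, hk.2.2.2⟩
    rcases i with _ | i | j
    · exact hk.1 none
    · exact hk.1 (some i)
    · have h1 := hk.1 none
      have e1 : ((s.union fun _ : Fin 1 => Leaf.zero s.Q E).cnd c (some (Sum.inr j))) k = pcd s.Q k :=
        congrFun (Leaf.zero_win s.Q E c) k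
      rw [e1]
      exact h1

/-- `ST` for a type more -/
theorem STm.of_zero {D : ℕ} (h : STm D M E (ι ⊕ Fin 1)) : STm D M E ι := by
  intro S s x hx
  refine h S (s.union fun _ : Fin 1 => Leaf.zero s.Q E) x ⟨⟨(s.Adf_union_zero D 0 x).2 hx.1.1, fun y hy => ?_⟩,
    (s.IsKap_union_zero 0 _).2 hx.2⟩
  exact hx.1.2 y ((s.Adf_union_zero D 0 y).1 hy)

/-- `ST` FOR ALL FINITE FAMILIES with at most `r` types -/
theorem STm.of_le {D r : ℕ} (h : STm D M E (Fin (r + 1))) [Finite ι] (hr : Nat.card ι ≤ r) : STm D M E ι := by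
  apply STm.of_zero
  apply h.of_card
  rw [Nat.card_sum, Nat.card_fin]
  omega

/-- it suffices to prove `ST` for at least one type -/
theorem ST_of_pos (h : ∀ (g r : ℕ), 1 ≤ r → ∃ D₁ : ℕ, ∀ D, D₁ ≤ D → STm D M (lin g) (Fin r)) : ST M := by
  intro g r
  obtain ⟨D₁, hD⟩ := h g (r + 1) (by omega)
  refine ⟨D₁, fun D hD' => (hD D hD').of_le ?_⟩
  rw [Nat.card_fin]

theorem ST.fin (h : ST M) (g : ℕ) (ι : Type) [Finite ι] : ∃ D₁ : ℕ, ∀ D, D₁ ≤ D → STm D M (lin g) ι := by
  obtain ⟨D₁, hD⟩ := h g (Nat.card ι + 1)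
  exact ⟨D₁, fun D hD' => (hD D hD').of_le le_rfl⟩

end

end Pool.Agent.Helper84.MT
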