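import Pool.Agent.Helper84.MT.Fun
import Pool.Agent.Helper89.LX.Njm

/-! MULTI-TYPE LAYER: canonical forms on events of the space of the label. A canonical form restricted to an event of
positive probability is canonical for the restricted system (KAPPA (3.4) with forms); the volume is additive. -/

set_option autoImplicit false

namespace Pool.Agent.Helper89.LX

open Finset Filter Topology Matrix Pool.Agent.Helper69.RK Pool.Agent.Helper31.EC Pool.Agent.Helper31.EC.Sp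
open Pool.Agent.Helper40.EL Pool.Agent.Helper59.EV
open Pool.Agent.Helper95.LF (PdM)

noncomputable section

variable {ι : Type} {S T : Sp} {κ : Type}

/-- the label of a sequence of labels with forms -/
abbrev lbS (x : ∀ k, FD (S.F k) ι) : Lab S := fun k => (x k).l

/-- restriction of a label with forms to an event of its space -/
def reFD {F : FSp} (x : FD F ι) (E : x.l.T.Ω → Prop) : FD (FSp.im x.l.p E) ι where
  l := x.l.im E
  g := x.g
  g' := x.g'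
  meas := fun ω ω' a b c d => x.meas ω ω' (x.l.T.rest_supp E ω a).1 (x.l.T.rest_supp E ω' b).1 c d

/-- restriction of a sequence of labels with forms to an event of the space of the label -/
def reS (x : ∀ k, FD (S.F k) ι) (E : ∀ k, ((lbS x).sp.F k).Ω → Prop) : ∀ k, FD ((Sp.im (lbS x).pj E).F k) ι :=
  fun k => reFD (x k) (E k)

theorem reS_l (x : ∀ k, FD (S.F k) ι) (E : ∀ k, ((lbS x).sp.F k).Ω → Prop) :
    lbS (reS x E) = (lbS x).im E := rfl

variable [Fintype ι] [DecidableEq ι] {Φ : Gau S ι}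

theorem Gau.im_cp (Φ : Gau S ι) (p : Pj T S) (E : ∀ k, (T.F k).Ω → Prop) (k : ℕ) : (Φ.im p E).cp k = Φ.cp k := rfl

/-- the conditions on the forms under restriction -/
theorem Gau.Fm.re {x : ∀ k, FD (S.F k) ι} (h : Φ.Fm x) (E : ∀ k, ((lbS x).sp.F k).Ω → Prop)
    (hE : 0 < ul ((lbS x).sp.pr E)) : (Φ.im (lbS x).pj E).Fm (reS x E) := by
  intro η hη
  set r := ul ((lbS x).sp.pr E) with hr
  have hr1 : r ≤ 1 := ul_pr_le_one E
  have hη' : 0 < η * r / 2 := by positivity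
  have hle : η * r / 2 ≤ η := by nlinarith
  filter_upwards [h _ hη', pr_half' hE] with k hk hp
  have hn0 := (S.F k).pos
  have hpb : r / 2 ≤ (x k).l.T.pb (E k) := hp
  have hthr : (2 : ℝ) ^ (η * r / 2 * (S.F k).n) ≤ 2 ^ (η * (S.F k).n) :=
    Real.rpow_le_rpow_of_exponent_le (by norm_num) (mul_le_mul_of_nonneg_right hle hn0.le)
  have key : ∀ X Y : (x k).l.T.Ω → Prop, (∀ ω, Y ω → X ω) → (x k).l.T.pb X ≤ η * r / 2 →
      ((x k).l.T.rest (E k)).pb Y ≤ η := by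
    intro X Y hXY hX
    have h1 := pb_rest_le (x k).l.T (E k) Y (r / 2) (by positivity) hpb
    have h2 : (x k).l.T.pb Y ≤ (x k).l.T.pb X := (x k).l.T.pb_mono fun ω _ hω => hXY ω hω
    refine h1.trans ?_
    rw [div_le_iff₀ (by positivity)]
    nlinarith
  refine ⟨fun ω hω => ?_, ?_, ?_⟩
  · exact hk.1 ω ((x k).l.T.rest_supp (E k) ω hω).1
  · exact key (fun ω => ¬ Φ.φ k ((x k).l.p.π ω) ((x k).g ω) ≤ 2 ^ (η * r / 2 * (S.F k).n))
      (fun ω => ¬ Φ.φ k ((x k).l.p.π ω) ((x k).g ω) ≤ 2 ^ (η * (S.F k).n))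
      (fun ω h1 h2 => h1 (le_trans h2 hthr)) hk.2.1
  · exact key (fun ω => ¬ Φ.φ k ((x k).l.p.π ω) ((x k).g' ω) ≤ 2 ^ (η * r / 2 * (S.F k).n))
      (fun ω => ¬ Φ.φ k ((x k).l.p.π ω) ((x k).g' ω) ≤ 2 ^ (η * (S.F k).n))
      (fun ω h1 h2 => h1 (le_trans h2 hthr)) hk.2.2

/-- admissible sequences on events of the space of the label -/
theorem Gau.Adf.re [Finite κ] {A : κ → Part S} {x : ∀ k, FD (S.F k) ι} (hx : Φ.Adf A x)
    (E : ∀ k, ((lbS x).sp.F k).Ω → Prop) (hE : 0 < ul ((lbS x).sp.pr E)) :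
    (Φ.im (lbS x).pj E).Adf (fun i => (A i).im (lbS x).pj E) (reS x E) :=
  Gau.Adf_iff.2 ⟨Lab.DMf.im (Gau.Adf.dm Φ hx) E hE, Gau.Fm.re hx.fm E hE⟩

/-- glued sequences; the conditions on the second sequence only hold after multiplication by the probability -/
theorem Gau.Fm.glu_of {p : Pj T S} {E : ∀ k, (T.F k).Ω → Prop} {y1 : ∀ k, FD ((Sp.im p E).F k) ι}
    {y2 : ∀ k, FD ((Sp.im p fun k ω => ¬ E k ω).F k) ι} (h1 : (Φ.im p E).Fm y1)
    (h2 : ∀ η : ℝ, 0 < η → ∀ᶠ k in UF,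
      (∀ ω, (y2 k).l.T.μ ω ≠ 0 → Cpd (Φ.cp k) ((y2 k).g ω) ∧ Cpd (Φ.cp k) ((y2 k).g' ω)) ∧
      (1 - (T.F k).pb (E k)) * (y2 k).l.T.pb (fun ω => ¬ Φ.φ k ((y2 k).l.p.π ω) ((y2 k).g ω) ≤
        2 ^ (η * (S.F k).n)) ≤ η ∧
      (1 - (T.F k).pb (E k)) * (y2 k).l.T.pb (fun ω => ¬ Φ.φ k ((y2 k).l.p.π ω) ((y2 k).g' ω) ≤
        2 ^ (η * (S.F k).n)) ≤ η) : Φ.Fm (gluS p E y1 y2) := by
  intro η hη
  have hη' : 0 < η / 2 := by positivity
  filter_upwards [h1 _ hη', h2 _ hη'] with k a b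
  have hn0 := (S.F k).pos
  have hp0 := (T.F k).pb_nonneg (E k)
  have hp1 := (T.F k).pb_le_one (E k)
  have hthr : (2 : ℝ) ^ (η / 2 * (S.F k).n) ≤ 2 ^ (η * (S.F k).n) :=
    Real.rpow_le_rpow_of_exponent_le (by norm_num) (mul_le_mul_of_nonneg_right (by linarith) hn0.le)
  refine ⟨?_, ?_, ?_⟩
  · intro w hw
    exact glu_all (Cpd (Φ.cp k)) (y1 k) (y2 k) a.1 b.1 w hw
  · have h4 : (gluS p E y1 y2 k).l.T.pb (fun ω => ¬ Φ.φ k ((gluS p E y1 y2 k).l.p.π ω)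
        ((gluS p E y1 y2 k).g ω) ≤ 2 ^ (η * (S.F k).n)) =
      (T.F k).pb (E k) * (y1 k).l.T.pb (fun ω => ¬ Φ.φ k ((y1 k).l.p.π ω) ((y1 k).g ω) ≤
        2 ^ (η * (S.F k).n)) +
      (1 - (T.F k).pb (E k)) * (y2 k).l.T.pb (fun ω => ¬ Φ.φ k ((y2 k).l.p.π ω) ((y2 k).g ω) ≤
        2 ^ (η * (S.F k).n)) :=
      pb_glu (fun ω A => ¬ Φ.φ k ω A ≤ 2 ^ (η * (S.F k).n)) (y1 k) (y2 k)
    have h5 : (y1 k).l.T.pb (fun ω => ¬ Φ.φ k ((y1 k).l.p.π ω) ((y1 k).g ω) ≤ 2 ^ (η * (S.F k).n)) ≤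
        η / 2 := by
      refine le_trans ((y1 k).l.T.pb_mono ?_) a.2.1
      intro ω _ h6 h7
      exact h6 (le_trans h7 hthr)
    have h6 : (1 - (T.F k).pb (E k)) * (y2 k).l.T.pb (fun ω => ¬ Φ.φ k ((y2 k).l.p.π ω) ((y2 k).g ω) ≤
        2 ^ (η * (S.F k).n)) ≤ η / 2 := by
      refine le_trans (mul_le_mul_of_nonneg_left ((y2 k).l.T.pb_mono ?_) (sub_nonneg.mpr hp1)) b.2.1
      intro ω _ h6 h7
      exact h6 (le_trans h7 hthr)
    have h7 := mul_le_mul hp1 h5 (FSp.pb_nonneg _ _) zero_le_one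
    rw [h4]
    linarith
  · have h4 : (gluS p E y1 y2 k).l.T.pb (fun ω => ¬ Φ.φ k ((gluS p E y1 y2 k).l.p.π ω)
        ((gluS p E y1 y2 k).g' ω) ≤ 2 ^ (η * (S.F k).n)) =
      (T.F k).pb (E k) * (y1 k).l.T.pb (fun ω => ¬ Φ.φ k ((y1 k).l.p.π ω) ((y1 k).g' ω) ≤
        2 ^ (η * (S.F k).n)) +
      (1 - (T.F k).pb (E k)) * (y2 k).l.T.pb (fun ω => ¬ Φ.φ k ((y2 k).l.p.π ω) ((y2 k).g' ω) ≤
        2 ^ (η * (S.F k).n)) :=
      pb_glu' (fun ω A => ¬ Φ.φ k ω A ≤ 2 ^ (η * (S.F k).n)) (y1 k) (y2 k)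
    have h5 : (y1 k).l.T.pb (fun ω => ¬ Φ.φ k ((y1 k).l.p.π ω) ((y1 k).g' ω) ≤ 2 ^ (η * (S.F k).n)) ≤
        η / 2 := by
      refine le_trans ((y1 k).l.T.pb_mono ?_) a.2.2
      intro ω _ h6 h7
      exact h6 (le_trans h7 hthr)
    have h6 : (1 - (T.F k).pb (E k)) * (y2 k).l.T.pb (fun ω => ¬ Φ.φ k ((y2 k).l.p.π ω) ((y2 k).g' ω) ≤
        2 ^ (η * (S.F k).n)) ≤ η / 2 := by
      refine le_trans (mul_le_mul_of_nonneg_left ((y2 k).l.T.pb_mono ?_) (sub_nonneg.mpr hp1)) b.2.2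
      intro ω _ h6 h7
      exact h6 (le_trans h7 hthr)
    have h7 := mul_le_mul hp1 h5 (FSp.pb_nonneg _ _) zero_le_one
    rw [h4]
    linarith

/-- GLUEING of admissible sequences -/
theorem Gau.Adf.glu [Finite κ] {A : κ → Part S} {p : Pj T S} {E : ∀ k, (T.F k).Ω → Prop}
    {y1 : ∀ k, FD ((Sp.im p E).F k) ι} {y2 : ∀ k, FD ((Sp.im p fun k ω => ¬ E k ω).F k) ι}
    (h1 : (Φ.im p E).Adf (fun i => (A i).im p E) y1)
    (h2 : (Φ.im p fun k ω => ¬ E k ω).Adf (fun i => (A i).im p fun k ω => ¬ E k ω) y2) :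
    Φ.Adf A (gluS p E y1 y2) := by
  refine Gau.Adf_iff.2 ⟨Lab.DMf.glue (Gau.Adf.dm _ h1) (Gau.Adf.dm _ h2), Gau.Fm.glu_of h1.fm ?_⟩
  intro η hη
  filter_upwards [h2.fm η hη] with k b
  have hp0 := (T.F k).pb_nonneg (E k)
  have hp1 := (T.F k).pb_le_one (E k)
  have key : ∀ a c : ℝ, 0 ≤ a → a ≤ c → (1 - (T.F k).pb (E k)) * a ≤ c := by
    intro a c h3 h4
    nlinarith
  exact ⟨b.1, key _ _ (FSp.pb_nonneg _ _) b.2.1, key _ _ (FSp.pb_nonneg _ _) b.2.2⟩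

/-- glueing with the trivial label outside of a typical event -/
theorem Gau.Adf.glu_triv [Finite κ] {A : κ → Part S} {p : Pj T S} {E : ∀ k, (T.F k).Ω → Prop} (ht : Typ E)
    {y1 : ∀ k, FD ((Sp.im p E).F k) ι} (h1 : (Φ.im p E).Adf (fun i => (A i).im p E) y1) :
    Φ.Adf A (gluS p E y1 fun k => trivFD ((Sp.im p fun k ω => ¬ E k ω).F k)) := by
  refine Gau.Adf_iff.2 ⟨Lab.DMf.glue (Gau.Adf.dm _ h1)
    (l₂ := fun k => FLab.triv ((Sp.im p fun k ω => ¬ E k ω).F k)) (Lab.DMf_triv _), Gau.Fm.glu_of h1.fm ?_⟩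
  intro η hη
  have h3 : ∀ᶠ k in UF, 1 - η ≤ (T.F k).pb (E k) := by
    have h4 : Tendsto (fun k => (T.F k).pb (E k)) UF (𝓝 1) := (Typ_iff E).mp ht
    exact h4.eventually (eventually_ge_nhds (by linarith))
  filter_upwards [h3] with k b
  have hp1 := (T.F k).pb_le_one (E k)
  have key : ∀ a : ℝ, a ≤ 1 → 0 ≤ a → (1 - (T.F k).pb (E k)) * a ≤ η := by
    intro a h4 h5
    nlinarith
  exact ⟨fun ω _ => ⟨Cpd_one (Gau.one_le_cp _ k), Cpd_one (Gau.one_le_cp _ k)⟩,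
    key _ (FSp.pb_le_one _ _) (FSp.pb_nonneg _ _), key _ (FSp.pb_le_one _ _) (FSp.pb_nonneg _ _)⟩

/-- the score of a glued label -/
theorem gluS_sc {p : Pj T S} {E : ∀ k, (T.F k).Ω → Prop} (y1 : ∀ k, FD ((Sp.im p E).F k) ι)
    (y2 : ∀ k, FD ((Sp.im p fun k ω => ¬ E k ω).F k) ι) (k : ℕ) :
    (gluS p E y1 y2 k).sc = (T.F k).pb (E k) * (y1 k).sc + (1 - (T.F k).pb (E k)) * (y2 k).sc :=
  fval_glu (F := S.F k) (fun _ A => Real.logb 2 A.det) (y1 k) (y2 k)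

/-- the score is additive over events of the space of the label -/
theorem reS_sc (x : ∀ k, FD (S.F k) ι) (E : ∀ k, ((lbS x).sp.F k).Ω → Prop) (k : ℕ) :
    (x k).sc = (x k).l.T.pb (E k) * (reS x E k).sc +
      (1 - (x k).l.T.pb (E k)) * (reS x (fun k ω => ¬ E k ω) k).sc :=
  sum_rest (x k).l.T (E k) (fun ω => Real.logb 2 ((x k).g ω).det)

theorem ul_not (E : ∀ k, (S.F k).Ω → Prop) : ul (S.pr fun k ω => ¬ E k ω) = 1 - ul (S.pr E) := by
  have h1 : (S.pr fun k ω => ¬ E k ω) = fun k => 1 - S.pr E k := by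
    funext k
    have := (S.F k).pb_add_compl (E k)
    show (S.F k).pb (fun ω => ¬ E k ω) = 1 - (S.F k).pb (E k)
    linarith
  rw [h1]
  exact ul_eq ((ul_tendsto (UB_pr E)).const_sub 1)

/-- a canonical form is canonical on EVENTS of the space of its label -/
theorem Gau.Optf.re [Finite κ] {A : κ → Part S} {x : ∀ k, FD (S.F k) ι} (hx : Φ.Optf A x)
    (E : ∀ k, ((lbS x).sp.F k).Ω → Prop) (hE : 0 < ul ((lbS x).sp.pr E)) :
    (Φ.im (lbS x).pj E).Optf (fun i => (A i).im (lbS x).pj E) (reS x E) := by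
  have a1 := Gau.Adf.re hx.1 E hE
  refine ⟨a1, fun y hy => ?_⟩
  set e := ul ((lbS x).sp.pr E) with he
  have he1 : e ≤ 1 := ul_pr_le_one E
  have tE : Tendsto (fun k => (x k).l.T.pb (E k)) UF (𝓝 e) := ul_tendsto (UB_pr (S := (lbS x).sp) E)
  have uy : UB (fun k => (y k).sc / (S.F k).n) := Gau.sc_UBf (Φ.im (lbS x).pj E) hy
  have u1 : UB (fun k => (reS x E k).sc / (S.F k).n) := Gau.sc_UBf (Φ.im (lbS x).pj E) a1
  have ux : UB (fun k => (x k).sc / (S.F k).n) := Gau.sc_UBf Φ hx.1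
  show ul (fun k => (y k).sc / (S.F k).n) ≤ ul (fun k => (reS x E k).sc / (S.F k).n)
  rcases eq_or_lt_of_le he1 with h1 | h1
  · -- typical events
    have ht : Typ (S := (lbS x).sp) E := by
      rw [Typ_iff]
      rw [h1] at tE
      exact tE
    have hz := Gau.Adf.glu_triv (Φ := Φ) ht hy
    have h2 := hx.2 _ hz
    have uz := Gau.sc_UBf Φ hz
    rw [h1] at tE
    have t1 := tE.mul (ul_tendsto uy)
    rw [one_mul] at t1
    have h3 : ul (fun k => (y k).sc / (S.F k).n) ≤ ul (fun k => (gluS (lbS x).pj E y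
        (fun k => trivFD ((Sp.im (lbS x).pj fun k ω => ¬ E k ω).F k)) k).sc / (S.F k).n) := by
      refine le_of_tendsto_of_tendsto t1 (ul_tendsto uz) (Eventually.of_forall fun k => ?_)
      have hn := (S.F k).pos
      show (x k).l.T.pb (E k) * ((y k).sc / (S.F k).n) ≤ (gluS (lbS x).pj E y
        (fun k => trivFD ((Sp.im (lbS x).pj fun k ω => ¬ E k ω).F k)) k).sc / (S.F k).n
      rw [gluS_sc, ← mul_div_assoc]
      apply div_le_div_of_nonneg_right _ hn.le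
      have h4 : 0 ≤ (trivFD (ι := ι) ((Sp.im (lbS x).pj fun k ω => ¬ E k ω).F k)).sc := by
        unfold FD.sc
        apply Finset.sum_nonneg
        intro ω _
        apply mul_nonneg (FSp.nn _ ω)
        have e1 : ((trivFD (ι := ι) ((Sp.im (lbS x).pj fun k ω => ¬ E k ω).F k)).g ω) = 1 := rfl
        rw [e1, Matrix.det_one, Real.logb_one]
      exact le_add_of_nonneg_right (mul_nonneg (sub_nonneg.mpr ((x k).l.T.pb_le_one (E k))) h4)
    have t2 : Tendsto (fun k => (x k).l.T.pb (E k) * ((reS x E k).sc / (S.F k).n) +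
        (1 - (x k).l.T.pb (E k)) * (Fintype.card ι * (Φ.C + 1))) UF
        (𝓝 (1 * ul (fun k => (reS x E k).sc / (S.F k).n) + (1 - 1) * (Fintype.card ι * (Φ.C + 1)))) :=
      (tE.mul (ul_tendsto u1)).add ((tE.const_sub 1).mul_const _)
    rw [one_mul, sub_self, zero_mul, add_zero] at t2
    have h4 : ul (fun k => (x k).sc / (S.F k).n) ≤ ul (fun k => (reS x E k).sc / (S.F k).n) := by
      refine le_of_tendsto_of_tendsto (ul_tendsto ux) t2 ?_
      filter_upwards [hx.1 1 one_pos] with k hk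
      have hn := (S.F k).pos
      have h5 : (reS x (fun k ω => ¬ E k ω) k).sc ≤ Fintype.card ι * ((Φ.C + 1) * (S.F k).n) := by
        unfold FD.sc
        apply sum_mul_le
        intro ω h0
        have h6 := logdet_le (Φ.one_le_cp k) (hk.2.1 ω ((x k).l.T.rest_supp (fun ω => ¬ E k ω) ω h0).1).1
        rw [Φ.logb_cp] at h6
        exact h6
      rw [reS_sc x E k, div_le_iff₀ hn, add_mul]
      have e2 : (x k).l.T.pb (E k) * ((reS x E k).sc / (S.F k).n) * (S.F k).n =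
          (x k).l.T.pb (E k) * (reS x E k).sc := by
        rw [mul_assoc, div_mul_cancel₀ _ hn.ne']
      rw [e2]
      have h7 := mul_le_mul_of_nonneg_left h5 (sub_nonneg.mpr ((x k).l.T.pb_le_one (E k)))
      have e3 : (1 - (x k).l.T.pb (E k)) * (Fintype.card ι * (Φ.C + 1)) * (S.F k).n =
          (1 - (x k).l.T.pb (E k)) * (Fintype.card ι * ((Φ.C + 1) * (S.F k).n)) := by ring
      rw [e3]
      exact add_le_add le_rfl h7
    exact h3.trans (h2.trans h4)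
  · -- positive complement
    have hE' : 0 < ul ((lbS x).sp.pr fun k ω => ¬ E k ω) := by
      rw [ul_not]
      linarith
    have a2 := Gau.Adf.re hx.1 (fun k ω => ¬ E k ω) hE'
    have hz := Gau.Adf.glu (Φ := Φ) hy a2
    have h2 := hx.2 _ hz
    have u2 : UB (fun k => (reS x (fun k ω => ¬ E k ω) k).sc / (S.F k).n) := Gau.sc_UBf _ a2
    have t1 := (tE.mul (ul_tendsto uy)).add ((tE.const_sub 1).mul (ul_tendsto u2))
    have t2 := (tE.mul (ul_tendsto u1)).add ((tE.const_sub 1).mul (ul_tendsto u2))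
    have e1 : (fun k => (gluS (lbS x).pj E y (reS x (fun k ω => ¬ E k ω)) k).sc / (S.F k).n) = fun k =>
        (x k).l.T.pb (E k) * ((y k).sc / (S.F k).n) +
          (1 - (x k).l.T.pb (E k)) * ((reS x (fun k ω => ¬ E k ω) k).sc / (S.F k).n) := by
      funext k
      rw [gluS_sc, add_div, mul_div_assoc, mul_div_assoc]
      rfl
    have e2 : (fun k => (x k).sc / (S.F k).n) = fun k =>
        (x k).l.T.pb (E k) * ((reS x E k).sc / (S.F k).n) +
          (1 - (x k).l.T.pb (E k)) * ((reS x (fun k ω => ¬ E k ω) k).sc / (S.F k).n) := by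
      funext k
      rw [reS_sc x E k, add_div, mul_div_assoc, mul_div_assoc]
    rw [e1, e2, ul_eq t1, ul_eq t2] at h2
    have h3 : e * ul (fun k => (y k).sc / (S.F k).n) ≤ e * ul (fun k => (reS x E k).sc / (S.F k).n) := by
      linarith
    exact le_of_mul_le_mul_left h3 hE

end

end Pool.Agent.Helper89.LX

namespace Pool.Agent.Helper84.MT

open Finset Filter Topology Matrix Pool.Agent.Helper69.RK Pool.Agent.Helper31.EC Pool.Agent.Helper31.EC.Sp
open Pool.Agent.Helper40.EL Pool.Agent.Helper89.LX Pool.Agent.Helper3.LF Pool.Agent.Helper59.EV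
open Pool.Agent.Helper95.LF (PdM)
open Pool.Agent.Helper14.MC (gx vx vol_eq vx_UB)

noncomputable section

variable {S T : Sp} {M D : ℕ} {E : ℕ → ℕ} {ι κ : Type}

theorem gaq_im (p : Pj T S) (A : ∀ k, (T.F k).Ω → Prop) (Q : S.VV M) (D : ℕ) :
    gaq (Q.im p A) D = (gaq Q D).im p A := Gau.ext' rfl rfl

/-- canonical forms are canonical on events of the space of their label -/
theorem MSys.IsCan.re [Finite ι] {s : MSys S M E ι} {c : ℝ} {x : ∀ k, FD (S.F k) (Mon M D)}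
    (h : s.IsCan D c x) (A : ∀ k, ((lbS x).sp.F k).Ω → Prop) (hA : 0 < ul ((lbS x).sp.pr A)) :
    (s.im (lbS x).pj A hA).IsCan D c (reS x A) := by
  refine ⟨?_, MSys.IsKap.im h.2 A hA⟩
  rw [MSys.cnd_im]
  have h2 : gaq (s.im (lbS x).pj A hA).Q D = (gaq s.Q D).im (lbS x).pj A := gaq_im _ _ _ _
  rw [h2]
  exact Gau.Optf.re h.1 A hA

theorem reS_vx (Q : S.VV M) (x : ∀ k, FD (S.F k) (Mon M D)) (A : ∀ k, ((lbS x).sp.F k).Ω → Prop) (k : ℕ) :
    vx Q x k = (x k).l.T.pb (A k) * vx (Q.im (lbS x).pj A) (reS x A) k +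
      (1 - (x k).l.T.pb (A k)) * vx (Q.im (lbS x).pj fun k ω => ¬ A k ω) (reS x fun k ω => ¬ A k ω) k :=
  sum_rest (x k).l.T (A k) (fun ω => gx Q k ((x k).l.p.π ω) ((x k).g ω))

/-- the volume of a form is additive over events of the space of the label -/
theorem vol_re [Finite κ] {A : κ → Part S} {Q : S.VV M} {x : ∀ k, FD (S.F k) (Mon M D)}
    (hx : (gaq Q D).Adf A x) (B : ∀ k, ((lbS x).sp.F k).Ω → Prop) (hB : 0 < ul ((lbS x).sp.pr B))
    (hB' : 0 < ul ((lbS x).sp.pr fun k ω => ¬ B k ω)) :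
    vol Q D x = ul ((lbS x).sp.pr B) * vol (Q.im (lbS x).pj B) D (reS x B) +
      (1 - ul ((lbS x).sp.pr B)) * vol (Q.im (lbS x).pj fun k ω => ¬ B k ω) D (reS x fun k ω => ¬ B k ω) := by
  set e := ul ((lbS x).sp.pr B) with he
  have tE : Tendsto (fun k => (x k).l.T.pb (B k)) UF (𝓝 e) := ul_tendsto (UB_pr (S := (lbS x).sp) B)
  have a1 := Gau.Adf.re hx B hB
  have a2 := Gau.Adf.re hx (fun k ω => ¬ B k ω) hB'
  rw [← gaq_im] at a1 a2
  have u1 := ul_tendsto (vx_UB a1)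
  have u2 := ul_tendsto (vx_UB a2)
  have t := (tE.mul u1).add ((tE.const_sub 1).mul u2)
  rw [vol_eq, vol_eq, vol_eq]
  have e1 : vx Q x = fun k => (x k).l.T.pb (B k) * vx (Q.im (lbS x).pj B) (reS x B) k +
      (1 - (x k).l.T.pb (B k)) * vx (Q.im (lbS x).pj fun k ω => ¬ B k ω) (reS x fun k ω => ¬ B k ω) k :=
    funext fun k => reS_vx Q x B k
  rw [e1, ul_eq t]
  ring

/-- the volume of a window is additive over events of the space of the label of its canonical form -/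
theorem MSys.vol_re [Finite ι] {s : MSys S M E ι} {c : ℝ} {x : ∀ k, FD (S.F k) (Mon M D)} (h : s.IsCan D c x)
    (A : ∀ k, ((lbS x).sp.F k).Ω → Prop) (hA : 0 < ul ((lbS x).sp.pr A))
    (hA' : 0 < ul ((lbS x).sp.pr fun k ω => ¬ A k ω)) :
    s.vol D c = ul ((lbS x).sp.pr A) * (s.im (lbS x).pj A hA).vol D c +
      (1 - ul ((lbS x).sp.pr A)) * (s.im (lbS x).pj (fun k ω => ¬ A k ω) hA').vol D c := by
  rw [← s.vol_eq h.1, ← (s.im (lbS x).pj A hA).vol_eq (h.re A hA).1,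
    ← (s.im (lbS x).pj (fun k ω => ¬ A k ω) hA').vol_eq (h.re _ hA').1]
  exact Pool.Agent.Helper84.MT.vol_re h.1.1 A hA hA'

end

end Pool.Agent.Helper84.MT
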