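import Pool.Agent.Helper84.MT.Add
import Pool.Agent.Helper14.MC.Vopt
import Pool.Agent.Helper59.EV.FdgS

/-! MULTI-TYPE LAYER: canonical forms under extensions. Labels with forms go down and up along an extension; conditions
may be replaced and added; the volume of the window `c` of a system. -/

set_option autoImplicit false

namespace Pool.Agent.Helper89.LX

open Finset Filter Topology Matrix Pool.Agent.Helper69.RK Pool.Agent.Helper31.EC Pool.Agent.Helper31.EC.Sp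
open Pool.Agent.Helper40.EL
open Pool.Agent.Helper95.LF (PdM)

noncomputable section

variable {ι : Type} {S T : Sp} {κ κ' : Type}

/-! ### labels with forms go down and up -/

/-- a label with forms of an extension as a label with forms of the space -/
def dnFD {T F : FSp} (p : FPj T F) (hn : T.n = F.n) (x : FD T ι) : FD F ι where
  l := FLab.down p hn x.l
  g := x.g
  g' := x.g'
  meas := x.meas

/-- a label with forms of the space as a label with forms of an extension -/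
def upFD {T F : FSp} (p : FPj T F) (hn : T.n = F.n) (x : FD F ι) : FD T ι where
  l := x.l.up' p hn
  g := fun w => x.g w.1
  g' := fun w => x.g' w.1
  meas := by
    intro w w' h h' hV hZ
    have k3 : (x.l.amx p).sp.μ w ≠ 0 := h
    have k4 : (x.l.amx p).sp.μ w' ≠ 0 := h'
    have k5 := ((x.l.amx p).supp w k3).2.1
    have k6 := ((x.l.amx p).supp w' k4).2.1
    have k7 : x.l.T.Z w.1 w'.1 := ((x.l.amx p).p1.hZ w w' k3 k4).mp hZ
    exact x.meas w.1 w'.1 k5 k6 hV k7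

def dnS (p : Pj T S) (x : ∀ k, FD (T.F k) ι) : ∀ k, FD (S.F k) ι := fun k => dnFD (p.fp k) (p.hn k) (x k)

def upS (p : Pj T S) (x : ∀ k, FD (S.F k) ι) : ∀ k, FD (T.F k) ι := fun k => upFD (p.fp k) (p.hn k) (x k)

theorem dnS_l (p : Pj T S) (x : ∀ k, FD (T.F k) ι) :
    (fun k => (dnS p x k).l) = Lab.down p (fun k => (x k).l) := rfl

theorem upS_l (p : Pj T S) (x : ∀ k, FD (S.F k) ι) :
    (fun k => (upS p x k).l) = Lab.up' p (fun k => (x k).l) := rfl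

variable [Fintype ι] [DecidableEq ι]

theorem dnS_sc (p : Pj T S) (x : ∀ k, FD (T.F k) ι) (k : ℕ) : (dnS p x k).sc = (x k).sc := rfl

omit [Fintype ι] [DecidableEq ι] in
/-- expectations of the pulled label -/
theorem up_sum {T F : FSp} (p : FPj T F) (hn : T.n = F.n) (x : FD F ι) (f : T.Ω → F.Ω → Matrix ι ι ℝ → Matrix ι ι ℝ → ℝ)
    (g : F.Ω → Matrix ι ι ℝ → Matrix ι ι ℝ → ℝ) (hf : ∀ ω A B, f ω (p.π ω) A B = g (p.π ω) A B) :
    ∑ w, (upFD p hn x).l.T.μ w * f ((upFD p hn x).l.p.π w) (p.π ((upFD p hn x).l.p.π w)) ((upFD p hn x).g w)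
      ((upFD p hn x).g' w) = ∑ ω, x.l.T.μ ω * g (x.l.p.π ω) (x.g ω) (x.g' ω) := by
  have h4 := Pool.Agent.Helper59.EV.sum_pull (x.l.amx p).p1 (fun a => g (x.l.p.π a) (x.g a) (x.g' a))
  refine Eq.trans (Finset.sum_congr rfl fun w _ => ?_) h4
  by_cases h0 : (x.l.amx p).sp.μ w = 0
  · have h1 : (upFD p hn x).l.T.μ w = 0 := h0
    rw [h1, h0, zero_mul, zero_mul]
  · have h5 : x.l.p.π w.1 = p.π w.2 := ((x.l.amx p).supp w h0).1
    show (x.l.amx p).sp.μ w * f w.2 (p.π w.2) (x.g w.1) (x.g' w.1) =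
      (x.l.amx p).sp.μ w * g (x.l.p.π w.1) (x.g w.1) (x.g' w.1)
    rw [hf, h5]

theorem upS_sc (p : Pj T S) (x : ∀ k, FD (S.F k) ι) (k : ℕ) : (upS p x k).sc = (x k).sc :=
  up_sum (p.fp k) (p.hn k) (x k) (fun _ _ A _ => Real.logb 2 A.det) (fun _ A _ => Real.logb 2 A.det)
    (fun _ _ _ => rfl)

/-- the gauge on an extension -/
def Gau.pull (Φ : Gau S ι) (p : Pj T S) : Gau T ι where
  φ := fun k ω A => Φ.φ k (p.π k ω) A
  add := fun k ω A B => Φ.add k _ A B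
  nn := fun k ω A hA => Φ.nn k _ A hA
  C := Φ.C
  C0 := Φ.C0
  cap := by
    filter_upwards [Φ.cap] with k hk ω hω A hA x
    rw [p.hn k]
    exact hk _ (p.supp k ω hω) A hA x
  one := by
    obtain ⟨K, hK, hb⟩ := Φ.one
    refine ⟨K, p.sub hK, ?_⟩
    filter_upwards [hb] with k hk ω hω
    exact hk _ (p.supp k ω hω)

theorem Gau.ext' {G G' : Gau S ι} (h1 : G.φ = G'.φ) (h2 : G.C = G'.C) : G = G' := by
  rcases G with ⟨φ, _, _, C, _, _, _⟩
  rcases G' with ⟨φ', _, _, C', _, _, _⟩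
  simp only at h1 h2
  subst h1 h2
  rfl

theorem Gau.pull_cp (Φ : Gau S ι) (p : Pj T S) (k : ℕ) : (Φ.pull p).cp k = Φ.cp k := by
  unfold Gau.cp
  rw [p.hn k]
  rfl

variable {Φ : Gau S ι}

/-- the conditions on the forms of an admissible sequence -/
def Gau.Fm (Φ : Gau S ι) (x : ∀ k, FD (S.F k) ι) : Prop := ∀ η : ℝ, 0 < η → ∀ᶠ k in UF,
  (∀ ω, (x k).l.T.μ ω ≠ 0 → Cpd (Φ.cp k) ((x k).g ω) ∧ Cpd (Φ.cp k) ((x k).g' ω)) ∧
  (x k).l.T.pb (fun ω => ¬ Φ.φ k ((x k).l.p.π ω) ((x k).g ω) ≤ 2 ^ (η * (S.F k).n)) ≤ η ∧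
  (x k).l.T.pb (fun ω => ¬ Φ.φ k ((x k).l.p.π ω) ((x k).g' ω) ≤ 2 ^ (η * (S.F k).n)) ≤ η

/-- admissible = no leaks and the conditions on the forms -/
theorem Gau.Adf_iff [Finite κ] {A : κ → Part S} {x : ∀ k, FD (S.F k) ι} :
    Φ.Adf A x ↔ Lab.DMf (fun k => (x k).l) A ∧ Φ.Fm x := by
  constructor
  · intro h
    refine ⟨Gau.Adf.dm Φ h, fun η hη => ?_⟩
    filter_upwards [h η hη] with k hk using hk.2
  · rintro ⟨h1, h2⟩ η hη
    filter_upwards [leak_evf h1 hη, h2 η hη] with k a b using ⟨a, b⟩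

theorem Gau.Adf.fm {A : κ → Part S} {x : ∀ k, FD (S.F k) ι} (h : Φ.Adf A x) : Φ.Fm x := by
  intro η hη
  filter_upwards [h η hη] with k hk using hk.2

theorem Gau.Fm.dn {p : Pj T S} {x : ∀ k, FD (T.F k) ι} (h : (Φ.pull p).Fm x) : Φ.Fm (dnS p x) := by
  intro η hη
  filter_upwards [h η hη] with k hk
  rw [Gau.pull_cp, p.hn k] at hk
  exact hk

theorem Gau.Fm.up {x : ∀ k, FD (S.F k) ι} (h : Φ.Fm x) (p : Pj T S) : (Φ.pull p).Fm (upS p x) := by
  intro η hη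
  filter_upwards [h η hη] with k hk
  rw [Gau.pull_cp, p.hn k]
  refine ⟨fun w hw => ?_, ?_, ?_⟩
  · have k5 := (((x k).l.amx (p.fp k)).supp w hw).2.1
    exact hk.1 w.1 k5
  · refine le_trans (le_of_eq ?_) hk.2.1
    have h1 := Pool.Agent.Helper59.EV.pb_fval (F := T.F k)
      (fun ω A => ¬ Φ.φ k (p.π k ω) A ≤ 2 ^ (η * (S.F k).n)) (upS p x k)
    have h2 := Pool.Agent.Helper59.EV.pb_fval (F := S.F k)
      (fun ω A => ¬ Φ.φ k ω A ≤ 2 ^ (η * (S.F k).n)) (x k)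
    have h3 := up_sum (p.fp k) (p.hn k) (x k) (fun _ ω A _ => e1_ind (¬ Φ.φ k ω A ≤ 2 ^ (η * (S.F k).n)))
      (fun ω A _ => e1_ind (¬ Φ.φ k ω A ≤ 2 ^ (η * (S.F k).n))) (fun _ _ _ => rfl)
    exact h1.trans (h3.trans h2.symm)
  · refine le_trans (le_of_eq ?_) hk.2.2
    have h1 := Pool.Agent.Helper59.EV.pb_fval' (F := T.F k)
      (fun ω A => ¬ Φ.φ k (p.π k ω) A ≤ 2 ^ (η * (S.F k).n)) (upS p x k)
    have h2 := Pool.Agent.Helper59.EV.pb_fval' (F := S.F k)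
      (fun ω A => ¬ Φ.φ k ω A ≤ 2 ^ (η * (S.F k).n)) (x k)
    have h3 := up_sum (p.fp k) (p.hn k) (x k) (fun _ ω _ A => e1_ind (¬ Φ.φ k ω A ≤ 2 ^ (η * (S.F k).n)))
      (fun ω _ A => e1_ind (¬ Φ.φ k ω A ≤ 2 ^ (η * (S.F k).n))) (fun _ _ _ => rfl)
    exact h1.trans (h3.trans h2.symm)

/-- more and coarser conditions -/
theorem Gau.Adf.mono_of [Finite κ'] {A : κ → Part S} {A' : κ' → Part S} {x : ∀ k, FD (S.F k) ι} (hx : Φ.Adf A x)
    (h : ∀ i, ∃ j, PLe (A j) (A' i)) : Φ.Adf A' x :=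
  Gau.Adf_iff.2 ⟨(Gau.Adf.dm Φ hx).mono h, hx.fm⟩

/-- admissible sequences go down -/
theorem Gau.Adf.dn [Finite κ] (p : Pj T S) {A : κ → Part S} {x : ∀ k, FD (T.F k) ι}
    (hx : (Φ.pull p).Adf (fun i => (A i).pull p) x) : Φ.Adf A (dnS p x) :=
  Gau.Adf_iff.2 ⟨Lab.DMf.down p (Gau.Adf.dm _ hx), hx.fm.dn⟩

/-- admissible sequences go down, with replaced and added conditions -/
theorem Gau.Adf.dn_of [Finite κ] (p : Pj T S) {A : κ → Part S} {C : κ' → Part T} {x : ∀ k, FD (T.F k) ι}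
    (hC : ∀ i, ∃ j, Nul S (fun k => I (C j k) (p.fp k).top ((p.fp k).map (A i k)))) (hx : (Φ.pull p).Adf C x) :
    Φ.Adf A (dnS p x) :=
  Gau.Adf_iff.2 ⟨Lab.DMf.down_of p hC (Gau.Adf.dm _ hx), hx.fm.dn⟩

/-- admissible sequences go up -/
theorem Gau.Adf.up [Finite κ] {A : κ → Part S} {x : ∀ k, FD (S.F k) ι} (hx : Φ.Adf A x) (p : Pj T S) :
    (Φ.pull p).Adf (fun i => (A i).pull p) (upS p x) :=
  Gau.Adf_iff.2 ⟨Lab.DMf.up' p (Gau.Adf.dm Φ hx), hx.fm.up p⟩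

/-- optimal forms go down -/
theorem Gau.Optf.dn [Finite κ] (p : Pj T S) {A : κ → Part S} {x : ∀ k, FD (T.F k) ι}
    (hx : (Φ.pull p).Optf (fun i => (A i).pull p) x) : Φ.Optf A (dnS p x) := by
  refine ⟨Gau.Adf.dn p hx.1, fun y hy => ?_⟩
  have h1 := hx.2 _ (Gau.Adf.up hy p)
  have e1 : (fun k => (upS p y k).sc / (T.F k).n) = fun k => (y k).sc / (S.F k).n := by
    funext k; rw [upS_sc, p.hn k]
  have e2 : (fun k => (x k).sc / (T.F k).n) = fun k => (dnS p x k).sc / (S.F k).n := by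
    funext k; rw [dnS_sc, p.hn k]
  rw [e1, e2] at h1
  exact h1

/-- optimal forms go up -/
theorem Gau.Optf.up [Finite κ] {A : κ → Part S} {x : ∀ k, FD (S.F k) ι} (hx : Φ.Optf A x) (p : Pj T S) :
    (Φ.pull p).Optf (fun i => (A i).pull p) (upS p x) := by
  refine ⟨Gau.Adf.up hx.1 p, fun y hy => ?_⟩
  have h1 := hx.2 _ (Gau.Adf.dn p hy)
  have e1 : (fun k => (upS p x k).sc / (T.F k).n) = fun k => (x k).sc / (S.F k).n := by
    funext k; rw [upS_sc, p.hn k]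
  have e2 : (fun k => (y k).sc / (T.F k).n) = fun k => (dnS p y k).sc / (S.F k).n := by
    funext k; rw [dnS_sc, p.hn k]
  rw [e1, e2]
  exact h1

end

end Pool.Agent.Helper89.LX

namespace Pool.Agent.Helper84.MT

open Finset Filter Topology Matrix Pool.Agent.Helper69.RK Pool.Agent.Helper31.EC Pool.Agent.Helper31.EC.Sp
open Pool.Agent.Helper40.EL Pool.Agent.Helper89.LX Pool.Agent.Helper3.LF
open Pool.Agent.Helper95.LF (PdM)

noncomputable section

variable {S T : Sp} {M D : ℕ} {E : ℕ → ℕ} {ι κ : Type}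

theorem gaq_pull_φ (p : Pj T S) (Q : S.VV M) (D : ℕ) (k : ℕ) (ω : (T.F k).Ω)
    (A : Matrix (Mon M D) (Mon M D) ℝ) : (gaq (p.vv Q) D).φ k ω A = ((gaq Q D).pull p).φ k ω A := by
  have e1 : T.dl 1 k = S.dl 1 k := by unfold Sp.dl; rw [p.hn k]
  have e2 : (gaq (p.vv Q) D).φ k ω A = phi (T.dl 1 k) A (Q.v k (p.π k ω)) := rfl
  have e3 : ((gaq Q D).pull p).φ k ω A = phi (S.dl 1 k) A (Q.v k (p.π k ω)) := rfl
  rw [e2, e3, e1]

theorem gaq_pull (p : Pj T S) (Q : S.VV M) (D : ℕ) : gaq (p.vv Q) D = (gaq Q D).pull p :=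
  Gau.ext' (funext fun k => funext fun ω => funext fun A => gaq_pull_φ p Q D k ω A) rfl

theorem gx_pull (p : Pj T S) (Q : S.VV M) (k : ℕ) (ω : (T.F k).Ω) (A : Matrix (Mon M D) (Mon M D) ℝ) :
    Pool.Agent.Helper14.MC.gx (p.vv Q) k ω A = Pool.Agent.Helper14.MC.gx Q k (p.π k ω) A := by
  have e1 : T.dl 1 k = S.dl 1 k := by unfold Sp.dl; rw [p.hn k]
  have e2 : Pool.Agent.Helper14.MC.gx (p.vv Q) k ω A =
      Real.logb 2 (GQ (T.dl 1 k) A (Q.v k (p.π k ω))) / (2 * (T.F k).n) := rfl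
  rw [e2, e1, p.hn k]
  rfl

theorem vol_dn (p : Pj T S) (Q : S.VV M) (x : ∀ k, FD (T.F k) (Mon M D)) :
    vol (p.vv Q) D x = vol Q D (dnS p x) := by
  have h1 : Pool.Agent.Helper14.MC.vx (p.vv Q) x = Pool.Agent.Helper14.MC.vx Q (dnS p x) := by
    funext k
    apply Finset.sum_congr rfl
    intro ω _
    rw [gx_pull]
    rfl
  rw [Pool.Agent.Helper14.MC.vol_eq, Pool.Agent.Helper14.MC.vol_eq, h1]

theorem vol_up (p : Pj T S) (Q : S.VV M) (x : ∀ k, FD (S.F k) (Mon M D)) :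
    vol (p.vv Q) D (upS p x) = vol Q D x := by
  have h1 : Pool.Agent.Helper14.MC.vx (p.vv Q) (upS p x) = Pool.Agent.Helper14.MC.vx Q x := by
    funext k
    have h2 := up_sum (p.fp k) (p.hn k) (x k) (fun ω _ A _ => Pool.Agent.Helper14.MC.gx (p.vv Q) k ω A)
      (fun ω A _ => Pool.Agent.Helper14.MC.gx Q k ω A) (fun ω A _ => gx_pull p Q k ω A)
    exact h2
  rw [Pool.Agent.Helper14.MC.vol_eq, Pool.Agent.Helper14.MC.vol_eq, h1]

/-- canonical forms go down -/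
theorem MSys.IsCan.dn [Finite ι] (p : Pj T S) {s : MSys S M E ι} {c : ℝ} {x : ∀ k, FD (T.F k) (Mon M D)}
    (h : (s.pull p).IsCan D c x) : s.IsCan D c (dnS p x) := by
  refine ⟨?_, MSys.IsKap.down p h.2⟩
  have h1 := h.1
  rw [MSys.cnd_pull] at h1
  have h2 : (gaq (s.pull p).Q D) = (gaq s.Q D).pull p := gaq_pull p s.Q D
  rw [h2] at h1
  exact Gau.Optf.dn p h1

/-- canonical forms go up -/
theorem MSys.IsCan.up [Finite ι] {s : MSys S M E ι} {c : ℝ} {x : ∀ k, FD (S.F k) (Mon M D)}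
    (h : s.IsCan D c x) (p : Pj T S) : (s.pull p).IsCan D c (upS p x) := by
  refine ⟨?_, MSys.IsKap.up' p h.2⟩
  rw [MSys.cnd_pull]
  have h2 : (gaq (s.pull p).Q D) = (gaq s.Q D).pull p := gaq_pull p s.Q D
  rw [h2]
  exact Gau.Optf.up h.1 p

/-- the VOLUME of the window `c` -/
def MSys.vol [Finite ι] (s : MSys S M E ι) (D : ℕ) (c : ℝ) : ℝ :=
  Pool.Agent.Helper84.MT.vol s.Q D (s.exists_can D c).choose

theorem MSys.vol_eq [Finite ι] (s : MSys S M E ι) {D : ℕ} {c : ℝ} {x : ∀ k, FD (S.F k) (Mon M D)}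
    (hx : (gaq s.Q D).Optf (s.cnd c) x) : Pool.Agent.Helper84.MT.vol s.Q D x = s.vol D c :=
  Pool.Agent.Helper14.MC.vol_opt_eq hx (s.exists_can D c).choose_spec.1

/-- the volume of the window is the least volume of all admissible forms -/
theorem MSys.vol_le_of [Finite ι] (s : MSys S M E ι) {D : ℕ} {c : ℝ} {x : ∀ k, FD (S.F k) (Mon M D)}
    (hx : (gaq s.Q D).Adf (s.cnd c) x) : s.vol D c ≤ Pool.Agent.Helper84.MT.vol s.Q D x :=
  Pool.Agent.Helper14.MC.vol_opt_le (s.exists_can D c).choose_spec.1 hx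

theorem MSys.vol_pull [Finite ι] (s : MSys S M E ι) (p : Pj T S) (D : ℕ) (c : ℝ) :
    (s.pull p).vol D c = s.vol D c := by
  obtain ⟨x, hx⟩ := s.exists_can D c
  rw [← s.vol_eq hx.1, ← (s.pull p).vol_eq (hx.up p).1]
  exact vol_up p s.Q x

/-- larger windows have less volume -/
theorem MSys.vol_anti [Finite ι] (s : MSys S M E ι) (D : ℕ) {a b : ℝ} (hab : a ≤ b) :
    s.vol D b ≤ s.vol D a := by
  obtain ⟨x, hx⟩ := s.exists_can D a
  rw [← s.vol_eq hx.1]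
  exact s.vol_le_of (hx.1.1.mono_of fun i => ⟨i, s.cnd_mono hab i⟩)

theorem MSys.vol_union_ge [Finite ι] [Finite κ] (s : MSys S M E ι) (l : κ → Leaf S s.Q E) (D : ℕ) (c : ℝ) :
    s.vol D c ≤ (s.union l).vol D c := by
  obtain ⟨x, hx⟩ := (s.union l).exists_can D c
  rw [← (s.union l).vol_eq hx.1]
  refine s.vol_le_of (hx.1.1.mono_of fun i => ?_)
  rcases i with _ | i
  · exact ⟨none, PLe.refl _⟩
  · exact ⟨some (Sum.inl i), PLe.refl _⟩

/-- ADD makes the volume larger -/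
theorem MSys.vol_add_ge [Finite ι] [Finite κ] (p : Pj T S) (s : MSys S M E ι) (l : κ → Leaf T (p.vv s.Q) E)
    (D : ℕ) (c : ℝ) : s.vol D c ≤ (s.add p l).vol D c := by
  rw [← s.vol_pull p]
  exact (s.pull p).vol_union_ge l D c

theorem MSys.vol_ren [Finite ι] [Finite κ] (s : MSys S M E ι) {f : κ → ι} (hf : Function.Surjective f) (D : ℕ)
    (c : ℝ) : (s.ren f).vol D c = s.vol D c := by
  obtain ⟨x, hx⟩ := s.exists_can D c
  rw [← s.vol_eq hx.1]
  exact ((s.ren f).vol_eq ((s.IsCan_ren_iff hf D c x).2 hx).1).symm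

theorem MSys.vol_le_M [Finite ι] (s : MSys S M E ι) (D : ℕ) (c : ℝ) : s.vol D c ≤ M := by
  obtain ⟨x, hx⟩ := s.exists_can D c
  rw [← s.vol_eq hx.1]
  exact Pool.Agent.Helper14.MC.vol_le hx.1.1

/-- `ST` in terms of the volume -/
theorem STm_iff [Finite ι] : STm D M E ι ↔ ∀ (S : Sp) (s : MSys S M E ι) (x : ∀ k, FD (S.F k) (Mon M D)),
    s.IsCan D 0 x → s.vol D 0 ≤ H (up1 (fun k => (x k).l) (s.Q.dg 1)) := by
  constructor
  · intro h S s x hx
    rw [← s.vol_eq hx.1]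
    exact h S s x hx
  · intro h S s x hx
    rw [s.vol_eq hx.1]
    exact h S s x hx

end

end Pool.Agent.Helper84.MT
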