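import Pool.Agent.Helper84.MT.RowD
import Pool.Agent.Helper84.MT.Fun
import Pool.Agent.Helper49.MT.Agr
import Pool.Agent.Helper89.MG.Typd
import Pool.Agent.Helper7.GZ.Row
import Pool.Agent.Helper4.VZ.Tm

/-! MULTI-TYPE LAYER: THE ROWS OF A FORM as data of a label (row ROWS). An index with boundedly many values can be added
to every label. With it a label with a form carries `M` polynomials of degree at most `D` whose values are bounded by the
form and whose gradients are bounded by `1 + J` (at every point), and the square of their Jacobian determinant is `GQ` up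
to constants. They are `Rows` in the sense of Helper7/GZ, for every `u` such that `1 + J` is at most `2 ^ (2 (1 - u) n)`. -/

set_option autoImplicit false

namespace Pool.Agent.Helper84.MT

open Finset Filter Topology Matrix Pool.Agent.Helper69.RK Pool.Agent.Helper31.EC Pool.Agent.Helper31.EC.Sp
open Pool.Agent.Helper40.EL Pool.Agent.Helper89.LX Pool.Agent.Helper3.LF Pool.Agent.Helper38.NS Pool.Agent.Helper77.WDG
open Pool.Agent.Helper95.LF (PdM)
open Pool.Agent.Helper7.GZ (Rows)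

noncomputable section

variable {S : Sp} {M D M' : ℕ}

/-! ### functions with boundedly many values -/

/-- a function with boundedly many values has no entropy -/
theorem nul_fin {l : Lab S} {β : Type} [Finite β] (b : ∀ k, (l k).T.Ω → β) (y : ∀ k, FL (l k).T) :
    Nul S (fun k => h (fc (Setoid.ker (b k)) : FL (l k).T) (y k)) := by
  classical
  have := Fintype.ofFinite β
  have h1 : ∀ k, h (fc (Setoid.ker (b k)) : FL (l k).T) (y k) ≤ Real.logb 2 (Fintype.card β) := by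
    intro k
    refine (h_anti bot_le).trans ?_
    have h2 : (⊥ : FL (l k).T) = fc (⊤ : Setoid (l k).T.Ω) := fc_top.symm
    rw [h2]
    refine h_le_log _ _ _ fun ω _ => ?_
    set e : Fin (Fintype.card β) ≃ β := (Fintype.equivFin β).symm with he
    by_cases hne : ∃ ω₀ : (l k).T.Ω, True
    · refine nvf_le_card _ _ _ _ (Fintype.card β) (fun i =>
        if hi : ∃ ω', b k ω' = e i then Quotient.mk (Setoid.ker (b k)) hi.choose
        else Quotient.mk (Setoid.ker (b k)) ω) fun ω' _ _ => ⟨e.symm (b k ω'), ?_⟩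
      have hi : ∃ ω'', b k ω'' = e (e.symm (b k ω')) := ⟨ω', by rw [Equiv.apply_symm_apply]⟩
      rw [dif_pos hi]
      apply Quotient.sound
      show b k ω' = b k hi.choose
      rw [hi.choose_spec, Equiv.apply_symm_apply]
    · exact absurd ⟨ω, trivial⟩ hne
  have h2 : Nul S (fun _ => Real.logb 2 (Fintype.card β)) := S.div_n_tendsto _
  exact h2.of_le (Eventually.of_forall fun k => h_nonneg _ _) (Eventually.of_forall h1)

/-- the label with an index -/
abbrev ixl (l : Lab S) {β : Type} (b : ∀ k, (l k).T.Ω → β) : Lab S := l.addW (fun k => Setoid.ker (b k))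

theorem ixl_DMf {κ : Type} {l : Lab S} {A : κ → Part S} (hl : l.DMf A) {β : Type} [Finite β]
    (b : ∀ k, (l k).T.Ω → β) : (ixl l b).DMf A := hl.addW _ fun _ => nul_fin b _

theorem ixl_IsMaxf {κ : Type} {l : Lab S} {A : κ → Part S} (hl : l.IsMaxf A) {i₀ : κ} (hA : (A i₀).Bd) {β : Type}
    [Finite β] (b : ∀ k, (l k).T.Ω → β) : (ixl l b).IsMaxf A := (hl.fun_small hA _ fun _ => nul_fin b _).2

/-! ### the rows -/

variable {Q : S.VV M}

/-- the point of the label space -/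
theorem form_typ {x : ∀ k, FD (S.F k) (Mon M D)} (hx : (gaq Q D).Fm x) : ∃ K : ℕ → ℝ, S.Sub K ∧
    Typ (S := Lab.sp (fun k => (x k).l)) (fun k (ω : (x k).l.T.Ω) =>
      phi (S.dl 1 k) ((x k).g ω) (Q.v k ((x k).l.p.π ω)) ≤ K k) := by
  obtain ⟨K, hK, hT⟩ := typ_diag (S := Lab.sp (fun k => (x k).l)) (fun k (ω : (x k).l.T.Ω) K =>
    phi (S.dl 1 k) ((x k).g ω) (Q.v k ((x k).l.p.π ω)) ≤ K) (fun η hη => by
      filter_upwards [hx η hη] with k hk
      have h1 := hk.2.1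
      have h2 : ((Lab.sp (fun k => (x k).l)).F k).n = (S.F k).n := (x k).l.hn
      rw [h2]
      exact h1)
  exact ⟨K, (sp_Sub _).mp hK, hT⟩

/-- mean values: a polynomial with a bounded gradient near the point -/
theorem row_lip {p : MvPolynomial (Fin M) ℝ} {q y : Fin M → ℝ} {G L : ℝ} (hG : 0 ≤ G) (hL : 0 ≤ L)
    (hy : ∀ i, |y i - q i| ≤ L)
    (hp : ∀ z : Fin M → ℝ, (∀ i, |z i - q i| ≤ L) → ∀ e : Fin M → ℝ,
      (∑ a, e a * MvPolynomial.eval z (MvPolynomial.pderiv a p)) ^ 2 ≤ G ^ 2 * (e ⬝ᵥ e)) :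
    |MvPolynomial.eval y p - MvPolynomial.eval q p| ≤ G * (Real.sqrt M * L) := by
  set e : Fin M → ℝ := fun i => y i - q i with he
  have hd := fun t : ℝ => Pool.Agent.Helper4.VZ.line_deriv q e p t
  obtain ⟨t, ht, h1⟩ := exists_hasDerivAt_eq_slope (fun t => MvPolynomial.eval (fun k => q k + t * e k) p)
    (fun t => MvPolynomial.eval (fun k => q k + t * e k) (dir e p)) (zero_lt_one' ℝ)
    (continuousOn_of_forall_continuousAt fun t _ => (hd t).continuousAt) (fun t _ => hd t)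
  have e1 : (fun k => q k + 1 * e k) = y := by
    funext k
    rw [he]
    ring
  have e0 : (fun k => q k + 0 * e k) = q := by
    funext k
    ring
  simp only [e1, e0, sub_zero, div_one] at h1
  have e2 : MvPolynomial.eval (fun k => q k + t * e k) (dir e p) =
      ∑ a, e a * MvPolynomial.eval (fun k => q k + t * e k) (MvPolynomial.pderiv a p) := by
    unfold dir
    rw [map_sum]
    exact Finset.sum_congr rfl fun a _ => by rw [map_mul, MvPolynomial.eval_C]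
  have h2 := hp (fun k => q k + t * e k) (fun i => by
    have h3 : q i + t * e i - q i = t * e i := by ring
    rw [h3, abs_mul]
    have h4 : |t| ≤ 1 := by rw [abs_of_pos ht.1]; exact ht.2.le
    calc |t| * |e i| ≤ 1 * L := mul_le_mul h4 (hy i) (abs_nonneg _) zero_le_one
      _ = L := one_mul _) e
  rw [← e2, h1] at h2
  have h5 : e ⬝ᵥ e ≤ M * L ^ 2 := by
    unfold dotProduct
    calc ∑ i, e i * e i ≤ ∑ _i : Fin M, L ^ 2 := by
          apply Finset.sum_le_sum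
          intro i _
          rw [← pow_two, ← sq_abs]
          exact pow_le_pow_left₀ (abs_nonneg _) (hy i) 2
      _ = _ := by rw [Finset.sum_const, Finset.card_univ, Fintype.card_fin, nsmul_eq_mul]
  have h6 : (MvPolynomial.eval y p - MvPolynomial.eval q p) ^ 2 ≤ (G * (Real.sqrt M * L)) ^ 2 := by
    calc (MvPolynomial.eval y p - MvPolynomial.eval q p) ^ 2 ≤ G ^ 2 * (e ⬝ᵥ e) := h2
      _ ≤ G ^ 2 * (M * L ^ 2) := mul_le_mul_of_nonneg_left h5 (sq_nonneg _)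
      _ = _ := by
        rw [mul_pow, mul_pow, Real.sq_sqrt (Nat.cast_nonneg M)]
  exact abs_le_of_sq_le_sq h6 (by positivity)

/-- `1 + J` is at most `2 ^ (2 (1 - u) n)`, typically -/
def GrB (Q : S.VV M) (x : ∀ k, FD (S.F k) (Mon M D)) (u : ℝ) : Prop := ∃ K : ℕ → ℝ, S.Sub K ∧
  Typ (S := Lab.sp (fun k => (x k).l)) (fun k (ω : (x k).l.T.Ω) => ∀ e : Fin M → ℝ,
    e ⬝ᵥ ((1 + Jq (S.dl 1 k) ((x k).g ω) (Q.v k ((x k).l.p.π ω))) *ᵥ e) ≤
      K k * (S.dl u k / S.dl 1 k) ^ 2 * (e ⬝ᵥ e))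

/-- ROWS of a form, with any choice of the numbers of the rows -/
def rowsOf (hD : 1 ≤ D) {x : ∀ k, FD (S.F k) (Mon M D)} (hx : (gaq Q D).Fm x)
    (b : ∀ k, (x k).l.T.Ω → Fin M' → RIx M D) {u : ℝ} (hu : GrB Q x u) :
    Rows Q (ixl (fun k => (x k).l) b) M' D (D + 1) u where
  p := fun k (ω : (x k).l.T.Ω) j => rfam (S.dl 1 k) ((x k).g ω) (b k ω j)
  deg := fun k ω j => rfam_deg hD _ _ _
  fn := Eventually.of_forall fun k ω ω' h h' hZ hV => by
    have h1 := (x k).meas ω ω' h h' hV.1 hZ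
    have h2 : b k ω = b k ω' := hV.2
    funext j
    show rfam (S.dl 1 k) ((x k).g ω) (b k ω j) = rfam (S.dl 1 k) ((x k).g ω') (b k ω' j)
    rw [h1.1, h2]
  cf := by
    refine ⟨fun _ => Fintype.card (Mon M D) * 2 ^ D, S.Sub_const (by positivity), ?_⟩
    filter_upwards [hx 1 one_pos] with k hk ω hω j a
    have h1 := (hk.1 ω hω).1
    have h2 := rfam_nrm (S.dl_pos 1 k).le (dl_one_le S k) ((gaq Q D).one_le_cp k) h1 (b k ω j)
    refine (coeff_le_nrm _ a).trans (h2.trans ?_)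
    apply mul_le_mul_of_nonneg_left _ (by positivity)
    have h3 : (gaq Q D).cp k = (2 ^ (((D : ℝ) + 1) * (S.F k).n)) ^ 2 := by
      unfold Gau.cp
      rw [← Real.rpow_natCast, ← Real.rpow_mul (by norm_num)]
      congr 1
      show (2 * (D : ℝ) + 1 + 1) * (S.F k).n = _
      push_cast
      ring
    rw [h3, Real.sqrt_sq (by positivity)]
  bd := by
    obtain ⟨K, hK, hT⟩ := form_typ hx
    refine ⟨fun k => K k + 1, hK.add (S.Sub_const zero_le_one), ?_⟩
    refine Typ.mono (S := Lab.sp (fun k => (x k).l)) hT ?_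
    filter_upwards [hx 1 one_pos, hK.1] with k hk hK0 ω hω h1 j
    have h2 := rfam_sq_le hD (S.dl 1 k) (hk.1 ω hω).1 (Q.v k ((x k).l.p.π ω)) (b k ω j)
    refine abs_le_of_sq_le_sq ?_ (by linarith)
    refine h2.trans (h1.trans ?_)
    nlinarith
  lp := by
    intro L hL
    obtain ⟨K, hK, hT⟩ := hu
    have hs : S.Sub (fun k => (1 + cQ M D * (L k + 1) ^ (2 * D)) * (K k + 1)) :=
      ((S.Sub_const zero_le_one).add ((S.Sub_const (by linarith [cQ_one M D])).mul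
        (Sub_pow' (hL.add (S.Sub_const zero_le_one)) _))).mul (hK.add (S.Sub_const zero_le_one))
    refine ⟨fun k => ((1 + cQ M D * (L k + 1) ^ (2 * D)) * (K k + 1)) * (Real.sqrt M * L k), hs.mul
      ((S.Sub_const (Real.sqrt_nonneg _)).mul hL), ?_⟩
    refine Typ.mono (S := Lab.sp (fun k => (x k).l)) hT ?_
    filter_upwards [hx 1 one_pos, hK.1, hL.1] with k hk hK0 hL0 ω hω h1 y hy j
    have hc := (hk.1 ω hω).1
    have hpd := cpd_pdm hc
    have hq0 : 0 ≤ cQ M D * (L k + 1) ^ (2 * D) := mul_nonneg (by linarith [cQ_one M D]) (by positivity)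
    set T : ℝ := (1 + cQ M D * (L k + 1) ^ (2 * D)) * (K k + 1) with hT'
    have hT1 : 1 ≤ T := by
      rw [hT']
      nlinarith
    have hdl : 0 < S.dl u k / S.dl 1 k := div_pos (S.dl_pos _ _) (S.dl_pos _ _)
    have h2 := row_lip (p := rfam (S.dl 1 k) ((x k).g ω) (b k ω j)) (q := Q.v k ((x k).l.p.π ω)) (y := y)
      (G := T * (S.dl u k / S.dl 1 k)) (L := L k * S.dl 1 k) (by positivity)
      (mul_nonneg hL0 (S.dl_pos _ _).le) hy (fun z hz e => ?_)
    · refine h2.trans (le_of_eq ?_)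
      have := (S.dl_pos 1 k).ne'
      field_simp
    · refine (rfam_grad (S.dl 1 k) hpd z _ e).trans ?_
      have h3 := Jq_comp' ((x k).g ω) hpd (S.dl 1 k) (S.dl 1 k) (L k + 1) (S.dl_pos _ _) (S.dl_pos _ _).le
        (by linarith) (Q.v k ((x k).l.p.π ω)) z (fun i => by
          have := hz i
          nlinarith) e
      have h4 := h1 e
      have h5 : ∀ B : Matrix (Fin M) (Fin M) ℝ, e ⬝ᵥ ((1 + B) *ᵥ e) = e ⬝ᵥ e + e ⬝ᵥ (B *ᵥ e) := by
        intro B
        rw [Matrix.add_mulVec, Matrix.one_mulVec, dotProduct_add]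
      rw [h5] at h4 ⊢
      have h6 : 0 ≤ e ⬝ᵥ (Jq (S.dl 1 k) ((x k).g ω) (Q.v k ((x k).l.p.π ω)) *ᵥ e) :=
        Jq_nonneg _ (fun v => hpd.nonneg v) _ _
      have h7 := dot_self_nonneg e
      set J := e ⬝ᵥ (Jq (S.dl 1 k) ((x k).g ω) (Q.v k ((x k).l.p.π ω)) *ᵥ e) with hJ
      set c1 := cQ M D * (L k + 1) ^ (2 * D) with hc1
      have h8 : e ⬝ᵥ e + e ⬝ᵥ (Jq (S.dl 1 k) ((x k).g ω) z *ᵥ e) ≤ (1 + c1) * (e ⬝ᵥ e + J) := by nlinarith
      have h9 : (1 + c1) * (e ⬝ᵥ e + J) ≤ (1 + c1) * (K k * (S.dl u k / S.dl 1 k) ^ 2 * (e ⬝ᵥ e)) :=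
        mul_le_mul_of_nonneg_left h4 (by linarith)
      refine h8.trans (h9.trans ?_)
      have h10 : 0 ≤ (S.dl u k / S.dl 1 k) ^ 2 * (e ⬝ᵥ e) := mul_nonneg (sq_nonneg _) h7
      have h11 : (1 + c1) * K k ≤ T ^ 2 := by
        have h12 : (1 + c1) * K k ≤ T := by
          rw [hT']
          nlinarith
        nlinarith
      calc (1 + c1) * (K k * (S.dl u k / S.dl 1 k) ^ 2 * (e ⬝ᵥ e)) =
            ((1 + c1) * K k) * ((S.dl u k / S.dl 1 k) ^ 2 * (e ⬝ᵥ e)) := by ring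
        _ ≤ T ^ 2 * ((S.dl u k / S.dl 1 k) ^ 2 * (e ⬝ᵥ e)) := mul_le_mul_of_nonneg_right h11 h10
        _ = _ := by ring

/-! ### the Jacobian determinant -/

/-- the numbers of the best `M` rows -/
def bnum (Q : S.VV M) (x : ∀ k, FD (S.F k) (Mon M D)) (k : ℕ) (ω : (x k).l.T.Ω) : Fin M → RIx M D :=
  btup (S.dl 1 k) ((x k).g ω) (Q.v k ((x k).l.p.π ω))

/-- the number of the best row in the direction `j`, as a family with one member -/
def bnum1 (Q : S.VV M) (x : ∀ k, FD (S.F k) (Mon M D)) (j : Fin M) (k : ℕ) (ω : (x k).l.T.Ω) : Fin 1 → RIx M D :=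
  fun _ => brow (S.dl 1 k) ((x k).g ω) (Q.v k ((x k).l.p.π ω)) j

theorem rows_p (hD : 1 ≤ D) {x : ∀ k, FD (S.F k) (Mon M D)} (hx : (gaq Q D).Fm x)
    (b : ∀ k, (x k).l.T.Ω → Fin M' → RIx M D) {u : ℝ} (hu : GrB Q x u) (k : ℕ) (ω : (x k).l.T.Ω) (j : Fin M') :
    (rowsOf hD hx b hu).p k ω j = rfam (S.dl 1 k) ((x k).g ω) (b k ω j) := rfl

/-- the forms are eventually positive definite on the support -/
theorem form_pd {x : ∀ k, FD (S.F k) (Mon M D)} (hx : (gaq Q D).Fm x) :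
    ∀ᶠ k in UF, ∀ ω, (x k).l.T.μ ω ≠ 0 → PdM ((x k).g ω) := by
  filter_upwards [hx 1 one_pos] with k hk ω hω using cpd_pdm (hk.1 ω hω).1

/-- THE JACOBIAN DETERMINANT of the best rows is the volume of the form -/
theorem rows_jac (hD : 1 ≤ D) {x : ∀ k, FD (S.F k) (Mon M D)} (hx : (gaq Q D).Fm x) {u : ℝ} (hu : GrB Q x u) :
    ∀ᶠ k in UF, ∀ ω : (x k).l.T.Ω, (x k).l.T.μ ω ≠ 0 →
      GQ (S.dl 1 k) ((x k).g ω) (Q.v k ((x k).l.p.π ω)) ≤ (nrw M D : ℝ) ^ M *
        (jacM ((rowsOf hD hx (bnum Q x) hu).p k ω) (Q.v k ((x k).l.p.π ω))).det ^ 2 ∧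
      (jacM ((rowsOf hD hx (bnum Q x) hu).p k ω) (Q.v k ((x k).l.p.π ω))).det ^ 2 ≤
        (Nat.factorial M : ℝ) * GQ (S.dl 1 k) ((x k).g ω) (Q.v k ((x k).l.p.π ω)) := by
  filter_upwards [form_pd hx] with k hk ω hω
  exact ⟨btup_spec _ (hk ω hω) _, rfam_det_le _ (hk ω hω) _ _⟩

/-- the partial derivative of the best row in a direction is the diagonal entry of `1 + J` -/
theorem rows_row (hD : 1 ≤ D) {x : ∀ k, FD (S.F k) (Mon M D)} (hx : (gaq Q D).Fm x) {u : ℝ} (hu : GrB Q x u)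
    (j : Fin M) : ∀ᶠ k in UF, ∀ ω : (x k).l.T.Ω, (x k).l.T.μ ω ≠ 0 →
      (1 + Jq (S.dl 1 k) ((x k).g ω) (Q.v k ((x k).l.p.π ω))) j j ≤ nrw M D * (MvPolynomial.eval
        (Q.v k ((x k).l.p.π ω)) (MvPolynomial.pderiv j ((rowsOf hD hx (bnum1 Q x j) hu).p k ω 0))) ^ 2 ∧
      (MvPolynomial.eval (Q.v k ((x k).l.p.π ω)) (MvPolynomial.pderiv j
        ((rowsOf hD hx (bnum1 Q x j) hu).p k ω 0))) ^ 2 ≤
        (1 + Jq (S.dl 1 k) ((x k).g ω) (Q.v k ((x k).l.p.π ω))) j j := by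
  filter_upwards [form_pd hx] with k hk ω hω
  exact ⟨brow_spec _ (hk ω hω) _ _, rfam_pd_le _ (hk ω hω) _ _ _⟩

/-- values and gradients of the rows at EVERY point -/
theorem rows_all (hD : 1 ≤ D) {x : ∀ k, FD (S.F k) (Mon M D)} (hx : (gaq Q D).Fm x)
    (b : ∀ k, (x k).l.T.Ω → Fin M' → RIx M D) {u : ℝ} (hu : GrB Q x u) :
    ∀ᶠ k in UF, ∀ ω : (x k).l.T.Ω, (x k).l.T.μ ω ≠ 0 → ∀ j, ∀ y : Fin M → ℝ,
      (MvPolynomial.eval y ((rowsOf hD hx b hu).p k ω j)) ^ 2 ≤ phi (S.dl 1 k) ((x k).g ω) y ∧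
      ∀ e : Fin M → ℝ, (∑ a, e a * MvPolynomial.eval y (MvPolynomial.pderiv a ((rowsOf hD hx b hu).p k ω j))) ^ 2 ≤
        e ⬝ᵥ ((1 + Jq (S.dl 1 k) ((x k).g ω) y) *ᵥ e) := by
  filter_upwards [hx 1 one_pos] with k hk ω hω j y
  have h1 := (hk.1 ω hω).1
  exact ⟨rfam_sq_le hD _ h1 y _, rfam_grad _ (cpd_pdm h1) y _⟩

/-! ### bounds of the gradients -/

theorem GrB.mono {x : ∀ k, FD (S.F k) (Mon M D)} {u u' : ℝ} (h : GrB Q x u) (hu : u' ≤ u) : GrB Q x u' := by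
  obtain ⟨K, hK, hT⟩ := h
  refine ⟨K, hK, Typ.mono (S := Lab.sp (fun k => (x k).l)) hT ?_⟩
  filter_upwards [hK.1] with k hK0 ω _ h1 e
  refine (h1 e).trans ?_
  have h2 := S.dl_anti hu k
  have h3 : S.dl u k / S.dl 1 k ≤ S.dl u' k / S.dl 1 k := div_le_div_of_nonneg_right h2 (S.dl_pos _ _).le
  have h4 : 0 ≤ S.dl u k / S.dl 1 k := (div_pos (S.dl_pos _ _) (S.dl_pos _ _)).le
  exact mul_le_mul_of_nonneg_right (mul_le_mul_of_nonneg_left (pow_le_pow_left₀ h4 h3 2) hK0) (dot_self_nonneg e)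

/-- from a bound of the gradients by `gam` -/
theorem GrB.of_gam {x : ∀ k, FD (S.F k) (Mon M D)} (hx : (gaq Q D).Fm x) {u : ℝ} (hu : u ≤ 1)
    (h : ∃ K : ℕ → ℝ, S.Sub K ∧ Typ (S := Lab.sp (fun k => (x k).l)) (fun k (ω : (x k).l.T.Ω) =>
      gam (S.dl 1 k) ((x k).g ω) (Q.v k ((x k).l.p.π ω)) ≤ K k * (S.dl u k / S.dl 1 k) ^ 2)) : GrB Q x u := by
  obtain ⟨K, hK, hT⟩ := h
  refine ⟨fun k => 1 + K k, (S.Sub_const zero_le_one).add hK, Typ.mono (S := Lab.sp (fun k => (x k).l)) hT ?_⟩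
  filter_upwards [form_pd hx, hK.1] with k hk hK0 ω hω h1 e
  have h2 := Jq_gam (S.dl 1 k) ((x k).g ω) (hk ω hω) (Q.v k ((x k).l.p.π ω)) e
  have h3 := dot_self_nonneg e
  have h4 : 1 ≤ (S.dl u k / S.dl 1 k) ^ 2 := by
    have h5 : 1 ≤ S.dl u k / S.dl 1 k := (one_le_div (S.dl_pos _ _)).mpr (S.dl_anti hu k)
    exact one_le_pow₀ h5
  rw [Matrix.add_mulVec, Matrix.one_mulVec, dotProduct_add]
  have h6 := mul_le_mul_of_nonneg_right h1 h3
  nlinarith

/-- for a window `c` and a canonical form the label with the index is a label `kappa_c` -/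
theorem MSys.IsCan.ixl {E : ℕ → ℕ} {ι : Type} {s : MSys S M E ι} {c : ℝ} {x : ∀ k, FD (S.F k) (Mon M D)}
    (hx : s.IsCan D c x) {β : Type} [Finite β] (b : ∀ k, (x k).l.T.Ω → β) :
    s.IsKap c (ixl (fun k => (x k).l) b) :=
  ixl_IsMaxf (i₀ := none) hx.2 (pcd_Bd s.Q) b

end

end Pool.Agent.Helper84.MT
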