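import Pool.Agent.Helper84.MT.Vol
import Pool.Agent.Helper84.MT.Seg
import Pool.Agent.Helper48.NS.Gf

/-! MULTI-TYPE LAYER: FISCHER'S INEQUALITY for the full volume: `GQ ≤ (e, (1 + Jq) e) GG` for a direction `e` with
`e 0 = 1`; the derivative of a form in the direction of a line is bounded by the form on the line. -/

set_option autoImplicit false

namespace Pool.Agent.Helper84.MT

open MvPolynomial Matrix Pool.Agent.Helper95.LF Pool.Agent.Helper3.LF

variable {m D : ℕ}

/-- Fischer's inequality -/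
theorem det_succ_le (N : Matrix (Fin (m + 1)) (Fin (m + 1)) ℝ) (hN : PdM N) :
    N.det ≤ N 0 0 * (N.submatrix Fin.succ Fin.succ).det := by
  classical
  set C : Matrix (Fin m) (Fin m) ℝ := N.submatrix Fin.succ Fin.succ with hC
  have hCpd : PdM C := by
    refine ⟨?_, fun x hx => ?_⟩
    · ext i j
      have := congrFun (congrFun hN.1 i.succ) j.succ
      simpa [hC, Matrix.transpose_apply] using this
    · have h1 : (Fin.cons 0 x : Fin (m + 1) → ℝ) ≠ 0 := by
        intro h
        apply hx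
        funext i
        have := congrFun h i.succ
        simpa using this
      have h2 := hN.2 _ h1
      have h3 : (Fin.cons 0 x : Fin (m + 1) → ℝ) ⬝ᵥ (N *ᵥ (Fin.cons 0 x : Fin (m + 1) → ℝ)) = x ⬝ᵥ (C *ᵥ x) := by
        simp only [dotProduct, Matrix.mulVec, Fin.sum_univ_succ, Fin.cons_zero, Fin.cons_succ, zero_mul, mul_zero,
          zero_add, hC, Matrix.submatrix_apply]
      rwa [h3] at h2
  have hdet : C.det ≠ 0 := (hCpd.det_pos).ne'
  have hunit : IsUnit C.det := isUnit_iff_ne_zero.2 hdet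
  set b : Fin m → ℝ := fun i => N i.succ 0 with hb
  set v : Fin m → ℝ := C⁻¹ *ᵥ b with hv
  have hCv : C *ᵥ v = b := by
    rw [hv, Matrix.mulVec_mulVec, Matrix.mul_nonsing_inv _ hunit, Matrix.one_mulVec]
  set w : Fin (m + 1) → ℝ := Fin.cons 1 (fun i => - v i) with hw
  have hs : N.det = (N.updateCol 0 fun k => ∑ i, w i • N k i).det := by
    rw [Matrix.det_updateCol_sum]
    simp [hw]
  have hcol : ∀ k : Fin (m + 1), ∑ i, w i • N k i = if k = 0 then N 0 0 - b ⬝ᵥ v else 0 := by
    intro k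
    rw [Fin.sum_univ_succ]
    simp only [hw, Fin.cons_zero, Fin.cons_succ, smul_eq_mul, one_mul, neg_mul, Finset.sum_neg_distrib]
    refine Fin.cases ?_ (fun i => ?_) k
    · rw [if_pos rfl]
      have h1 : ∑ i, v i * N 0 i.succ = b ⬝ᵥ v := by
        unfold dotProduct
        apply Finset.sum_congr rfl
        intro i _
        have h2 : N 0 i.succ = N i.succ 0 := by
          have := congrFun (congrFun hN.1 i.succ) 0
          simpa [Matrix.transpose_apply] using this
        rw [h2, mul_comm]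
      rw [h1]; ring
    · rw [if_neg (Fin.succ_ne_zero i)]
      have h1 : ∑ j, v j * N i.succ j.succ = b i := by
        rw [← hCv]
        unfold Matrix.mulVec dotProduct
        apply Finset.sum_congr rfl
        intro j _
        rw [mul_comm]; rfl
      rw [h1]
      simp [hb]
  have hdet2 : N.det = (N 0 0 - b ⬝ᵥ v) * C.det := by
    rw [hs, Matrix.det_succ_column_zero, Fin.sum_univ_succ]
    simp only [Matrix.updateCol_self, hcol, Fin.succ_ne_zero, if_true, if_false, mul_zero, zero_mul,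
      Finset.sum_const_zero, add_zero, Fin.val_zero, pow_zero, one_mul]
    congr 2
  have hbv : 0 ≤ b ⬝ᵥ v := by
    rw [← hCv, dotProduct_comm]
    by_cases h0 : v = 0
    · rw [h0]; simp
    · exact (hCpd.2 v h0).le
  rw [hdet2]
  apply mul_le_mul_of_nonneg_right _ hCpd.det_pos.le
  linarith

/-- Fischer's inequality with a direction -/
theorem det_dir_le (N : Matrix (Fin (m + 1)) (Fin (m + 1)) ℝ) (hN : PdM N) (e : Fin (m + 1) → ℝ) (he : e 0 = 1) :
    N.det ≤ (e ⬝ᵥ (N *ᵥ e)) * (N.submatrix Fin.succ Fin.succ).det := by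
  classical
  set U : Matrix (Fin (m + 1)) (Fin (m + 1)) ℝ := (1 : Matrix (Fin (m + 1)) (Fin (m + 1)) ℝ).updateCol 0 e with hU
  have hUdet : U.det = 1 := by
    have h1 : (1 : Matrix (Fin (m + 1)) (Fin (m + 1)) ℝ).updateCol 0 e =
        (1 : Matrix (Fin (m + 1)) (Fin (m + 1)) ℝ).updateCol 0
          (fun k => ∑ i, e i • (1 : Matrix (Fin (m + 1)) (Fin (m + 1)) ℝ) k i) := by
      congr 1
      funext k
      rw [Finset.sum_eq_single k]
      · rw [Matrix.one_apply_eq, smul_eq_mul, mul_one]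
      · intro i _ hi
        rw [Matrix.one_apply_ne (Ne.symm hi), smul_zero]
      · intro h; exact absurd (Finset.mem_univ _) h
    rw [hU, h1, Matrix.det_updateCol_sum, Matrix.det_one, he, smul_eq_mul, mul_one]
  set N' : Matrix (Fin (m + 1)) (Fin (m + 1)) ℝ := U.transpose * N * U with hN'
  have hdet : N'.det = N.det := by
    rw [hN', Matrix.det_mul, Matrix.det_mul, Matrix.det_transpose, hUdet]; ring
  have hpd : PdM N' := by
    refine ⟨?_, fun x hx => ?_⟩
    · unfold Matrix.IsSymm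
      rw [hN', Matrix.transpose_mul, Matrix.transpose_mul, Matrix.transpose_transpose, hN.1.eq, Matrix.mul_assoc]
    · rw [hN', dv_conj]
      apply hN.2
      intro h0
      apply hx
      exact Matrix.eq_zero_of_mulVec_eq_zero (by rw [hUdet]; exact one_ne_zero) h0
  have hent : ∀ a b, N' a b = (fun k => U k a) ⬝ᵥ (N *ᵥ (fun k => U k b)) := by
    intro a b
    rw [hN', Matrix.mul_assoc, Matrix.mul_apply]
    unfold dotProduct
    apply Finset.sum_congr rfl
    intro k _
    rw [Matrix.transpose_apply, Matrix.mul_apply]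
    rfl
  have hc0 : (fun k => U k 0) = e := by
    funext k; rw [hU, Matrix.updateCol_self]
  have hcs : ∀ i : Fin m, (fun k => U k i.succ) = Pi.single i.succ 1 := by
    intro i
    funext k
    rw [hU, Matrix.updateCol_ne (Fin.succ_ne_zero i), Matrix.one_apply, Pi.single_apply]
  have h00 : N' 0 0 = e ⬝ᵥ (N *ᵥ e) := by rw [hent, hc0]
  have hsub : N'.submatrix Fin.succ Fin.succ = N.submatrix Fin.succ Fin.succ := by
    ext i j
    rw [Matrix.submatrix_apply, Matrix.submatrix_apply, hent, hcs, hcs, Matrix.mulVec_single_one,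
      single_one_dotProduct]
    rfl
  have h := det_succ_le N' hpd
  rwa [hdet, h00, hsub] at h

theorem GQ_le_dir (r : ℝ) {A : Matrix (Mon (m + 1) D) (Mon (m + 1) D) ℝ} (hA : A.IsSymm)
    (hA' : ∀ x, 0 ≤ x ⬝ᵥ (A *ᵥ x)) (p : Fin (m + 1) → ℝ) (e : Fin (m + 1) → ℝ) (he : e 0 = 1) :
    GQ r A p ≤ (e ⬝ᵥ e + e ⬝ᵥ (Jq r A p *ᵥ e)) * Pool.Agent.Helper48.NS.GG r A p := by
  have h := det_dir_le (1 + Jq r A p) (one_Jq_pd r hA hA' p) e he
  have e1 : (1 + Jq r A p).submatrix Fin.succ Fin.succ = 1 + Pool.Agent.Helper48.NS.Jf r A p := by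
    ext a b
    rw [Matrix.submatrix_apply, Matrix.add_apply, Matrix.add_apply, Jq_apply, Pool.Agent.Helper48.NS.Jf_apply,
      Matrix.one_apply, Matrix.one_apply]
    simp only [Fin.succ_inj]
  rw [e1, dv_add, one_dv] at h
  exact h

/-! ### derivative along a line -/

/-- the derivative at `0` of a polynomial of degree at most `D` from `D + 1` values on `[0,1]` -/
theorem deriv_interp (D : ℕ) : ∃ c : Fin (D + 1) → ℝ, ∀ p : Polynomial ℝ, p.natDegree ≤ D →
    (Polynomial.derivative p).eval 0 = ∑ k, c k * p.eval ((k : ℕ) / ((D : ℝ) + 1)) := by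
  classical
  set x : Fin (D + 1) → ℝ := fun i => (i : ℕ) / ((D : ℝ) + 1) with hx
  have hinj : Function.Injective x := by
    intro i j hij
    simp only [hx] at hij
    have h2 : (0 : ℝ) < (D : ℝ) + 1 := by positivity
    rw [div_left_inj' h2.ne'] at hij
    exact Fin.ext (by exact_mod_cast hij)
  refine ⟨fun k => (Polynomial.derivative (Lagrange.basis Finset.univ x k)).eval 0, fun p hp => ?_⟩
  have h1 : p = Lagrange.interpolate Finset.univ x (fun i => p.eval (x i)) := by
    apply Lagrange.eq_interpolate (hinj.injOn)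
    rw [Finset.card_univ, Fintype.card_fin]
    refine lt_of_le_of_lt Polynomial.degree_le_natDegree ?_
    exact_mod_cast Nat.lt_succ_of_le hp
  conv_lhs => rw [h1]
  rw [Lagrange.interpolate_apply, Polynomial.derivative_sum, Polynomial.eval_finsetSum]
  apply Finset.sum_congr rfl
  intro k _
  rw [Polynomial.derivative_C_mul, Polynomial.eval_mul, Polynomial.eval_C, mul_comm]

/-- a polynomial of several variables along a line -/
noncomputable def lnp (p e : Fin m → ℝ) (q : MvPolynomial (Fin m) ℝ) : Polynomial ℝ :=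
  MvPolynomial.aeval (fun k => Polynomial.C (p k) + Polynomial.X * Polynomial.C (e k)) q

theorem lnp_eval (p e : Fin m → ℝ) (q : MvPolynomial (Fin m) ℝ) (u : ℝ) :
    (lnp p e q).eval u = eval (fun k => p k + u * e k) q := by
  unfold lnp
  induction q using MvPolynomial.induction_on with
  | C a => simp
  | add f g hf hg => rw [map_add, map_add, Polynomial.eval_add, hf, hg]
  | mul_X f i hf =>
    rw [map_mul, map_mul, Polynomial.eval_mul, hf, MvPolynomial.eval_X, MvPolynomial.aeval_X, Polynomial.eval_add,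
      Polynomial.eval_mul, Polynomial.eval_C, Polynomial.eval_X, Polynomial.eval_C]

theorem lnp_deg (p e : Fin m → ℝ) (q : MvPolynomial (Fin m) ℝ) : (lnp p e q).natDegree ≤ q.totalDegree := by
  refine (natDegree_aeval_le q _ 1 ?_).trans (by rw [one_mul])
  intro k
  compute_degree

theorem lnp_mul (p e : Fin m → ℝ) (q q' : MvPolynomial (Fin m) ℝ) : lnp p e (q * q') = lnp p e q * lnp p e q' :=
  map_mul _ _ _

theorem lnp_add (p e : Fin m → ℝ) (q q' : MvPolynomial (Fin m) ℝ) : lnp p e (q + q') = lnp p e q + lnp p e q' :=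
  map_add _ _ _

theorem lnp_C (p e : Fin m → ℝ) (a : ℝ) : lnp p e (C a) = Polynomial.C a := by
  unfold lnp
  rw [MvPolynomial.aeval_C, Polynomial.algebraMap_eq]

theorem lnp_X (p e : Fin m → ℝ) (i : Fin m) : lnp p e (X i) =
    Polynomial.C (p i) + Polynomial.X * Polynomial.C (e i) := by
  unfold lnp
  rw [MvPolynomial.aeval_X]

theorem dir_mul_X (e : Fin m → ℝ) (f : MvPolynomial (Fin m) ℝ) (i : Fin m) :
    dir e (f * X i) = dir e f * X i + C (e i) * f := by
  classical
  unfold dir
  have h1 : ∀ a, C (e a) * pderiv a (f * X i) = C (e a) * pderiv a f * X i +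
      (if a = i then C (e i) * f else 0) := by
    intro a
    rw [MvPolynomial.pderiv_mul]
    by_cases ha : a = i
    · rw [if_pos ha, ha, MvPolynomial.pderiv_X_self]
      ring
    · rw [if_neg ha, MvPolynomial.pderiv_X_of_ne (Ne.symm ha)]
      ring
  rw [Finset.sum_congr rfl fun a _ => h1 a, Finset.sum_add_distrib, ← Finset.sum_mul, Finset.sum_ite_eq',
    if_pos (Finset.mem_univ i)]

theorem dir_add (e : Fin m → ℝ) (f g : MvPolynomial (Fin m) ℝ) : dir e (f + g) = dir e f + dir e g := by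
  unfold dir
  rw [← Finset.sum_add_distrib]
  exact Finset.sum_congr rfl fun a _ => by rw [map_add, mul_add]

theorem dir_C (e : Fin m → ℝ) (a : ℝ) : dir e (C a : MvPolynomial (Fin m) ℝ) = 0 := by
  unfold dir
  exact Finset.sum_eq_zero fun i _ => by rw [MvPolynomial.pderiv_C, mul_zero]

theorem lnp_deriv (p e : Fin m → ℝ) (q : MvPolynomial (Fin m) ℝ) :
    Polynomial.derivative (lnp p e q) = lnp p e (dir e q) := by
  induction q using MvPolynomial.induction_on with
  | C a => rw [lnp_C, Polynomial.derivative_C, dir_C]; exact (map_zero _).symm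
  | add f g hf hg => rw [lnp_add, Polynomial.derivative_add, hf, hg, dir_add, lnp_add]
  | mul_X f i hf =>
    rw [lnp_mul, Polynomial.derivative_mul, hf, dir_mul_X, lnp_add, lnp_mul, lnp_mul, lnp_X, lnp_C]
    simp only [Polynomial.derivative_add, Polynomial.derivative_C, Polynomial.derivative_mul, Polynomial.derivative_X,
      mul_zero, add_zero, zero_add, one_mul]
    ring

/-- the quadratic form of a sum of vectors -/
theorem qf_sum_le {ι κ : Type} [Fintype ι] [Fintype κ] (A : Matrix ι ι ℝ) (hA : PdM A) (v : κ → ι → ℝ) :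
    (∑ k, v k) ⬝ᵥ (A *ᵥ (∑ k, v k)) ≤ Fintype.card κ * ∑ k, v k ⬝ᵥ (A *ᵥ v k) := by
  classical
  obtain ⟨C, hC, -⟩ := exists_factor A hA
  have h1 : ∀ x : ι → ℝ, x ⬝ᵥ (A *ᵥ x) = ∑ a, (C a ⬝ᵥ x) ^ 2 := by
    intro x
    rw [hC, qf_rows]
  rw [h1]
  have h2 : ∀ a, C a ⬝ᵥ (∑ k, v k) = ∑ k, C a ⬝ᵥ v k := fun a => dotProduct_sum _ _ _
  have h3 : ∀ a, (C a ⬝ᵥ (∑ k, v k)) ^ 2 ≤ Fintype.card κ * ∑ k, (C a ⬝ᵥ v k) ^ 2 := by
    intro a
    rw [h2]
    have := sq_sum_le_card_mul_sum_sq (s := (Finset.univ : Finset κ)) (f := fun k => C a ⬝ᵥ v k)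
    rwa [Finset.card_univ] at this
  refine (Finset.sum_le_sum fun a _ => h3 a).trans (le_of_eq ?_)
  rw [← Finset.mul_sum, Finset.sum_comm]
  congr 1
  exact Finset.sum_congr rfl fun k _ => (h1 (v k)).symm

/-- the derivative of a form in the direction `e` is bounded by the form on the segment -/
theorem Jq_line (m D : ℕ) : ∃ C : ℝ, 0 ≤ C ∧ ∀ (r : ℝ) (A : Matrix (Mon m D) (Mon m D) ℝ), PdM A →
    ∀ (p e : Fin m → ℝ) (K : ℝ), (∀ u : ℝ, 0 ≤ u → u ≤ 1 → phi r A (fun k => p k + u * e k) ≤ K) →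
      e ⬝ᵥ (Jq r A p *ᵥ e) ≤ C * K := by
  classical
  obtain ⟨c, hc⟩ := deriv_interp D
  refine ⟨((D : ℝ) + 1) * ∑ k, c k ^ 2, by positivity, fun r A hA p e K hK => ?_⟩
  have hn : ∀ (j : Fin m → Fin (D + 1)) (u : ℝ), nodp D (fun k => p k + u * e k) r j =
      fun k => nodp D p r j k + u * e k := by
    intro j u
    funext k
    unfold nodp
    ring
  have key : ∀ j : Fin m → Fin (D + 1), Wq m D (nodp D p r j) *ᵥ e =
      ∑ k : Fin (D + 1), c k • vv (nodp D (fun i => p i + ((k : ℕ) / ((D : ℝ) + 1)) * e i) r j) := by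
    intro j
    funext μ
    have h1 : (Wq m D (nodp D p r j) *ᵥ e) μ = eval (nodp D p r j) (dir e μ.mon) := by
      unfold dir
      rw [map_sum]
      show (fun a => Wq m D (nodp D p r j) μ a) ⬝ᵥ e = _
      unfold dotProduct
      apply Finset.sum_congr rfl
      intro a _
      rw [map_mul, eval_C, mul_comm]
      rfl
    have h2 := hc (lnp (nodp D p r j) e μ.mon) ((lnp_deg _ _ _).trans (mon_deg μ))
    rw [lnp_deriv, lnp_eval] at h2
    have h3 : (fun k => nodp D p r j k + 0 * e k) = nodp D p r j := by funext k; ring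
    rw [h3] at h2
    rw [h1, h2, Finset.sum_apply]
    apply Finset.sum_congr rfl
    intro k _
    rw [lnp_eval, Pi.smul_apply, smul_eq_mul, hn]
    rfl
  rw [Jq_qf]
  have h4 : ∀ j : Fin m → Fin (D + 1), (Wq m D (nodp D p r j) *ᵥ e) ⬝ᵥ (A *ᵥ (Wq m D (nodp D p r j) *ᵥ e)) ≤
      ((D : ℝ) + 1) * ∑ k : Fin (D + 1), c k ^ 2 *
        (vv (nodp D (fun i => p i + ((k : ℕ) / ((D : ℝ) + 1)) * e i) r j) ⬝ᵥ
          (A *ᵥ vv (nodp D (fun i => p i + ((k : ℕ) / ((D : ℝ) + 1)) * e i) r j))) := by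
    intro j
    rw [key j]
    refine (qf_sum_le A hA _).trans (le_of_eq ?_)
    rw [Fintype.card_fin]
    push_cast
    congr 1
    apply Finset.sum_congr rfl
    intro k _
    rw [Matrix.mulVec_smul, dotProduct_smul, smul_dotProduct, smul_eq_mul, smul_eq_mul]
    ring
  refine (Finset.sum_le_sum fun j _ => h4 j).trans ?_
  rw [← Finset.mul_sum, Finset.sum_comm, mul_assoc]
  apply mul_le_mul_of_nonneg_left _ (by positivity)
  rw [Finset.sum_mul]
  apply Finset.sum_le_sum
  intro k _
  rw [← Finset.mul_sum]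
  apply mul_le_mul_of_nonneg_left _ (sq_nonneg _)
  have hk : ((k : ℕ) : ℝ) / ((D : ℝ) + 1) ≤ 1 := by
    rw [div_le_one (by positivity)]
    have h5 : ((k : ℕ) : ℝ) ≤ ((D + 1 : ℕ) : ℝ) := by exact_mod_cast k.2.le
    push_cast at h5
    exact h5
  exact hK _ (by positivity) hk

end Pool.Agent.Helper84.MT
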