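import Pool.Agent.Helper14.MC.Fam
import Pool.Agent.Helper77.WDG.Nrm
import Pool.Agent.Helper89.LX.Can

/-! MULTI-TYPE LAYER: THE ROWS OF A FORM, deterministic part: the rows are polynomials which depend only on the form; a
tuple of `M` rows whose Jacobian determinant is `sqrt GQ` up to constants; values, gradients, coefficients. -/

set_option autoImplicit false

namespace Pool.Agent.Helper84.MT

open MvPolynomial Matrix Pool.Agent.Helper95.LF Pool.Agent.Helper3.LF Pool.Agent.Helper38.NS Pool.Agent.Helper14.MC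
open Pool.Agent.Helper77.WDG Pool.Agent.Helper89.LX

variable {M D : ℕ}

/-- the number of a row -/
abbrev RIx (M D : ℕ) : Type := Fin M ⊕ (Mon M D × (Fin M → Fin (D + 1)))

instance (M D : ℕ) : Nonempty (RIx M D) := ⟨Sum.inr (Classical.arbitrary _, fun _ => 0)⟩

/-- the number of rows -/
def nrw (M D : ℕ) : ℕ := Fintype.card (RIx M D)

theorem nrw_pos (M D : ℕ) : 1 ≤ nrw M D := Fintype.card_pos

open Classical in
/-- a square root of the form -/
noncomputable def rfac (A : Matrix (Mon M D) (Mon M D) ℝ) : Matrix (Mon M D) (Mon M D) ℝ :=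
  if h : PdM A then (exists_factor A h).choose else 0

theorem rfac_spec {A : Matrix (Mon M D) (Mon M D) ℝ} (h : PdM A) : (rfac A).transpose * rfac A = A := by
  unfold rfac
  rw [dif_pos h]
  exact (exists_factor A h).choose_spec.1.symm

theorem cpd_pdm {c : ℝ} {A : Matrix (Mon M D) (Mon M D) ℝ} (h : Cpd c A) : PdM A :=
  ⟨h.1, fun _ hx => h.pd hx⟩

/-- THE ROWS of a form -/
noncomputable def rfam (r : ℝ) (A : Matrix (Mon M D) (Mon M D) ℝ) : RIx M D → MvPolynomial (Fin M) ℝ :=
  fam r (rfac A)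

theorem rfam_deg (hD : 1 ≤ D) (r : ℝ) (A : Matrix (Mon M D) (Mon M D) ℝ) (w : RIx M D) :
    (rfam r A w).totalDegree ≤ D := fam_deg hD r _ w

theorem rfam_le (hD : 1 ≤ D) (r : ℝ) {c : ℝ} {A : Matrix (Mon M D) (Mon M D) ℝ} (h : Cpd c A) (y : Fin M → ℝ)
    (w : RIx M D) : |eval y (rfam r A w)| ≤ Real.sqrt (phi r A y) := by
  have h1 := fam_le hD r (rfac A) (by rw [rfac_spec (cpd_pdm h)]; exact h.2.1) y w
  rwa [rfac_spec (cpd_pdm h)] at h1

theorem rfam_sq_le (hD : 1 ≤ D) (r : ℝ) {c : ℝ} {A : Matrix (Mon M D) (Mon M D) ℝ} (h : Cpd c A) (y : Fin M → ℝ)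
    (w : RIx M D) : (eval y (rfam r A w)) ^ 2 ≤ phi r A y := by
  have h1 := rfam_le hD r h y w
  have h2 : 0 ≤ phi r A y := phi_nonneg _ (fun x => (dot_self_nonneg x).trans (h.2.1 x)) _
  rw [← sq_abs, ← Real.sq_sqrt h2]
  exact pow_le_pow_left₀ (abs_nonneg _) h1 2

theorem rfam_gram (r : ℝ) {A : Matrix (Mon M D) (Mon M D) ℝ} (h : PdM A) (y : Fin M → ℝ) :
    (Matrix.of fun a b => ∑ w, eval y (pderiv a (rfam r A w)) * eval y (pderiv b (rfam r A w))) = 1 + Jq r A y := by
  have h1 := fam_gram r (rfac A) y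
  rw [rfac_spec h] at h1
  exact h1

/-- gradients of the rows, at every point -/
theorem rfam_grad (r : ℝ) {A : Matrix (Mon M D) (Mon M D) ℝ} (h : PdM A) (y : Fin M → ℝ) (w : RIx M D)
    (e : Fin M → ℝ) : (∑ a, e a * eval y (pderiv a (rfam r A w))) ^ 2 ≤ e ⬝ᵥ ((1 + Jq r A y) *ᵥ e) := by
  have h1 : e ⬝ᵥ ((1 + Jq r A y) *ᵥ e) = ∑ w : RIx M D, (∑ a, e a * eval y (pderiv a (rfam r A w))) ^ 2 := by
    rw [← rfam_gram r h y]
    unfold dotProduct Matrix.mulVec dotProduct
    simp only [Matrix.of_apply]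
    have e1 : ∀ a b, (∑ w : RIx M D, eval y (pderiv a (rfam r A w)) * eval y (pderiv b (rfam r A w))) * e b =
        ∑ w : RIx M D, eval y (pderiv a (rfam r A w)) * (eval y (pderiv b (rfam r A w)) * e b) := by
      intro a b
      rw [Finset.sum_mul]
      exact Finset.sum_congr rfl fun w _ => by ring
    calc ∑ a, e a * ∑ b, (∑ w : RIx M D, eval y (pderiv a (rfam r A w)) * eval y (pderiv b (rfam r A w))) * e b
        = ∑ a, ∑ b, ∑ w : RIx M D, (e a * eval y (pderiv a (rfam r A w))) * (e b * eval y (pderiv b (rfam r A w))) := by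
          refine Finset.sum_congr rfl fun a _ => ?_
          rw [Finset.mul_sum]
          refine Finset.sum_congr rfl fun b _ => ?_
          rw [e1, Finset.mul_sum]
          exact Finset.sum_congr rfl fun w _ => by ring
      _ = ∑ a, ∑ w : RIx M D, ∑ b, (e a * eval y (pderiv a (rfam r A w))) * (e b * eval y (pderiv b (rfam r A w))) :=
          Finset.sum_congr rfl fun a _ => Finset.sum_comm
      _ = ∑ w : RIx M D, ∑ a, ∑ b, (e a * eval y (pderiv a (rfam r A w))) * (e b * eval y (pderiv b (rfam r A w))) :=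
          Finset.sum_comm
      _ = _ := by
          refine Finset.sum_congr rfl fun w _ => ?_
          rw [pow_two, Finset.sum_mul_sum]
  rw [h1]
  exact Finset.single_le_sum (f := fun w : RIx M D => (∑ a, e a * eval y (pderiv a (rfam r A w))) ^ 2)
    (fun _ _ => sq_nonneg _) (Finset.mem_univ w)

/-- CAUCHY - BINET for the rows -/
theorem rfam_cb (r : ℝ) {A : Matrix (Mon M D) (Mon M D) ℝ} (h : PdM A) (y : Fin M → ℝ) :
    (Nat.factorial M : ℝ) * GQ r A y = ∑ φ : Fin M → RIx M D, (jacM (fun i => rfam r A (φ i)) y).det ^ 2 := by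
  classical
  set e : RIx M D ≃ Fin (nrw M D) := Fintype.equivFin _ with he
  have h1 := gram_cb (fun i : Fin (nrw M D) => rfam r A (e.symm i)) y
  have h2 : gramM (fun i : Fin (nrw M D) => rfam r A (e.symm i)) y = 1 + Jq r A y := by
    rw [← rfam_gram r h y]
    ext a b
    exact Fintype.sum_equiv e.symm _ (fun w : RIx M D => eval y (pderiv a (rfam r A w)) * eval y (pderiv b (rfam r A w)))
      fun i => rfl
  rw [h2] at h1
  have h3 : GQ r A y = (1 + Jq r A y).det := rfl
  rw [h3, h1]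
  refine Fintype.sum_equiv (Equiv.arrowCongr (Equiv.refl (Fin M)) e.symm) _ _ fun φ => ?_
  rfl

/-- the Jacobian determinant of any `M` rows -/
theorem rfam_det_le (r : ℝ) {A : Matrix (Mon M D) (Mon M D) ℝ} (h : PdM A) (y : Fin M → ℝ) (φ : Fin M → RIx M D) :
    (jacM (fun i => rfam r A (φ i)) y).det ^ 2 ≤ (Nat.factorial M : ℝ) * GQ r A y := by
  rw [rfam_cb r h y]
  exact Finset.single_le_sum (f := fun φ : Fin M → RIx M D => (jacM (fun i => rfam r A (φ i)) y).det ^ 2)
    (fun _ _ => sq_nonneg _) (Finset.mem_univ φ)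

/-- some `M` rows have a large Jacobian determinant -/
theorem exists_tup (r : ℝ) {A : Matrix (Mon M D) (Mon M D) ℝ} (h : PdM A) (y : Fin M → ℝ) :
    ∃ φ : Fin M → RIx M D, GQ r A y ≤ (nrw M D : ℝ) ^ M * (jacM (fun i => rfam r A (φ i)) y).det ^ 2 := by
  classical
  obtain ⟨φ, -, hφ⟩ := Finset.exists_max_image (Finset.univ : Finset (Fin M → RIx M D))
    (fun φ => (jacM (fun i => rfam r A (φ i)) y).det ^ 2) Finset.univ_nonempty
  refine ⟨φ, ?_⟩
  have h1 := rfam_cb r h y
  have h2 : ∑ φ : Fin M → RIx M D, (jacM (fun i => rfam r A (φ i)) y).det ^ 2 ≤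
      ∑ _φ : Fin M → RIx M D, (jacM (fun i => rfam r A (φ i)) y).det ^ 2 :=
    Finset.sum_le_sum fun ψ hψ => hφ ψ hψ
  rw [Finset.sum_const, Finset.card_univ, Fintype.card_fun, Fintype.card_fin, nsmul_eq_mul, Nat.cast_pow] at h2
  have h3 : (1 : ℝ) ≤ (Nat.factorial M : ℝ) := by exact_mod_cast Nat.factorial_pos M
  have h4 : 1 ≤ GQ r A y := one_le_GQ r h.1 (fun x => h.nonneg x) y
  have h5 : GQ r A y ≤ (Nat.factorial M : ℝ) * GQ r A y := by nlinarith
  exact h5.trans (h1.le.trans h2)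

open Classical in
/-- THE BEST ROWS: their numbers are functions of the form and the point -/
noncomputable def btup (r : ℝ) (A : Matrix (Mon M D) (Mon M D) ℝ) (y : Fin M → ℝ) : Fin M → RIx M D :=
  if h : ∃ φ : Fin M → RIx M D, GQ r A y ≤ (nrw M D : ℝ) ^ M * (jacM (fun i => rfam r A (φ i)) y).det ^ 2
  then h.choose else Classical.arbitrary _

theorem btup_spec (r : ℝ) {A : Matrix (Mon M D) (Mon M D) ℝ} (h : PdM A) (y : Fin M → ℝ) :
    GQ r A y ≤ (nrw M D : ℝ) ^ M * (jacM (fun i => rfam r A (btup r A y i)) y).det ^ 2 := by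
  have h1 := exists_tup r h y
  unfold btup
  rw [dif_pos h1]
  exact h1.choose_spec

/-- the diagonal of `1 + J` is the sum of the squares of the partial derivatives of the rows -/
theorem rfam_diag (r : ℝ) {A : Matrix (Mon M D) (Mon M D) ℝ} (h : PdM A) (y : Fin M → ℝ) (j : Fin M) :
    (1 + Jq r A y) j j = ∑ w : RIx M D, (eval y (pderiv j (rfam r A w))) ^ 2 := by
  rw [← rfam_gram r h y, Matrix.of_apply]
  exact Finset.sum_congr rfl fun w _ => by rw [pow_two]

theorem rfam_pd_le (r : ℝ) {A : Matrix (Mon M D) (Mon M D) ℝ} (h : PdM A) (y : Fin M → ℝ) (j : Fin M)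
    (w : RIx M D) : (eval y (pderiv j (rfam r A w))) ^ 2 ≤ (1 + Jq r A y) j j := by
  rw [rfam_diag r h]
  exact Finset.single_le_sum (f := fun w : RIx M D => (eval y (pderiv j (rfam r A w))) ^ 2)
    (fun _ _ => sq_nonneg _) (Finset.mem_univ w)

/-- some row has a large partial derivative -/
theorem exists_row (r : ℝ) {A : Matrix (Mon M D) (Mon M D) ℝ} (h : PdM A) (y : Fin M → ℝ) (j : Fin M) :
    ∃ w : RIx M D, (1 + Jq r A y) j j ≤ nrw M D * (eval y (pderiv j (rfam r A w))) ^ 2 := by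
  classical
  obtain ⟨w, -, hw⟩ := Finset.exists_max_image (Finset.univ : Finset (RIx M D))
    (fun w => (eval y (pderiv j (rfam r A w))) ^ 2) Finset.univ_nonempty
  refine ⟨w, ?_⟩
  rw [rfam_diag r h]
  refine (Finset.sum_le_sum fun v hv => hw v hv).trans ?_
  rw [Finset.sum_const, Finset.card_univ, nsmul_eq_mul]
  exact le_rfl

open Classical in
/-- THE BEST ROW in the direction of a coordinate: its number is a function of the form and the point -/
noncomputable def brow (r : ℝ) (A : Matrix (Mon M D) (Mon M D) ℝ) (y : Fin M → ℝ) (j : Fin M) : RIx M D :=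
  if h : ∃ w : RIx M D, (1 + Jq r A y) j j ≤ nrw M D * (eval y (pderiv j (rfam r A w))) ^ 2
  then h.choose else Classical.arbitrary _

theorem brow_spec (r : ℝ) {A : Matrix (Mon M D) (Mon M D) ℝ} (h : PdM A) (y : Fin M → ℝ) (j : Fin M) :
    (1 + Jq r A y) j j ≤ nrw M D * (eval y (pderiv j (rfam r A (brow r A y j)))) ^ 2 := by
  have h1 := exists_row r h y j
  unfold brow
  rw [dif_pos h1]
  exact h1.choose_spec

/-! ### the coefficients of the rows -/

theorem nrm_pol (c : Mon M D → ℝ) : nrm (pol c) ≤ ∑ a, |c a| := by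
  unfold pol
  refine (nrm_sum_le _ _).trans (Finset.sum_le_sum fun a _ => ?_)
  refine (nrm_mul_le _ _).trans ?_
  rw [nrm_C]
  unfold Mon.mon
  rw [nrm_monomial, abs_one, mul_one]

theorem nod_le_one (j : ℕ) (hj : j ≤ D) : 0 ≤ nod D j ∧ nod D j ≤ 1 := by
  unfold nod
  have h1 : (0 : ℝ) < D + 1 := by positivity
  refine ⟨by positivity, ?_⟩
  rw [div_le_one h1]
  have : (j : ℝ) ≤ D := by exact_mod_cast hj
  linarith

theorem nrm_shf (v : Fin M → ℝ) (hv : ∀ i, |v i| ≤ 1) (f : MvPolynomial (Fin M) ℝ) (hf : f.totalDegree ≤ D) :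
    nrm (shf v f) ≤ nrm f * 2 ^ D := by
  have h1 : shf v f = bind₁ (fun i => X i + C (v i)) f := rfl
  rw [h1]
  refine nrm_bind_le (by norm_num) hf _ fun i _ => ?_
  refine (nrm_add_le _ _).trans ?_
  rw [nrm_X, nrm_C]
  have := hv i
  linarith

theorem pol_deg (c : Mon M D → ℝ) : (pol c).totalDegree ≤ D := by
  have h1 := rowq_deg (m := M) (D := D) 0 (Matrix.of fun _ => c) (Classical.arbitrary _, fun _ => 0)
  unfold rowq at h1
  have h2 : nodp D (0 : Fin M → ℝ) 0 (fun _ => 0) = 0 := by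
    funext k
    unfold nodp
    simp
  have h3 : shf (0 : Fin M → ℝ) (pol c) = pol c := by
    have e1 : (shf (0 : Fin M → ℝ)) = AlgHom.id ℝ _ := by
      apply MvPolynomial.algHom_ext
      intro i
      rw [shf_X]
      simp
    rw [e1]
    rfl
  simp only [h2] at h1
  have h4 : (Matrix.of fun (_ : Mon M D) => c) (Classical.arbitrary (Mon M D)) = c := rfl
  rw [h4, h3] at h1
  exact h1

/-- the coefficients of the rows -/
theorem rfam_nrm {r : ℝ} (hr0 : 0 ≤ r) (hr : r ≤ 1) {c : ℝ} (hc : 1 ≤ c)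
    {A : Matrix (Mon M D) (Mon M D) ℝ} (h : Cpd c A) (w : RIx M D) :
    nrm (rfam r A w) ≤ Fintype.card (Mon M D) * 2 ^ D * Real.sqrt c := by
  have hcard : (1 : ℝ) ≤ (Fintype.card (Mon M D) : ℝ) := by exact_mod_cast Fintype.card_pos
  have hsc : 1 ≤ Real.sqrt c := by rw [← Real.sqrt_one]; exact Real.sqrt_le_sqrt hc
  have h2D : (1 : ℝ) ≤ 2 ^ D := one_le_pow₀ (by norm_num)
  rcases w with i | ⟨k, j⟩
  · have e1 : rfam r A (Sum.inl i) = X i := rfl
    rw [e1, nrm_X]
    have := one_le_mul_of_one_le_of_one_le (one_le_mul_of_one_le_of_one_le hcard h2D) hsc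
    exact this
  · have e1 : rfam r A (Sum.inr (k, j)) = shf (nodp D 0 r j) (pol (rfac A k)) := rfl
    rw [e1]
    have h1 : ∀ a, |rfac A k a| ≤ Real.sqrt c := by
      intro a
      have h3 : (rfac A k a) ^ 2 ≤ c := by
        have h4 := h.2.2 (Pi.single a 1)
        have h5 : qf A (Pi.single a 1) = ∑ b, (rfac A b a) ^ 2 := by
          have h6 : qf A (Pi.single a 1) = A a a := by
            unfold qf
            rw [Matrix.mulVec_single_one, single_one_dotProduct]
            rfl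
          rw [h6, ← rfac_spec (cpd_pdm h), Matrix.mul_apply]
          refine Finset.sum_congr rfl fun b _ => ?_
          rw [Matrix.transpose_apply, rfac_spec (cpd_pdm h)]
          ring
        rw [h5] at h4
        have h7 : ((Pi.single a 1 : Mon M D → ℝ) ⬝ᵥ (Pi.single a 1)) = 1 := by
          rw [single_one_dotProduct, Pi.single_eq_same]
        rw [h7, mul_one] at h4
        exact (Finset.single_le_sum (f := fun b => (rfac A b a) ^ 2) (fun _ _ => sq_nonneg _)
          (Finset.mem_univ k)).trans h4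
      rw [← Real.sqrt_sq_eq_abs]
      exact Real.sqrt_le_sqrt h3
    have h2 : nrm (pol (rfac A k)) ≤ Fintype.card (Mon M D) * Real.sqrt c := by
      refine (nrm_pol _).trans ((Finset.sum_le_sum fun a _ => h1 a).trans ?_)
      rw [Finset.sum_const, Finset.card_univ, nsmul_eq_mul]
    have h3 : nrm (shf (nodp D 0 r j) (pol (rfac A k))) ≤ nrm (pol (rfac A k)) * 2 ^ D := by
      refine nrm_shf _ (fun i => ?_) _ (pol_deg _)
      unfold nodp
      have h5 := nod_le_one (D := D) (j i : ℕ) (by have := (j i).2; omega)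
      simp only [Pi.zero_apply, zero_add]
      rw [abs_of_nonneg (mul_nonneg hr0 h5.1)]
      nlinarith [h5.1, h5.2]
    refine h3.trans ?_
    calc nrm (pol (rfac A k)) * 2 ^ D ≤ Fintype.card (Mon M D) * Real.sqrt c * 2 ^ D :=
          mul_le_mul_of_nonneg_right h2 (by positivity)
      _ = _ := by ring

end Pool.Agent.Helper84.MT
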