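import Pool.Agent.Helper84.MT.Row

/-! MULTI-TYPE LAYER: operations on rows: rows over finer labels and over joins, rows in a part of the variables, families
of rows put together; the Jacobian determinant of rows which come first and one more row. -/

set_option autoImplicit false

namespace Pool.Agent.Helper7.GZ

open Finset Filter Topology Matrix Pool.Agent.Helper69.RK Pool.Agent.Helper31.EC Pool.Agent.Helper31.EC.Sp
open Pool.Agent.Helper40.EL Pool.Agent.Helper89.LX Pool.Agent.Helper3.LF Pool.Agent.Helper84.MT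

noncomputable section

variable {S : Sp} {M M' M₁ M₂ m D : ℕ} {Q : S.VV M} {l l' : Lab S} {Λ u : ℝ}

/-- typical events of a label over a finer label -/
theorem typ_fpj (q : ∀ k, FPj (l' k).T (l k).T) {B : ∀ k, (l k).T.Ω → Prop} (h : Typ (S := l.sp) B) :
    Typ (S := l'.sp) (fun k (ω : (l' k).T.Ω) => B k ((q k).π ω)) := by
  have h1 : (fun k => (l' k).T.pb (fun ω => ¬ B k ((q k).π ω))) = fun k => (l k).T.pb (fun ω => ¬ B k ω) :=
    funext fun k => pb_push (q k) (fun ω => ¬ B k ω)
  show Tendsto (fun k => (l' k).T.pb (fun ω => ¬ B k ((q k).π ω))) UF (𝓝 0)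
  rw [h1]
  exact h

/-- rows over a finer label -/
def Rows.pull (R : Rows Q l M' D Λ u) (q : ∀ k, FPj (l' k).T (l k).T)
    (hπ : ∀ᶠ k in UF, ∀ ω, (l' k).T.μ ω ≠ 0 → (l k).p.π ((q k).π ω) = (l' k).p.π ω)
    (hV : ∀ᶠ k in UF, ∀ ω ω', (l' k).T.μ ω ≠ 0 → (l' k).T.μ ω' ≠ 0 → (l' k).T.Z ω ω' → (l' k).V ω ω' →
      (l k).V ((q k).π ω) ((q k).π ω')) : Rows Q l' M' D Λ u where
  p := fun k ω => R.p k ((q k).π ω)
  deg := fun k ω j => R.deg k _ j
  fn := by
    filter_upwards [R.fn, hV] with k h1 h2 ω ω' h h' hZ hv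
    exact h1 _ _ ((q k).supp ω h) ((q k).supp ω' h') (((q k).hZ ω ω' h h').mp hZ) (h2 ω ω' h h' hZ hv)
  cf := by
    obtain ⟨K, hK, hb⟩ := R.cf
    refine ⟨K, hK, ?_⟩
    filter_upwards [hb] with k h1 ω h j a using h1 _ ((q k).supp ω h) j a
  bd := by
    obtain ⟨K, hK, hT⟩ := R.bd
    refine ⟨K, hK, Typ.mono (S := l'.sp) (typ_fpj q hT) ?_⟩
    filter_upwards [hπ] with k h1 ω hω h2 j
    have h3 := h2 j
    rwa [h1 ω hω] at h3
  lp := fun L hL => by
    obtain ⟨K, hK, hT⟩ := R.lp L hL
    refine ⟨K, hK, Typ.mono (S := l'.sp) (typ_fpj q hT) ?_⟩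
    filter_upwards [hπ] with k h1 ω hω h2 y
    have h3 := h2 y
    rwa [h1 ω hω] at h3

/-- rows of the first label over the join -/
def Rows.jl (R : Rows Q l M' D Λ u) (l' : Lab S) : Rows Q (l.join l') M' D Λ u :=
  R.pull (l' := l.join l') (fun k => ((l k).am (l' k)).p1) (Eventually.of_forall fun _ _ _ => rfl)
    (Eventually.of_forall fun _ _ _ _ _ _ h => h.1)

/-- rows of the second label over the join -/
def Rows.jr (R : Rows Q l M' D Λ u) (l' : Lab S) : Rows Q (l'.join l) M' D Λ u :=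
  R.pull (l' := l'.join l) (fun k => ((l' k).am (l k)).p2)
    (Eventually.of_forall fun k ω h => (((l' k).am (l k)).supp ω h).1.symm)
    (Eventually.of_forall fun _ _ _ _ _ _ h => h.2)

/-- the identity -/
def idj (F : FSp) : FPj F F where
  π := fun ω => ω
  law := push_id F.μ
  hZ := fun _ _ _ _ => Iff.rfl

/-- rows over a label with more knowledge on the same space -/
def Rows.addW (R : Rows Q l M' D Λ u) (W : ∀ k, Setoid (l k).T.Ω) : Rows Q (l.addW W) M' D Λ u :=
  R.pull (l' := l.addW W) (fun k => idj (l k).T) (Eventually.of_forall fun _ _ _ => rfl)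
    (Eventually.of_forall fun _ _ _ _ _ _ h => h.1)

/-- rows in a part of the variables -/
def Rows.ren {P : S.VV m} (R : Rows P l M' D Λ u) (f : Fin m → Fin M) (hf : Function.Injective f)
    (hP : ∀ k ω j, P.v k ω j = Q.v k ω (f j)) : Rows Q l M' D Λ u where
  p := fun k ω j => MvPolynomial.rename f (R.p k ω j)
  deg := fun k ω j => (MvPolynomial.totalDegree_rename_le f _).trans (R.deg k ω j)
  fn := by
    filter_upwards [R.fn] with k h1 ω ω' h h' hZ hv
    rw [h1 ω ω' h h' hZ hv]
  cf := by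
    classical
    obtain ⟨K, hK, hb⟩ := R.cf
    refine ⟨K, hK, ?_⟩
    filter_upwards [hb, hK.1] with k h1 hK0 ω h j a
    by_cases ha : ∃ b : Fin m →₀ ℕ, b.mapDomain f = a
    · obtain ⟨b, rfl⟩ := ha
      rw [MvPolynomial.coeff_rename_mapDomain f hf]
      exact h1 ω h j b
    · rw [MvPolynomial.coeff_rename_eq_zero f _ _ (fun b hb => absurd ⟨b, hb⟩ ha), abs_zero]
      positivity
  bd := by
    obtain ⟨K, hK, hT⟩ := R.bd
    refine ⟨K, hK, Typ.mono (S := l.sp) hT (Eventually.of_forall fun k ω _ h j => ?_)⟩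
    have h1 : (Q.v k ((l k).p.π ω)) ∘ f = P.v k ((l k).p.π ω) := funext fun i => (hP k _ i).symm
    rw [MvPolynomial.eval_rename, h1]
    exact h j
  lp := fun L hL => by
    obtain ⟨K, hK, hT⟩ := R.lp L hL
    refine ⟨K, hK, Typ.mono (S := l.sp) hT (Eventually.of_forall fun k ω _ h y hy j => ?_)⟩
    have h1 : (Q.v k ((l k).p.π ω)) ∘ f = P.v k ((l k).p.π ω) := funext fun i => (hP k _ i).symm
    rw [MvPolynomial.eval_rename, MvPolynomial.eval_rename, h1]
    refine h (y ∘ f) (fun i => ?_) j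
    rw [hP]
    exact hy (f i)

/-- two families of rows of one label -/
def Rows.app (R : Rows Q l M₁ D Λ u) (R' : Rows Q l M₂ D Λ u) : Rows Q l (M₁ + M₂) D Λ u where
  p := fun k ω => Fin.append (R.p k ω) (R'.p k ω)
  deg := fun k ω j => by
    refine Fin.addCases (fun i => ?_) (fun i => ?_) j
    · rw [Fin.append_left]; exact R.deg k ω i
    · rw [Fin.append_right]; exact R'.deg k ω i
  fn := by
    filter_upwards [R.fn, R'.fn] with k h1 h2 ω ω' h h' hZ hv
    rw [h1 ω ω' h h' hZ hv, h2 ω ω' h h' hZ hv]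
  cf := by
    obtain ⟨K, hK, hb⟩ := R.cf
    obtain ⟨K', hK', hb'⟩ := R'.cf
    refine ⟨fun k => K k + K' k, hK.add hK', ?_⟩
    filter_upwards [hb, hb', hK.1, hK'.1] with k h1 h2 h3 h4 ω h j a
    have h5 : (0 : ℝ) < 2 ^ (Λ * (S.F k).n) := by positivity
    refine Fin.addCases (fun i => ?_) (fun i => ?_) j
    · rw [Fin.append_left]
      have := h1 ω h i a
      nlinarith [mul_nonneg h4 h5.le]
    · rw [Fin.append_right]
      have := h2 ω h i a
      nlinarith [mul_nonneg h3 h5.le]
  bd := by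
    obtain ⟨K, hK, hT⟩ := R.bd
    obtain ⟨K', hK', hT'⟩ := R'.bd
    refine ⟨fun k => K k + K' k, hK.add hK', Typ.mono (S := l.sp) (Typ.and (S := l.sp) hT hT') ?_⟩
    filter_upwards [hK.1, hK'.1] with k h3 h4 ω _ h j
    refine Fin.addCases (fun i => ?_) (fun i => ?_) j
    · rw [Fin.append_left]
      exact (h.1 i).trans (by linarith)
    · rw [Fin.append_right]
      exact (h.2 i).trans (by linarith)
  lp := fun L hL => by
    obtain ⟨K, hK, hT⟩ := R.lp L hL
    obtain ⟨K', hK', hT'⟩ := R'.lp L hL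
    refine ⟨fun k => K k + K' k, hK.add hK', Typ.mono (S := l.sp) (Typ.and (S := l.sp) hT hT') ?_⟩
    filter_upwards [hK.1, hK'.1] with k h3 h4 ω _ h y hy j
    have h5 := (S.dl_pos u k).le
    refine Fin.addCases (fun i => ?_) (fun i => ?_) j
    · rw [Fin.append_left]
      exact (h.1 y hy i).trans (by nlinarith)
    · rw [Fin.append_right]
      exact (h.2 y hy i).trans (by nlinarith)

/-- monotone in the parameters -/
def Rows.mono {D' : ℕ} {Λ' u' : ℝ} (R : Rows Q l M' D Λ u) (hD : D ≤ D') (hΛ : Λ ≤ Λ') (hu : u' ≤ u) :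
    Rows Q l M' D' Λ' u' where
  p := R.p
  deg := fun k ω j => (R.deg k ω j).trans hD
  fn := R.fn
  cf := by
    obtain ⟨K, hK, hb⟩ := R.cf
    refine ⟨K, hK, ?_⟩
    filter_upwards [hb, hK.1] with k h1 hK0 ω h j a
    refine (h1 ω h j a).trans (mul_le_mul_of_nonneg_left ?_ hK0)
    exact Real.rpow_le_rpow_of_exponent_le (by norm_num) (mul_le_mul_of_nonneg_right hΛ (S.F k).pos.le)
  bd := R.bd
  lp := fun L hL => by
    obtain ⟨K, hK, hT⟩ := R.lp L hL
    refine ⟨K, hK, Typ.mono (S := l.sp) hT ?_⟩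
    filter_upwards [hK.1] with k hK0 ω _ h y hy j
    exact (h y hy j).trans (mul_le_mul_of_nonneg_left (S.dl_anti hu k) hK0)

end

open MvPolynomial Pool.Agent.Helper38.NS in
/-- JACOBIAN of `m` rows in the variables other than the `j`-th one, followed by one more row -/
theorem jac_flag {m : ℕ} (j : Fin (m + 1)) (R : Fin m → MvPolynomial (Fin m) ℝ) (g : Fin 1 → MvPolynomial (Fin (m + 1)) ℝ)
    (y : Fin (m + 1) → ℝ) :
    (jacM (Fin.append (fun i => rename j.succAbove (R i)) g) y).det ^ 2 =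
      (jacM R (fun i => y (j.succAbove i))).det ^ 2 * (eval y (pderiv j (g 0))) ^ 2 := by
  set A : Matrix (Fin (m + 1)) (Fin (m + 1)) ℝ := jacM (Fin.append (fun i => rename j.succAbove (R i)) g) y with hA
  have hl : ∀ i : Fin m, A (Fin.castSucc i) j = 0 := by
    intro i
    have h1 : A (Fin.castSucc i) j = eval y (pderiv j (rename j.succAbove (R i))) := by
      show eval y (pderiv j (Fin.append (fun i => rename j.succAbove (R i)) g (Fin.castAdd 1 i))) = _
      rw [Fin.append_left]
    rw [h1]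
    have h2 : j ∉ (rename j.succAbove (R i)).vars := by
      classical
      intro hj
      have h3 := vars_rename j.succAbove (R i) hj
      rw [Finset.mem_image] at h3
      obtain ⟨a, -, ha⟩ := h3
      exact Fin.succAbove_ne j a ha
    rw [pderiv_eq_zero_of_notMem_vars h2, map_zero]
  have hlast : A (Fin.last m) j = eval y (pderiv j (g 0)) := by
    show eval y (pderiv j (Fin.append (fun i => rename j.succAbove (R i)) g (Fin.natAdd m 0))) = _
    rw [Fin.append_right]
  have hsub : A.submatrix (Fin.last m).succAbove j.succAbove = jacM R (fun i => y (j.succAbove i)) := by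
    ext a b
    rw [Matrix.submatrix_apply, Fin.succAbove_last]
    have h1 : A (Fin.castSucc a) (j.succAbove b) = eval y (pderiv (j.succAbove b) (rename j.succAbove (R a))) := by
      show eval y (pderiv (j.succAbove b) (Fin.append (fun i => rename j.succAbove (R i)) g (Fin.castAdd 1 a))) = _
      rw [Fin.append_left]
    rw [h1, pderiv_rename Fin.succAbove_right_injective, eval_rename]
    rfl
  have hdet : A.det = (-1) ^ ((Fin.last m : Fin (m + 1)) + j : ℕ) * A (Fin.last m) j *
      (A.submatrix (Fin.last m).succAbove j.succAbove).det := by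
    rw [Matrix.det_succ_column A j, Fin.sum_univ_castSucc]
    have h0 : ∑ i : Fin m, (-1 : ℝ) ^ ((Fin.castSucc i : Fin (m + 1)) + j : ℕ) * A (Fin.castSucc i) j *
        (A.submatrix (Fin.castSucc i).succAbove j.succAbove).det = 0 :=
      Finset.sum_eq_zero fun i _ => by rw [hl i, mul_zero, zero_mul]
    rw [h0, zero_add]
  rw [hdet, hlast, hsub, mul_pow, mul_pow, ← pow_mul, mul_comm _ 2, pow_mul, neg_one_sq, one_pow, one_mul, mul_comm]

end Pool.Agent.Helper7.GZ
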