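import Mathlib

/-!
# The vanishing ideal along an integral curve of left invariant vector fields
-/

set_option autoImplicit false
set_option maxHeartbeats 800000

open MvPolynomial

namespace MT

variable {K₀ : Type*} [Field K₀] {n : ℕ}

/-- the value of a polynomial in the matrix entries at a matrix -/
noncomputable def ev {R : Type*} [CommRing R] [Algebra K₀ R] (g : Matrix (Fin n) (Fin n) R) :
    MvPolynomial (Fin n × Fin n) K₀ →ₐ[K₀] R :=
  aeval (fun ij => g ij.1 ij.2)

/-- the left invariant derivation defined by the matrix `M`: `f ↦ (g ↦ d/de f (g (1 + e M)))` -/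
noncomputable def ldv (M : Matrix (Fin n) (Fin n) K₀) :
    Derivation K₀ (MvPolynomial (Fin n × Fin n) K₀) (MvPolynomial (Fin n × Fin n) K₀) :=
  mkDerivation K₀ (fun ij => ∑ k, X (ij.1, k) * C (M k ij.2))

theorem ev_X {R : Type*} [CommRing R] [Algebra K₀ R] (g : Matrix (Fin n) (Fin n) R)
    (ij : Fin n × Fin n) : ev (K₀ := K₀) g (X ij) = g ij.1 ij.2 := by
  simp [ev]

theorem ev_C {R : Type*} [CommRing R] [Algebra K₀ R] (g : Matrix (Fin n) (Fin n) R)
    (a : K₀) : ev (K₀ := K₀) g (C a) = algebraMap K₀ R a := by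
  simp [ev]

theorem ev_ldv_X {R : Type*} [CommRing R] [Algebra K₀ R] (g : Matrix (Fin n) (Fin n) R)
    (M : Matrix (Fin n) (Fin n) K₀) (ij : Fin n × Fin n) :
    ev (K₀ := K₀) g (ldv M (X ij)) = (g * M.map (algebraMap K₀ R)) ij.1 ij.2 := by
  unfold ldv
  rw [mkDerivation_X, map_sum, Matrix.mul_apply]
  refine Finset.sum_congr rfl fun k _ => ?_
  rw [map_mul, ev_X, ev_C, Matrix.map_apply]

/-- the chain rule -/
theorem deriv_ev {K : Type*} [Field K] [Algebra K₀ K] {ι : Type*} [Fintype ι]
    (M : ι → Matrix (Fin n) (Fin n) K₀) (c : Matrix (Fin n) (Fin n) (PowerSeries K))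
    (ξ : ι → PowerSeries K)
    (hc : ∀ i j, PowerSeries.derivative K (c i j) =
      ∑ a, ξ a * (c * (M a).map (algebraMap K₀ (PowerSeries K))) i j)
    (f : MvPolynomial (Fin n × Fin n) K₀) :
    PowerSeries.derivative K (ev c f) = ∑ a, ξ a * ev c (ldv (M a) f) := by
  induction f using MvPolynomial.induction_on with
  | C a =>
    have h1 : ∀ x : ι, ldv (M x) (C a) = 0 := fun x => (ldv (M x)).map_algebraMap a
    simp only [h1, map_zero, mul_zero, Finset.sum_const_zero]
    rw [ev_C]
    rw [IsScalarTower.algebraMap_apply K₀ K (PowerSeries K)]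
    exact (PowerSeries.derivative K).map_algebraMap _
  | add p q hp hq =>
    simp only [map_add, hp, hq, mul_add, Finset.sum_add_distrib]
  | mul_X p ij hp =>
    rw [map_mul, Derivation.leibniz, hp, ev_X, hc]
    simp only [Derivation.leibniz, map_add, smul_eq_mul, map_mul, ev_ldv_X, ev_X]
    rw [Finset.mul_sum, Finset.mul_sum, ← Finset.sum_add_distrib]
    refine Finset.sum_congr rfl fun a _ => ?_
    ring

/-- the vanishing ideal along an integral curve -/
theorem ode_vanish {K : Type*} [Field K] [CharZero K] [Algebra K₀ K] {ι : Type*} [Fintype ι]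
    (I : Set (MvPolynomial (Fin n × Fin n) K₀))
    (M : ι → Matrix (Fin n) (Fin n) K₀) (hM : ∀ a, ∀ f ∈ I, ldv (M a) f ∈ I)
    (c : Matrix (Fin n) (Fin n) (PowerSeries K)) (ξ : ι → PowerSeries K)
    (hc : ∀ i j, PowerSeries.derivative K (c i j) =
      ∑ a, ξ a * (c * (M a).map (algebraMap K₀ (PowerSeries K))) i j)
    (h0 : ∀ f ∈ I, PowerSeries.constantCoeff (ev c f) = 0) :
    ∀ f ∈ I, ev c f = 0 := by
  have key : ∀ m : ℕ, ∀ f ∈ I, PowerSeries.coeff m (ev c f) = 0 := by
    intro m
    induction m using Nat.strong_induction_on with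
    | _ m ih =>
      intro f hf
      cases m with
      | zero =>
        rw [PowerSeries.coeff_zero_eq_constantCoeff_apply]
        exact h0 f hf
      | succ m =>
        have h1 := congrArg (PowerSeries.coeff m) (deriv_ev M c ξ hc f)
        rw [PowerSeries.coeff_derivative, map_sum] at h1
        have h2 : ∑ a, PowerSeries.coeff m (ξ a * ev c (ldv (M a) f)) = 0 := by
          refine Finset.sum_eq_zero fun a _ => ?_
          rw [PowerSeries.coeff_mul]
          refine Finset.sum_eq_zero fun p hp => ?_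
          rw [Finset.HasAntidiagonal.mem_antidiagonal] at hp
          rw [ih p.2 (by omega) _ (hM a f hf), mul_zero]
        rw [h2] at h1
        have h3 : (m : K) + 1 ≠ 0 := by exact_mod_cast Nat.succ_ne_zero m
        exact (mul_eq_zero.mp h1).resolve_right h3
  intro f hf
  ext m
  rw [key m f hf, map_zero]

end MT
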